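import Pool.Agent.W823.QT.Stm
import Pool.Agent.W845.Expo
import Pool.Agent.H224R3.MT.E2

/-! # QT-LAP: Laplace functional of the traps on a grid, general functional and dimension -/

set_option autoImplicit false

namespace Pool.Agent.W641.QTLAP

open MeasureTheory ProbabilityTheory Filter Topology
open scoped ENNReal NNReal
open Pool.Agent.W845.Traps (IsWalk stepLaw En En_zero En_add En_anti En_le_one En_cont En_meas En_sum
  En_ofReal)
open Pool.Agent.W823.QT (TrapSystem GRIDW_T LAP_T iid pos)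

universe u

section

variable {d : ℕ}

theorem sum_range_eq {Ω' : Type*} (N : Ω' → ℕ) (f : ℕ → Ω' → ℝ≥0∞) (ω : Ω') :
    ∑ j ∈ Finset.range (N ω), f j ω = ∑' j, ({ω | j < N ω} : Set Ω').indicator (f j) ω := by
  rw [tsum_eq_sum (s := Finset.range (N ω))]
  · refine Finset.sum_congr rfl fun j hj => ?_
    rw [Set.indicator_of_mem (show ω ∈ {ω | j < N ω} from Finset.mem_range.1 hj)]
  · intro j hj
    rw [Set.indicator_of_notMem]
    intro h
    exact hj (Finset.mem_range.2 h)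

theorem sum_range_meas {Ω' : Type*} [MeasurableSpace Ω'] {N : Ω' → ℕ} (hN : Measurable N)
    {f : ℕ → Ω' → ℝ≥0∞} (hf : ∀ j, Measurable (f j)) :
    Measurable fun ω => ∑ j ∈ Finset.range (N ω), f j ω := by
  simp_rw [sum_range_eq]
  refine Measurable.tsum fun j => ?_
  exact (hf j).indicator (measurableSet_lt measurable_const hN)

/-- a function of the first values is measurable -/
theorem loc_meas {Ω' : Type*} [MeasurableSpace Ω'] (m : ℕ) (F : (ℕ → Fin d → ℤ) → ℝ≥0∞)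
    (hF : ∀ w w' : ℕ → Fin d → ℤ, (∀ k ≤ m, w k = w' k) → F w = F w')
    (W : ℕ → Ω' → Fin d → ℤ) (hW : ∀ k, Measurable (W k)) :
    Measurable fun ω => F (fun k => W k ω) := by
  classical
  have h1 : (fun ω => F (fun k => W k ω)) =
      (fun v : Fin (m + 1) → Fin d → ℤ => F (fun k => if h : k < m + 1 then v ⟨k, h⟩ else 0)) ∘
        (fun ω => fun k : Fin (m + 1) => W k ω) := by
    funext ω
    apply hF
    intro k hk
    rw [dif_pos (Nat.lt_succ_of_le hk)]
  rw [h1]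
  exact (measurable_of_countable _).comp (measurable_pi_lambda _ fun k => hW k)

end

section

variable {d : ℕ} {Ω : Type u} [MeasurableSpace Ω] {P : Measure Ω} [IsProbabilityMeasure P]
  {ρ ν : ℝ≥0} {N : (Fin d → ℤ) → Ω → ℕ} {Y : (Fin d → ℤ) → ℕ → ℝ≥0 → Ω → Fin d → ℤ}

/-- Laplace functional, finitely many sites -/
theorem laplace_fin (h1 : GRIDW_T.{u}) (hT : TrapSystem P ρ ν N Y) (h : ℝ≥0) (m : ℕ)
    (φ : (Fin d → ℤ) → (ℕ → Fin d → ℤ) → ℝ≥0∞)
    (hφ : ∀ y, ∀ w w' : ℕ → Fin d → ℤ, (∀ k ≤ m, w k = w' k) → φ y w = φ y w')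
    (S : Finset (Fin d → ℤ)) :
    ∫⁻ ω, En (∑ y ∈ S, ∑ j ∈ Finset.range (N y ω), φ y (fun k => Y y j (k * h) ω)) ∂P =
      ∏ y ∈ S, ENNReal.ofReal
        (Real.exp (-(ν * (1 - ∫⁻ w, En (φ y (pos w)) ∂(iid (stepLaw d ρ h))).toReal))) := by
  have hmN : Measurable (fun ω => fun (y : Fin d → ℤ) => N y ω) :=
    measurable_pi_lambda _ fun y => hT.number_meas y
  have hmYi : ∀ i : (Fin d → ℤ) × ℕ, Measurable (fun ω (s : ℝ≥0) => Y i.1 i.2 s ω) := fun i =>
    measurable_pi_lambda _ fun s => (hT.trap i.1 i.2).meas s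
  have hmY : Measurable (fun ω => (fun (i : (Fin d → ℤ) × ℕ) (s : ℝ≥0) => Y i.1 i.2 s ω)) :=
    measurable_pi_lambda _ fun i => hmYi i
  have hφE : ∀ y, ∀ w w' : ℕ → Fin d → ℤ, (∀ k ≤ m, w k = w' k) →
      En (φ y w) = En (φ y w') := fun y w w' hw => by rw [hφ y w w' hw]
  set a : (Fin d → ℤ) → ℝ≥0∞ := fun y => ∫⁻ w, En (φ y (pos w)) ∂(iid (stepLaw d ρ h)) with ha
  have hga0 : ∀ (y : Fin d → ℤ) (j : ℕ),
      ∫⁻ ω, En (φ y (fun k => Y y j (k * h) ω)) ∂P = a y := fun y j =>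
    h1 d Ω P ρ (Y y j) (hT.trap y j) h m (fun x => En (φ y x)) (hφE y)
  have ha1 : ∀ y, a y ≤ 1 := by
    intro y
    rw [← hga0 y 0]
    calc _ ≤ ∫⁻ _, 1 ∂P := lintegral_mono fun ω => En_le_one _
      _ = 1 := by simp
  -- the factor of one trap, as a function of its trajectory
  set g : (Fin d → ℤ) × ℕ → (ℝ≥0 → Fin d → ℤ) → ℝ≥0∞ := fun i w =>
    En (φ i.1 (fun k => w (k * h))) with hg
  have hgm : ∀ i, Measurable (g i) := fun i =>
    loc_meas m (fun x => En (φ i.1 x)) (hφE i.1) (fun k (w : ℝ≥0 → Fin d → ℤ) => w (k * h))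
      (fun k => measurable_pi_apply _)
  have hga : ∀ i : (Fin d → ℤ) × ℕ,
      ∫⁻ ω, g i (fun (s : ℝ≥0) => Y i.1 i.2 s ω) ∂P = a i.1 := fun i => hga0 i.1 i.2
  set G : ((Fin d → ℤ) → ℕ) × ((Fin d → ℤ) × ℕ → ℝ≥0 → Fin d → ℤ) → ℝ≥0∞ := fun p =>
    ∏ y ∈ S, ∏ j ∈ Finset.range (p.1 y), g (y, j) (p.2 (y, j)) with hG
  have hGe : ∀ ω, En (∑ y ∈ S, ∑ j ∈ Finset.range (N y ω), φ y (fun k => Y y j (k * h) ω)) =
      G ((fun (y : Fin d → ℤ) => N y ω),
        (fun (i : (Fin d → ℤ) × ℕ) (s : ℝ≥0) => Y i.1 i.2 s ω)) := by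
    intro ω
    rw [En_sum]
    simp only [hG]
    refine Finset.prod_congr rfl fun y _ => ?_
    rw [En_sum]
  have hGm : Measurable G := by
    have : G = fun p : ((Fin d → ℤ) → ℕ) × ((Fin d → ℤ) × ℕ → ℝ≥0 → Fin d → ℤ) =>
        En (∑ y ∈ S, ∑ j ∈ Finset.range (p.1 y), φ y (fun k => p.2 (y, j) (k * h))) := by
      funext p
      rw [En_sum]
      simp only [hG]
      refine Finset.prod_congr rfl fun y _ => ?_
      rw [En_sum]
    rw [this]
    refine En_meas.comp (Finset.measurable_sum _ fun y _ => ?_)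
    refine sum_range_meas ((measurable_pi_apply y).comp measurable_fst) fun j => ?_
    exact loc_meas m (φ y) (hφ y)
      (fun k (p : ((Fin d → ℤ) → ℕ) × ((Fin d → ℤ) × ℕ → ℝ≥0 → Fin d → ℤ)) => p.2 (y, j) (k * h))
      (fun k => (measurable_pi_apply (_ : ℝ≥0)).comp
        ((measurable_pi_apply (y, j)).comp measurable_snd))
  have h1' := hT.indepNY.map_prod_eq_prod_map_map hmN.aemeasurable hmY.aemeasurable
  have h0 : ∫⁻ ω, G ((fun (y : Fin d → ℤ) => N y ω),
        (fun (i : (Fin d → ℤ) × ℕ) (s : ℝ≥0) => Y i.1 i.2 s ω)) ∂P =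
      ∫⁻ p, G p ∂(P.map (fun ω => ((fun (y : Fin d → ℤ) => N y ω),
        (fun (i : (Fin d → ℤ) × ℕ) (s : ℝ≥0) => Y i.1 i.2 s ω)))) :=
    (lintegral_map hGm (hmN.prodMk hmY)).symm
  simp_rw [hGe]
  rw [h0, h1', lintegral_prod _ hGm.aemeasurable, lintegral_map hGm.lintegral_prod_right' hmN]
  have h2 : ∀ n : (Fin d → ℤ) → ℕ, ∫⁻ q, G (n, q)
      ∂(P.map (fun ω => (fun (i : (Fin d → ℤ) × ℕ) (s : ℝ≥0) => Y i.1 i.2 s ω))) =
        ∏ y ∈ S, a y ^ n y := by
    intro n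
    refine (lintegral_map (hGm.comp (measurable_prodMk_left (x := n))) hmY).trans ?_
    set T : Finset ((Fin d → ℤ) × ℕ) :=
      (S.sigma fun y => Finset.range (n y)).map (Equiv.sigmaEquivProd (Fin d → ℤ) ℕ).toEmbedding
      with hTd
    have h3 : ∀ ω, (G ∘ Prod.mk n) (fun (i : (Fin d → ℤ) × ℕ) (s : ℝ≥0) => Y i.1 i.2 s ω) =
        ∏ i ∈ T, g i (fun (s : ℝ≥0) => Y i.1 i.2 s ω) := by
      intro ω
      rw [hTd, Finset.prod_map, Finset.prod_sigma]
      rfl
    simp_rw [h3]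
    rw [lintegral_prod_eq_prod_lintegral_of_indepFun (μ := P) T
      (fun i ω => g i (fun (s : ℝ≥0) => Y i.1 i.2 s ω)) (hT.indepY.comp g hgm)
      (fun i => (hgm i).comp (hmYi i))]
    simp_rw [hga]
    rw [hTd, Finset.prod_map, Finset.prod_sigma]
    refine Finset.prod_congr rfl fun y _ => ?_
    rw [← Finset.card_range (n y)]
    rw [← Finset.prod_const]
    simp only [Finset.card_range]
    rfl
  simp only [h2]
  have h5 := lintegral_prod_eq_prod_lintegral_of_indepFun (μ := P) S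
    (fun y ω => a y ^ (N y ω)) (hT.indepN.comp (fun y n => a y ^ n)
      (fun y => measurable_of_countable _))
    (fun y => (measurable_of_countable (fun n : ℕ => a y ^ n)).comp (hT.number_meas y))
  rw [h5]
  refine Finset.prod_congr rfl fun y _ => ?_
  rw [← Pool.Agent.H224R3.MT.poisson_pow ν (a y) (ha1 y), ← hT.number y,
    lintegral_map (measurable_of_countable _) (hT.number_meas y)]

theorem main (h1 : GRIDW_T.{u}) : LAP_T.{u} := by
  intro d Ω _ P _ ρ ν N Y hT h m φ hφ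
  set r : (Fin d → ℤ) → ℝ≥0∞ := fun y =>
    1 - ∫⁻ w, En (φ y (pos w)) ∂(iid (stepLaw d ρ h)) with hr
  set f : (Fin d → ℤ) → Ω → ℝ≥0∞ := fun y ω => ∑ j ∈ Finset.range (N y ω),
        φ y (fun k => Y y j (k * h) ω) with hf
  have hfm : ∀ y, Measurable (f y) := fun y =>
    sum_range_meas (hT.number_meas y) fun j =>
      loc_meas m (φ y) (hφ y) (fun k ω => Y y j (k * h) ω) (fun k => (hT.trap y j).meas (k * h))
  show ∫⁻ ω, En (∑' y : Fin d → ℤ, f y ω) ∂P = En (ν * ∑' y : Fin d → ℤ, r y)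
  have hlim1 : Tendsto (fun S : Finset (Fin d → ℤ) =>
      ∫⁻ ω, En (∑ y ∈ S, f y ω) ∂P) atTop
      (𝓝 (∫⁻ ω, En (∑' y : Fin d → ℤ, f y ω) ∂P)) := by
    refine tendsto_lintegral_filter_of_dominated_convergence 1 ?_ ?_ (by simp) ?_
    · refine Eventually.of_forall fun S => ?_
      exact En_meas.comp (Finset.measurable_sum _ fun y _ => hfm y)
    · exact Eventually.of_forall fun S => Eventually.of_forall fun ω => En_le_one _
    · refine Eventually.of_forall fun ω => ?_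
      exact (En_cont.tendsto _).comp ENNReal.summable.hasSum
  have hlim2 : Tendsto (fun S : Finset (Fin d → ℤ) =>
      ∫⁻ ω, En (∑ y ∈ S, f y ω) ∂P) atTop
      (𝓝 (En (ν * ∑' y, r y))) := by
    have h2 : ∀ S : Finset (Fin d → ℤ), ∫⁻ ω, En (∑ y ∈ S, f y ω) ∂P =
        En (ν * ∑ y ∈ S, r y) := by
      intro S
      simp only [hf]
      rw [laplace_fin h1 hT h m φ hφ S, Finset.mul_sum, En_sum]
      refine Finset.prod_congr rfl fun y _ => ?_
      have h2 : r y ≠ ∞ := ne_top_of_le_ne_top ENNReal.one_ne_top tsub_le_self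
      rw [← En_ofReal (by positivity), ENNReal.ofReal_mul (by positivity),
        ENNReal.ofReal_toReal h2, ENNReal.ofReal_coe_nnreal]
    simp only [h2]
    refine (En_cont.tendsto _).comp (ENNReal.Tendsto.const_mul ?_ (Or.inr ENNReal.coe_ne_top))
    exact ENNReal.summable.hasSum
  exact tendsto_nhds_unique hlim1 hlim2

end

end Pool.Agent.W641.QTLAP
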