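import Pool.Agent.W544.EG.Stubs
import Pool.Agent.Helper472.Lat_CST2

/-!
# EGS-TS: two separated sets of positive measure give a small eigenvalue
-/

open Matrix MeasureTheory Topology
open scoped Matrix.Norms.Frobenius ContDiff

namespace Pool.Agent.W641.EGS

open Pool.Agent.W544.EG

variable {N m : ℕ} {G : Subgroup (unitaryGroup (Fin N) ℂ)}

/-- the matrix of an element of `G` -/
def cm (x : G) : Mat N := ((x : unitaryGroup (Fin N) ℂ) : Mat N)

lemma cm_mul (x y : G) : cm (x * y) = cm x * cm y := rfl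

lemma cm_one : cm (1 : G) = 1 := rfl

lemma continuous_cm : Continuous (cm : G → Mat N) :=
  continuous_subtype_val.comp continuous_subtype_val

/-- the distances to `U` -/
def DD (g : LeftInvMetric G m) (U : Set G) (x : G) : Set ℝ :=
  {s | 0 ≤ s ∧ ∃ u ∈ U, cm (u⁻¹ * x) ∈ Ball g s}

/-- the truncated distance to `U` -/
noncomputable def ff (g : LeftInvMetric G m) (U : Set G) (T : ℝ) (x : G) : ℝ :=
  sInf (insert T (DD g U x))

section

variable {g : LeftInvMetric G m} {U U' : Set G} {T : ℝ}

lemma bdd (hT : 0 < T) (x : G) : BddBelow (insert T (DD g U x)) := by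
  refine ⟨0, ?_⟩
  rintro s (rfl | hs)
  · exact hT.le
  · exact hs.1

lemma ff_le (hT : 0 < T) (x : G) : ff g U T x ≤ T := csInf_le (bdd hT x) (Set.mem_insert _ _)

lemma ff_nonneg (hT : 0 < T) (x : G) : 0 ≤ ff g U T x := by
  refine le_csInf (Set.insert_nonempty _ _) ?_
  rintro s (rfl | hs)
  · exact hT.le
  · exact hs.1

lemma ff_zero (hT : 0 < T) {x : G} (hx : x ∈ U) : ff g U T x = 0 := by
  refine le_antisymm (csInf_le (bdd hT x) (Set.mem_insert_of_mem _ ⟨le_rfl, x, hx, [], ?_, ?_⟩))
    (ff_nonneg hT x)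
  · rw [inv_mul_cancel, cm_one]; rfl
  · simp

lemma ff_T (hT : 0 < T) {x : G} (hx : ∀ u ∈ U, ∀ s < T, cm (u⁻¹ * x) ∉ Ball g s) :
    ff g U T x = T := by
  refine le_antisymm (ff_le hT x) (le_csInf (Set.insert_nonempty _ _) ?_)
  rintro s (rfl | ⟨_, u, hu, hs⟩)
  · exact le_rfl
  · by_contra h
    exact hx u hu s (not_le.1 h) hs

lemma ff_lip (hT : 0 < T) {x y : G} (a : EuclideanSpace ℝ (Fin m))
    (h : cm y = cm x * NormedSpace.exp (∑ i, a i • g.X i)) : ff g U T y ≤ ff g U T x + ‖a‖ := by
  rw [← sub_le_iff_le_add]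
  refine le_csInf (Set.insert_nonempty _ _) ?_
  rintro s (rfl | ⟨hs0, u, hu, l, hl, hs⟩)
  · rw [sub_le_iff_le_add]
    exact (ff_le hT y).trans (by linarith [norm_nonneg a])
  · rw [sub_le_iff_le_add]
    refine csInf_le (bdd hT y) (Set.mem_insert_of_mem _ ⟨by linarith [norm_nonneg a], u, hu,
      l ++ [a], ?_, ?_⟩)
    · rw [List.map_append, List.prod_append, hl, List.map_singleton, List.prod_singleton,
        cm_mul, cm_mul, h, mul_assoc]
    · rw [List.map_append, List.sum_append, List.map_singleton, List.sum_singleton]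
      linarith

lemma exp_neg_mul (X : Mat N) : NormedSpace.exp X * NormedSpace.exp (-X) = (1 : Mat N) := by
  rw [← Matrix.exp_add_of_commute _ _ ((Commute.refl X).neg_right), add_neg_cancel,
    NormedSpace.exp_zero]

lemma ff_lip2 (hT : 0 < T) {x y : G} (a : EuclideanSpace ℝ (Fin m))
    (h : cm y = cm x * NormedSpace.exp (∑ i, a i • g.X i)) :
    |ff g U T y - ff g U T x| ≤ ‖a‖ := by
  have h1 := ff_lip (U := U) hT a h
  have h2 : ff g U T x ≤ ff g U T y + ‖-a‖ := by
    apply ff_lip hT (-a)
    have : ∑ i, (-a) i • g.X i = -∑ i, a i • g.X i := by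
      rw [← Finset.sum_neg_distrib]
      refine Finset.sum_congr rfl fun i _ => ?_
      rw [PiLp.neg_apply, neg_smul]
    rw [this, h, mul_assoc, exp_neg_mul, mul_one]
  rw [norm_neg] at h2
  rw [abs_le]
  constructor <;> linarith

/-- the linear parametrisation of the Lie algebra -/
noncomputable def par (g : LeftInvMetric G m) : EuclideanSpace ℝ (Fin m) →ₗ[ℝ] Mat N where
  toFun a := ∑ i, a i • g.X i
  map_add' a b := by
    rw [← Finset.sum_add_distrib]
    refine Finset.sum_congr rfl fun i _ => ?_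
    rw [PiLp.add_apply, add_smul]
  map_smul' c a := by
    simp only [PiLp.smul_apply, smul_eq_mul, RingHom.id_apply, Finset.smul_sum, mul_smul]

lemma par_inj (g : LeftInvMetric G m) : LinearMap.ker (par g) = ⊥ := by
  rw [LinearMap.ker_eq_bot']
  intro a ha
  have h := Fintype.linearIndependent_iff.1 g.indep (fun i => a i) ha
  ext i
  exact h i

lemma mem_range_par (g : LeftInvMetric G m) {X : Mat N}
    (hX : X ∈ Submodule.span ℝ (Set.range g.X)) : ∃ a, par g a = X := by
  obtain ⟨c, hc⟩ := (Submodule.mem_span_range_iff_exists_fun ℝ).1 hX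
  exact ⟨WithLp.toLp 2 c, hc⟩

/-- near `1` the elements of `G` are exponentials of small elements of the Lie algebra -/
lemma near_one (hG : IsClosed (G : Set (unitaryGroup (Fin N) ℂ))) (g : LeftInvMetric G m)
    {ε : ℝ} (hε : 0 < ε) : ∃ O ∈ 𝓝 (1 : Mat N), ∀ x : G, cm x ∈ O →
      ∃ a : EuclideanSpace ℝ (Fin m), ‖a‖ < ε ∧ cm x = NormedSpace.exp (∑ i, a i • g.X i) := by
  obtain ⟨q, hq⟩ := LinearMap.exists_leftInverse_of_injective (par g) (par_inj g)
  have hqc : Continuous q := q.continuous_of_finiteDimensional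
  let S : Set (Mat N) := {M | ∃ u ∈ G, ((u : unitaryGroup (Fin N) ℂ) : Mat N) = M}
  have hS : IsClosed S := by
    have hc : IsClosed ((Matrix.unitaryGroup (Fin N) ℂ : Set (Mat N))) := isClosed_unitary
    have h2 := hc.isClosedEmbedding_subtypeVal.isClosedMap _ hG
    convert h2 using 1
    ext M
    constructor
    · rintro ⟨u, hu, rfl⟩; exact ⟨u, hu, rfl⟩
    · rintro ⟨u, hu, rfl⟩; exact ⟨u, hu, rfl⟩
  have key := Pool.LatH472.CST2_gen S hS ⟨1, G.one_mem, rfl⟩
    (by
      rintro a ⟨u, hu, rfl⟩ b ⟨v, hv, rfl⟩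
      exact ⟨u * v, G.mul_mem hu hv, rfl⟩)
    (by
      rintro a ⟨u, hu, rfl⟩ b hb
      refine ⟨u⁻¹, G.inv_mem hu, ?_⟩
      have h1 : ((u : unitaryGroup (Fin N) ℂ) : Mat N) *
          ((u⁻¹ : unitaryGroup (Fin N) ℂ) : Mat N) = 1 := by
        simp
      calc ((u⁻¹ : unitaryGroup (Fin N) ℂ) : Mat N) = (b * (u : Mat N)) *
            ((u⁻¹ : unitaryGroup (Fin N) ℂ) : Mat N) := by rw [hb, one_mul]
        _ = b := by rw [mul_assoc, h1, mul_one])
    (Submodule.span ℝ (Set.range g.X))
    (by
      intro X hX t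
      have : X ∈ LieAlg G := by rw [← g.span_eq]; exact hX
      exact this t)
    (by
      intro X hX
      have : X ∈ LieAlg G := hX
      rw [← g.span_eq] at this
      exact this)
    (q ⁻¹' Metric.ball 0 ε)
    (hqc.continuousAt.preimage_mem_nhds (by rw [map_zero]; exact Metric.ball_mem_nhds _ hε))
  obtain ⟨O, hO, hO2⟩ := key
  refine ⟨O, hO, fun x hx => ?_⟩
  obtain ⟨X, hX, hXV, hX2⟩ := hO2 (cm x) ⟨x, x.2, rfl⟩ hx
  obtain ⟨a, rfl⟩ := mem_range_par g hX
  refine ⟨a, ?_, hX2.symm⟩
  have h3 : q (par g a) = a := LinearMap.congr_fun hq a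
  have h4 : q (par g a) ∈ Metric.ball (0 : EuclideanSpace ℝ (Fin m)) ε := hXV
  rw [h3, mem_ball_zero_iff] at h4
  exact h4

lemma continuous_ff (hG : IsClosed (G : Set (unitaryGroup (Fin N) ℂ))) (hT : 0 < T) :
    Continuous (ff g U T) := by
  rw [Metric.continuous_iff']
  intro x ε hε
  obtain ⟨O, hO, hO2⟩ := near_one hG g hε
  have hc : Continuous fun y : G => cm (x⁻¹ * y) := continuous_cm.comp (by fun_prop)
  have : ∀ᶠ y in 𝓝 x, cm (x⁻¹ * y) ∈ O := by
    apply hc.continuousAt.preimage_mem_nhds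
    rw [inv_mul_cancel, cm_one]
    exact hO
  filter_upwards [this] with y hy
  obtain ⟨a, ha, hya⟩ := hO2 _ hy
  rw [Real.dist_eq]
  refine lt_of_le_of_lt (ff_lip2 hT a ?_) ha
  rw [← hya, ← cm_mul, mul_inv_cancel_left]

end

/-- **EGS-TS.** -/
theorem egs_TS (hR : S_R) : S_TS := by
  intro N m G hG hGc g _ _ μ _ _ _ U U' hU hU' T v hT hv hvU hvU' hsep
  have hfc : Continuous (ff g U T) := continuous_ff hG hT
  have hfi : Integrable (ff g U T) μ := by
    refine Integrable.of_bound hfc.aestronglyMeasurable T (Filter.Eventually.of_forall fun x => ?_)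
    rw [Real.norm_eq_abs, abs_of_nonneg (ff_nonneg hT x)]
    exact ff_le hT x
  set c := ∫ z, ff g U T z ∂μ with hc
  have hT' : ∀ x ∈ U', ff g U T x = T := fun x hx => ff_T hT fun u hu s hs => hsep u hu x hx s hs
  have hdisj : Disjoint U U' := by
    rw [Set.disjoint_left]
    intro x hx hx'
    have h1 := hT' x hx'
    rw [ff_zero hT hx] at h1
    exact hT.ne h1
  have hV : v * T ^ 2 / 2 ≤ ∫ x, (ff g U T x - c) ^ 2 ∂μ := by
    have hb : Integrable (fun x => (ff g U T x - c) ^ 2) μ := by
      refine Integrable.of_bound ((hfc.sub continuous_const).pow 2).aestronglyMeasurable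
        ((T + |c|) ^ 2) (Filter.Eventually.of_forall fun x => ?_)
      rw [Real.norm_eq_abs, abs_pow]
      gcongr
      calc |ff g U T x - c| ≤ |ff g U T x| + |c| := abs_sub _ _
        _ ≤ T + |c| := by
          rw [abs_of_nonneg (ff_nonneg hT x)]
          linarith [ff_le (g := g) (U := U) hT x]
    have h1 : ∫ x, (U.indicator (fun _ => c ^ 2) x + U'.indicator (fun _ => (T - c) ^ 2) x) ∂μ ≤
        ∫ x, (ff g U T x - c) ^ 2 ∂μ := by
      apply integral_mono
      · exact ((integrable_const _).indicator hU).add ((integrable_const _).indicator hU')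
      · exact hb
      · intro x
        by_cases hx : x ∈ U
        · have hx' : x ∉ U' := Set.disjoint_left.1 hdisj hx
          simp only [Set.indicator_of_mem hx, Set.indicator_of_notMem hx', ff_zero hT hx]
          nlinarith
        · by_cases hx' : x ∈ U'
          · simp only [Set.indicator_of_notMem hx, Set.indicator_of_mem hx', hT' x hx']
            linarith
          · simp only [Set.indicator_of_notMem hx, Set.indicator_of_notMem hx']
            rw [add_zero]
            exact sq_nonneg _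
    rw [integral_add ((integrable_const _).indicator hU) ((integrable_const _).indicator hU'),
      integral_indicator_const _ hU, integral_indicator_const _ hU', smul_eq_mul, smul_eq_mul] at h1
    refine le_trans ?_ h1
    nlinarith [mul_le_mul_of_nonneg_right hvU (sq_nonneg c),
      mul_le_mul_of_nonneg_right hvU' (sq_nonneg (T - c)), sq_nonneg (2 * c - T)]
  obtain ⟨lam, h1, h2, h3⟩ := hR N m G hG hGc g μ (ff g U T) hfc (by
    intro x y i t hxy
    have h4 : cm y = cm x * NormedSpace.exp (∑ j, (EuclideanSpace.single i t) j • g.X j) := by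
      have : ∑ j, (EuclideanSpace.single i t : EuclideanSpace ℝ (Fin m)) j • g.X j =
          t • g.X i := by
        rw [Finset.sum_eq_single i]
        · simp
        · intro j _ hj
          simp [hj]
        · intro h; exact absurd (Finset.mem_univ i) h
      rw [this]
      exact hxy
    have h5 := ff_lip2 (U := U) hT _ h4
    rwa [PiLp.norm_single, Real.norm_eq_abs] at h5) (v * T ^ 2 / 2) (by positivity) hV
  exact ⟨lam, h1, by linarith, h3⟩

end Pool.Agent.W641.EGS
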