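import Pool.Agent.W485.Ext

/-!
Overshears and homogeneous torus fields are complete.
-/

namespace Pool.Agent.W485.W641C

open Polynomial Pool.Agent.W485

noncomputable section

section Overshear

variable {B : Type} [CommRing B] [Algebra ℂ B] (Θ : VF B) (hΘ : IsLND Θ) (x : B →ₐ[ℂ] ℂ)

lemma iter_zero (k : ℕ) : (⇑Θ)^[k] 0 = 0 := by
  induction k with
  | zero => rfl
  | succ k ih => rw [Function.iterate_succ_apply, map_zero, ih]

lemma iter_add (k : ℕ) (a b : B) : (⇑Θ)^[k] (a + b) = (⇑Θ)^[k] a + (⇑Θ)^[k] b := by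
  induction k generalizing a b with
  | zero => rfl
  | succ k ih => rw [Function.iterate_succ_apply, map_add, ih]; rfl

lemma iter_of_le {k m : ℕ} (hkm : k ≤ m) {a : B} (h : (⇑Θ)^[k] a = 0) : (⇑Θ)^[m] a = 0 := by
  obtain ⟨d, rfl⟩ := Nat.exists_eq_add_of_le hkm
  rw [add_comm, Function.iterate_add_apply, h, iter_zero]

/-- The polynomial `∑ x(Θ^n h)/n! X^n`. -/
def PP (h : B) : ℂ[X] := by
  classical
  exact ∑ n ∈ Finset.range (Nat.find (hΘ h)), monomial n (((n.factorial : ℂ))⁻¹ * x ((⇑Θ)^[n] h))

lemma PP_coeff (h : B) (n : ℕ) :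
    (PP Θ hΘ x h).coeff n = ((n.factorial : ℂ))⁻¹ * x ((⇑Θ)^[n] h) := by
  classical
  unfold PP
  rw [finsetSum_coeff]
  simp only [coeff_monomial]
  rw [Finset.sum_ite_eq']
  split_ifs with hn
  · rfl
  · rw [Finset.mem_range, not_lt] at hn
    rw [iter_of_le Θ hn (Nat.find_spec (hΘ h)), map_zero, mul_zero]

lemma PP_deriv (h : B) : derivative (PP Θ hΘ x h) = PP Θ hΘ x (Θ h) := by
  ext n
  rw [coeff_derivative, PP_coeff, PP_coeff, Function.iterate_succ_apply, Nat.factorial_succ]
  have h1 : ((n : ℂ) + 1) ≠ 0 := Nat.cast_add_one_ne_zero n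
  have h2 : ((n.factorial : ℕ) : ℂ) ≠ 0 := by exact_mod_cast n.factorial_ne_zero
  push_cast
  field_simp

lemma PP_add (a b : B) : PP Θ hΘ x (a + b) = PP Θ hΘ x a + PP Θ hΘ x b := by
  ext n
  rw [coeff_add, PP_coeff, PP_coeff, PP_coeff, iter_add, map_add, mul_add]

lemma PP_mul_coeff (n : ℕ) : ∀ a b : B,
    (PP Θ hΘ x (a * b)).coeff n = (PP Θ hΘ x a * PP Θ hΘ x b).coeff n := by
  induction n with
  | zero =>
    intro a b
    rw [mul_coeff_zero, PP_coeff, PP_coeff, PP_coeff]
    simp
  | succ n ih =>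
    intro a b
    have h1 : (derivative (PP Θ hΘ x (a * b))).coeff n =
        (derivative (PP Θ hΘ x a * PP Θ hΘ x b)).coeff n := by
      rw [PP_deriv, Derivation.leibniz, smul_eq_mul, smul_eq_mul, PP_add, coeff_add, ih, ih,
        derivative_mul, coeff_add, PP_deriv, PP_deriv, mul_comm (PP Θ hΘ x b), add_comm]
    rw [coeff_derivative, coeff_derivative] at h1
    have h2 : ((n : ℂ) + 1) ≠ 0 := Nat.cast_add_one_ne_zero n
    exact mul_right_cancel₀ h2 h1

lemma PP_mul (a b : B) : PP Θ hΘ x (a * b) = PP Θ hΘ x a * PP Θ hΘ x b := by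
  ext n
  exact PP_mul_coeff Θ hΘ x n a b

lemma PP_algebraMap (c : ℂ) : PP Θ hΘ x (algebraMap ℂ B c) = C c := by
  ext n
  rw [PP_coeff, coeff_C]
  cases n with
  | zero => simp
  | succ n =>
    rw [Function.iterate_succ_apply, Derivation.map_algebraMap, iter_zero, map_zero, mul_zero]
    simp

/-- The flow as a homomorphism to polynomials. -/
def PHom : B →ₐ[ℂ] ℂ[X] where
  toFun := PP Θ hΘ x
  map_one' := by
    have := PP_algebraMap Θ hΘ x 1
    rwa [map_one, map_one] at this
  map_mul' := PP_mul Θ hΘ x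
  map_zero' := by
    have := PP_algebraMap Θ hΘ x 0
    rwa [map_zero, map_zero] at this
  map_add' := PP_add Θ hΘ x
  commutes' := PP_algebraMap Θ hΘ x

lemma PHom_apply (h : B) : PHom Θ hΘ x h = PP Θ hΘ x h := rfl

end Overshear

theorem overshear_complete {B : Type} [CommRing B] [Algebra ℂ B] (V : Pool.Agent.W485.VF B)
    (h : Pool.Agent.W485.IsOvershear V) : Pool.Agent.W485.IsCompleteField V := by
  obtain ⟨Θ, f, hΘ, hf, rfl⟩ := h
  intro x
  set a : ℂ := x f with ha
  set b : ℂ := x (Θ f) with hb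
  -- the time change
  obtain ⟨lam, hl0, hl⟩ : ∃ lam : ℂ → ℂ, lam 0 = 0 ∧
      ∀ t, HasDerivAt lam (a + b * lam t) t := by
    by_cases hb0 : b = 0
    · refine ⟨fun t => a * t, by simp, fun t => ?_⟩
      rw [hb0]
      simpa using (hasDerivAt_id t).const_mul a
    · refine ⟨fun t => a * (Complex.exp (b * t) - 1) / b, by simp, fun t => ?_⟩
      have h1 : HasDerivAt (fun t : ℂ => Complex.exp (b * t)) (Complex.exp (b * t) * b) t := by
        have := ((hasDerivAt_id t).const_mul b).cexp
        simpa using this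
      have h2 := ((h1.sub_const 1).const_mul a).div_const b
      refine h2.congr_deriv ?_
      field_simp
      ring
  have hPf : ∀ s : ℂ, (PP Θ hΘ x f).eval s = a + b * s := by
    intro s
    have : PP Θ hΘ x f = C a + C b * X := by
      ext n
      rw [PP_coeff, coeff_add, coeff_C, coeff_C_mul, coeff_X]
      rcases n with _ | _ | n
      · simp [ha]
      · simp [hb]
      · rw [Function.iterate_succ_apply, Function.iterate_succ_apply, hf, iter_zero]
        simp
    rw [this]
    simp
  refine ⟨fun t => (Polynomial.aeval (lam t)).comp (PHom Θ hΘ x), ?_, ?_⟩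
  · ext g
    simp only [AlgHom.comp_apply, PHom_apply, hl0, Polynomial.coe_aeval_eq_eval]
    rw [← coeff_zero_eq_eval_zero, PP_coeff]
    simp
  · intro g t
    simp only [AlgHom.comp_apply, PHom_apply, Polynomial.coe_aeval_eq_eval]
    have h1 : HasDerivAt (fun s => (PP Θ hΘ x g).eval (lam s))
        ((derivative (PP Θ hΘ x g)).eval (lam t) * (a + b * lam t)) t :=
      (Polynomial.hasDerivAt (PP Θ hΘ x g) (lam t)).comp t (hl t)
    refine h1.congr_deriv ?_
    have h2 : (f • Θ) g = f * Θ g := by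
      rw [Derivation.smul_apply, smul_eq_mul]
    rw [h2, PP_mul, eval_mul, hPf, PP_deriv, mul_comm]

section Torus

variable (σ : G →+ ℂ) (u : ℂ)

/-- The diagonal automorphism of the ambient algebra. -/
def TR : R →ₗ[ℂ] R := diag fun n => Complex.exp (u * σ n) • LinearMap.id

lemma TR_sg (n : G) (P : ℂ[X]) : TR σ u (sg n P) = sg n (Complex.exp (u * σ n) • P) :=
  diag_sg _ _ _

lemma TR_coeff (F : R) (n : G) : (TR σ u F).coeff n = Complex.exp (u * σ n) • F.coeff n :=
  diag_coeff _ _ _

lemma TR_mem {F : R} (hF : F ∈ A) : TR σ u F ∈ A := by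
  intro n i
  rw [TR_coeff]
  exact dvd_smul_of_dvd _ (hF n i)

lemma TR_mul (a b : R) : TR σ u (a * b) = TR σ u a * TR σ u b := by
  induction a using AddMonoidAlgebra.induction_linear with
  | zero => simp
  | add x y hx hy => rw [add_mul, map_add, hx, hy, map_add]; ring
  | single m P =>
    induction b using AddMonoidAlgebra.induction_linear with
    | zero => simp
    | add x y hx hy => rw [mul_add, map_add, hx, hy, map_add]; ring
    | single n Q =>
      change TR σ u (sg m P * sg n Q) = TR σ u (sg m P) * TR σ u (sg n Q)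
      rw [sg_mul, TR_sg, TR_sg, TR_sg, sg_mul, map_add, mul_add, Complex.exp_add, mul_smul,
        smul_mul_smul_comm, mul_smul]

lemma TR_one : TR σ u 1 = 1 := by
  rw [one_eq_sg, TR_sg, map_zero, mul_zero, Complex.exp_zero, one_smul]

/-- The diagonal automorphism of `A`. -/
def TA : AA →ₐ[ℂ] AA :=
  AlgHom.ofLinearMap
    { toFun := fun a => mkA (TR σ u (inc a)) (TR_mem σ u (inc_mem a))
      map_add' := fun a b => inc_inj (by
        rw [map_add inc (mkA _ _), inc_mkA, inc_mkA, inc_mkA, map_add, map_add])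
      map_smul' := fun c a => inc_inj (by
        rw [RingHom.id_apply, map_smul inc c (mkA _ _), inc_mkA, inc_mkA, map_smul inc c a,
          map_smul]) }
    (inc_inj (by
      change TR σ u (inc 1) = inc 1
      rw [map_one, TR_one]))
    (by
      intro a b
      apply inc_inj
      change TR σ u (inc (a * b)) = _
      rw [map_mul, TR_mul, map_mul]
      rfl)

lemma inc_TA (a : AA) : inc (TA σ u a) = TR σ u (inc a) := rfl

lemma TA_sg (n : G) (P : ℂ[X]) (h : sg n P ∈ A) :
    TA σ u (mkA (sg n P) h) = Complex.exp (u * σ n) • mkA (sg n P) h := by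
  apply inc_inj
  rw [inc_TA, inc_mkA, TR_sg, map_smul inc, inc_mkA, smul_sg]

lemma EA_sg (n : G) (P : ℂ[X]) (h : sg n P ∈ A) :
    EA σ (mkA (sg n P) h) = σ n • mkA (sg n P) h := by
  apply inc_inj
  change EE σ (sg n P) = _
  rw [EE_sg, map_smul inc, inc_mkA, smul_sg]

end Torus

theorem torus_complete (σ : Pool.Agent.W485.G →+ ℂ) (m : Pool.Agent.W485.G) (P : Polynomial ℂ)
    (h : Pool.Agent.W485.sg m P ∈ Pool.Agent.W485.A) (hσ : σ m = 0) :
    Pool.Agent.W485.IsCompleteField
      (Pool.Agent.W485.mkA (Pool.Agent.W485.sg m P) h • Pool.Agent.W485.EA σ) := by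
  intro x
  set k : ℂ := x (mkA (sg m P) h) with hk
  refine ⟨fun t => x.comp (TA σ (t * k)), ?_, ?_⟩
  · ext a
    simp only [AlgHom.comp_apply, zero_mul]
    congr 1
    apply inc_inj
    rw [inc_TA]
    apply AddMonoidAlgebra.coeff_injective
    ext1 n
    rw [TR_coeff, zero_mul, Complex.exp_zero, one_smul]
  · intro f t
    have key : ∀ F : R, F ∈ A → ∀ hF : F ∈ A,
        HasDerivAt (fun s => (x.comp (TA σ (s * k))) (mkA F hF))
          ((x.comp (TA σ (t * k))) ((mkA (sg m P) h • EA σ) (mkA F hF))) t := by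
      intro F hF
      refine A_induction (p := fun F => ∀ hF : F ∈ A,
        HasDerivAt (fun s => (x.comp (TA σ (s * k))) (mkA F hF))
          ((x.comp (TA σ (t * k))) ((mkA (sg m P) h • EA σ) (mkA F hF))) t) ?_ ?_ ?_ hF
      · intro h0
        have e0 : mkA 0 h0 = 0 := rfl
        rw [e0]
        simp only [map_zero]
        exact hasDerivAt_const t (0 : ℂ)
      · intro a ha b hb ia ib hab
        have e1 : mkA (a + b) hab = mkA a ha + mkA b hb := rfl
        rw [e1]
        have h1 := (ia ha).add (ib hb)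
        simp only [map_add]
        exact h1
      · intro n Q hQ hQ'
        have e2 : (mkA (sg m P) h • EA σ) (mkA (sg n Q) hQ') =
            mkA (sg m P) h * (σ n • mkA (sg n Q) hQ') := by
          rw [Derivation.smul_apply, EA_sg, smul_eq_mul]
        have e3 : ∀ s : ℂ, (x.comp (TA σ (s * k))) (mkA (sg n Q) hQ') =
            Complex.exp (s * k * σ n) * x (mkA (sg n Q) hQ') := by
          intro s
          rw [AlgHom.comp_apply, TA_sg, map_smul, smul_eq_mul]
        have e4 : (x.comp (TA σ (t * k))) (mkA (sg m P) h) = k := by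
          rw [AlgHom.comp_apply, TA_sg, map_smul, smul_eq_mul, hσ, mul_zero, Complex.exp_zero,
            one_mul]
        rw [e2, map_mul, e4, map_smul, smul_eq_mul, e3]
        simp only [e3]
        have h1 : HasDerivAt (fun s : ℂ => Complex.exp (s * k * σ n))
            (Complex.exp (t * k * σ n) * (k * σ n)) t := by
          have h2 : HasDerivAt (fun s : ℂ => s * k * σ n) (k * σ n) t := by
            have := ((hasDerivAt_id t).mul_const k).mul_const (σ n)
            simpa using this
          exact h2.cexp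
        refine (h1.mul_const _).congr_deriv ?_
        ring
    exact key (inc f) (inc_mem f) (inc_mem f)

end

end Pool.Agent.W485.W641C
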