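import Pool.Agent.W696.QR.Defs

/-!
# Stationary slowly varying sequences in an infinite dimensional normed space
-/

set_option autoImplicit false

namespace Pool.Agent.W641.QRS

open Filter Topology Finset

/-- put an element in front of a sequence -/
def cons {Q : Type} (h : Q) (s : ℕ → Q) : ℕ → Q
  | 0 => h
  | n + 1 => s n

/-- the shift -/
def sh {Q : Type} (s : ℕ → Q) : ℕ → Q := fun i => s (i + 1)

variable {Q : Type} [NormedAddCommGroup Q] [NormedSpace ℝ Q]

/-- a bounded weakly null ultrafilter of vectors of norm at least one -/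
structure WN (Q : Type) [NormedAddCommGroup Q] [NormedSpace ℝ Q] where
  μ : Ultrafilter Q
  R : ℝ
  bdd : ∀ᶠ h in (μ : Filter Q), ‖h‖ ≤ R
  big : ∀ᶠ h in (μ : Filter Q), 1 ≤ ‖h‖
  null : ∀ ψ : StrongDual ℝ Q, Tendsto (fun h => ψ h) (μ : Filter Q) (𝓝 0)

/-- a bounded real function has a limit along an ultrafilter -/
theorem exists_lim {α : Type} (F : Ultrafilter α) (g : α → ℝ) (C : ℝ)
    (h : ∀ᶠ x in (F : Filter α), |g x| ≤ C) : ∃ l, Tendsto g (F : Filter α) (𝓝 l) := by
  have h1 : Set.Icc (-C) C ∈ F.map g := by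
    rw [Ultrafilter.mem_map]
    filter_upwards [h] with x hx
    exact abs_le.mp hx
  obtain ⟨l, -, hl⟩ := isCompact_Icc.ultrafilter_le_nhds' _ h1
  exact ⟨l, hl⟩

theorem exists_WN (h : ¬ FiniteDimensional ℝ Q) : Nonempty (WN Q) := by
  obtain ⟨C, e, hC, he, hsep⟩ := exists_seq_norm_le_one_le_norm_sub (𝕜 := ℝ) h
  set V : Ultrafilter ℕ := hyperfilter ℕ with hV
  set μ : Ultrafilter Q := V.bind (fun a => V.map (fun b => e b - e a)) with hμ
  have ev : ∀ p : Q → Prop, (∀ᶠ x in (μ : Filter Q), p x) ↔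
      ∀ᶠ a in (V : Filter ℕ), ∀ᶠ b in (V : Filter ℕ), p (e b - e a) := fun p => Iff.rfl
  refine ⟨⟨μ, 2 * C, ?_, ?_, ?_⟩⟩
  · rw [ev]
    refine Eventually.of_forall fun a => Eventually.of_forall fun b => ?_
    calc ‖e b - e a‖ ≤ ‖e b‖ + ‖e a‖ := norm_sub_le _ _
      _ ≤ 2 * C := by linarith [he a, he b]
  · rw [ev]
    refine Eventually.of_forall fun a => ?_
    have : ∀ᶠ b in (V : Filter ℕ), b ≠ a := by
      have h1 : ∀ᶠ b in cofinite, b ≠ a := by
        rw [eventually_cofinite]
        simp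
      exact hyperfilter_le_cofinite h1
    filter_upwards [this] with b hb
    exact hsep hb
  · intro ψ
    obtain ⟨l, hl⟩ := exists_lim V (fun n => ψ (e n)) (‖ψ‖ * C) (Eventually.of_forall fun n => by
      have h1 := ψ.le_opNorm (e n)
      rw [Real.norm_eq_abs] at h1
      exact h1.trans (mul_le_mul_of_nonneg_left (he n) (norm_nonneg _)))
    rw [Metric.tendsto_nhds] at hl ⊢
    intro ε hε
    rw [ev]
    have h1 := hl (ε / 2) (by positivity)
    filter_upwards [h1] with a ha
    filter_upwards [h1] with b hb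
    rw [map_sub]
    rw [Real.dist_eq] at ha hb ⊢
    rw [sub_zero]
    have h2 : ψ (e b) - ψ (e a) = (ψ (e b) - l) - (ψ (e a) - l) := by ring
    rw [h2]
    have h3 := abs_sub (ψ (e b) - l) (ψ (e a) - l)
    linarith

variable (W : WN Q)

/-- the iterated product -/
def nu (W : WN Q) : ℕ → Ultrafilter (ℕ → Q)
  | 0 => pure fun _ => 0
  | k + 1 => W.μ.bind (fun h => (nu W k).map (cons h))

theorem ev_succ (k : ℕ) (p : (ℕ → Q) → Prop) : (∀ᶠ s in (nu W (k + 1) : Filter (ℕ → Q)), p s) ↔
    ∀ᶠ h in (W.μ : Filter Q), ∀ᶠ s in (nu W k : Filter (ℕ → Q)), p (cons h s) := Iff.rfl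

theorem ev_sh (k : ℕ) (p : (ℕ → Q) → Prop) :
    (∀ᶠ s in (nu W (k + 1) : Filter (ℕ → Q)), p (sh s)) ↔
      ∀ᶠ s in (nu W k : Filter (ℕ → Q)), p s := by
  rw [ev_succ]
  have : ∀ (h : Q) (s : ℕ → Q), sh (cons h s) = s := fun h s => rfl
  simp only [this]
  exact eventually_const

theorem ev_shift (k i : ℕ) (p : (ℕ → Q) → Prop) :
    (∀ᶠ s in (nu W (k + i) : Filter (ℕ → Q)), p (fun t => s (t + i))) ↔
      ∀ᶠ s in (nu W k : Filter (ℕ → Q)), p s := by
  induction i generalizing p with
  | zero => rfl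
  | succ i ih =>
    have h1 := ev_sh W (k + i) (fun s => p (fun t => s (t + i)))
    rw [ih] at h1
    rw [← h1]
    have : (fun s : ℕ → Q => p (fun t => s (t + (i + 1)))) =
        fun s => p (fun t => sh s (t + i)) := by
      funext s
      rfl
    rw [← add_assoc]
    show (∀ᶠ s in (nu W (k + i + 1) : Filter (ℕ → Q)), (fun s : ℕ → Q => p (fun t => s (t + (i + 1)))) s) ↔ _
    rw [this]

/-- the status of a property of the first `k` coordinates -/
theorem ev_tail (k : ℕ) (p : (ℕ → Q) → Prop) (hp : ∀ s s' : ℕ → Q, (∀ i < k, s i = s' i) → (p s ↔ p s')) :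
    (∀ᶠ s in (nu W (k + 1) : Filter (ℕ → Q)), p s) ↔
      ∀ᶠ s in (nu W k : Filter (ℕ → Q)), p s := by
  induction k generalizing p with
  | zero =>
    have : p = fun _ => p (fun _ => 0) := by
      funext s
      exact propext (hp s _ (fun i hi => absurd hi (Nat.not_lt_zero i)))
    rw [this]
    rw [eventually_const, eventually_const]
  | succ k ih =>
    rw [ev_succ, ev_succ W k]
    have h1 : ∀ h : Q, (∀ᶠ s in (nu W (k + 1) : Filter (ℕ → Q)), p (cons h s)) ↔
        ∀ᶠ s in (nu W k : Filter (ℕ → Q)), p (cons h s) := by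
      intro h
      refine ih (fun s => p (cons h s)) ?_
      intro s s' hs
      refine hp _ _ ?_
      intro i hi
      cases i with
      | zero => rfl
      | succ i => exact hs i (by omega)
    simp only [h1]

theorem ev_tail' {k K : ℕ} (hk : k ≤ K) (p : (ℕ → Q) → Prop)
    (hp : ∀ s s' : ℕ → Q, (∀ i < k, s i = s' i) → (p s ↔ p s')) :
    (∀ᶠ s in (nu W K : Filter (ℕ → Q)), p s) ↔
      ∀ᶠ s in (nu W k : Filter (ℕ → Q)), p s := by
  induction K, hk using Nat.le_induction with
  | base => rfl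
  | succ K hK ih =>
    rw [← ih]
    exact ev_tail W K p fun s s' hs => hp s s' fun i hi => hs i (by omega)

theorem ev_bdd (k : ℕ) : ∀ᶠ s in (nu W k : Filter (ℕ → Q)), ∀ t < k, ‖s t‖ ≤ W.R := by
  induction k with
  | zero => exact Eventually.of_forall fun s t ht => absurd ht (Nat.not_lt_zero t)
  | succ k ih =>
    rw [ev_succ]
    filter_upwards [W.bdd] with h hh
    filter_upwards [ih] with s hs t ht
    cases t with
    | zero => exact hh
    | succ t => exact hs t (by omega)

/-- the norm of a translated combination -/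
def TT (k : ℕ) (c : ℕ → ℝ) (x : Q) (s : ℕ → Q) : ℝ := ‖x + ∑ t ∈ range k, c t • s t‖

/-- its limit -/
noncomputable def NN (k : ℕ) (c : ℕ → ℝ) (x : Q) : ℝ :=
  limUnder (nu W k : Filter (ℕ → Q)) (TT k c x)

theorem tendsto_NN (k : ℕ) (c : ℕ → ℝ) (x : Q) :
    Tendsto (TT k c x) (nu W k : Filter (ℕ → Q)) (𝓝 (NN W k c x)) := by
  refine tendsto_nhds_limUnder (exists_lim (nu W k) _ (‖x‖ + ∑ t ∈ range k, |c t| * W.R) ?_)
  filter_upwards [ev_bdd W k] with s hs
  unfold TT
  rw [abs_of_nonneg (norm_nonneg _)]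
  refine (norm_add_le _ _).trans (add_le_add le_rfl ?_)
  refine (norm_sum_le _ _).trans (Finset.sum_le_sum fun t ht => ?_)
  rw [norm_smul, Real.norm_eq_abs]
  exact mul_le_mul_of_nonneg_left (hs t (Finset.mem_range.mp ht)) (abs_nonneg _)

theorem TT_cons (k : ℕ) (c : ℕ → ℝ) (x h : Q) (s : ℕ → Q) :
    TT (k + 1) c x (cons h s) = TT k (fun t => c (t + 1)) (x + c 0 • h) s := by
  unfold TT
  rw [Finset.sum_range_succ']
  congr 1
  rw [add_assoc, add_comm (c 0 • h)]
  rfl

/-- the recursion for the limits -/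
theorem tendsto_succ (k : ℕ) (c : ℕ → ℝ) (x : Q) :
    Tendsto (fun h => NN W k (fun t => c (t + 1)) (x + c 0 • h)) (W.μ : Filter Q)
      (𝓝 (NN W (k + 1) c x)) := by
  rw [Metric.tendsto_nhds]
  intro ε hε
  have h1 := (Metric.tendsto_nhds.mp (tendsto_NN W (k + 1) c x)) (ε / 2) (by positivity)
  rw [ev_succ] at h1
  filter_upwards [h1] with h hh
  have h2 := tendsto_NN W k (fun t => c (t + 1)) (x + c 0 • h)
  have h3 : Tendsto (fun s => dist (TT k (fun t => c (t + 1)) (x + c 0 • h) s)
      (NN W (k + 1) c x)) (nu W k : Filter (ℕ → Q))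
      (𝓝 (dist (NN W k (fun t => c (t + 1)) (x + c 0 • h)) (NN W (k + 1) c x))) :=
    h2.dist tendsto_const_nhds
  have h4 : dist (NN W k (fun t => c (t + 1)) (x + c 0 • h)) (NN W (k + 1) c x) ≤ ε / 2 := by
    refine le_of_tendsto h3 ?_
    filter_upwards [hh] with s hs
    rw [TT_cons] at hs
    exact hs.le
  linarith

theorem NN_lip (k : ℕ) (c : ℕ → ℝ) (x y : Q) : NN W k c x ≤ NN W k c y + ‖x - y‖ := by
  refine le_of_tendsto_of_tendsto (tendsto_NN W k c x)
    ((tendsto_NN W k c y).add tendsto_const_nhds) (Eventually.of_forall fun s => ?_)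
  show TT k c x s ≤ TT k c y s + ‖x - y‖
  unfold TT
  have : x + ∑ t ∈ range k, c t • s t = (y + ∑ t ∈ range k, c t • s t) + (x - y) := by abel
  rw [this]
  exact norm_add_le _ _

theorem NN_convex (k : ℕ) (c : ℕ → ℝ) (x y : Q) (a b : ℝ) (ha : 0 ≤ a) (hb : 0 ≤ b)
    (hab : a + b = 1) : NN W k c (a • x + b • y) ≤ a * NN W k c x + b * NN W k c y := by
  refine le_of_tendsto_of_tendsto (tendsto_NN W k c _)
    (((tendsto_NN W k c x).const_mul a).add ((tendsto_NN W k c y).const_mul b))
    (Eventually.of_forall fun s => ?_)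
  show TT k c (a • x + b • y) s ≤ a * TT k c x s + b * TT k c y s
  unfold TT
  set S := ∑ t ∈ range k, c t • s t
  have : a • x + b • y + S = a • (x + S) + b • (y + S) := by
    rw [smul_add, smul_add]
    have : S = a • S + b • S := by rw [← add_smul, hab, one_smul]
    nth_rewrite 1 [this]
    abel
  rw [this]
  refine (norm_add_le _ _).trans (le_of_eq ?_)
  rw [norm_smul, norm_smul, Real.norm_of_nonneg ha, Real.norm_of_nonneg hb]

theorem NN_cont (k : ℕ) (c : ℕ → ℝ) : Continuous (NN W k c) := by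
  refine LipschitzWith.continuous (K := 1) (LipschitzWith.of_le_add fun x y => ?_)
  rw [dist_eq_norm]
  exact NN_lip W k c x y

/-- suppression of the outermost variable -/
theorem suppress (k : ℕ) (c : ℕ → ℝ) (x : Q) :
    NN W k (fun t => c (t + 1)) x ≤ NN W (k + 1) c x := by
  by_contra hlt
  push Not at hlt
  obtain ⟨l, hl1, hl2⟩ := exists_between hlt
  set A : Set Q := {h | NN W k (fun t => c (t + 1)) (x + h) ≤ l} with hA
  have hAc : IsClosed A := by
    refine isClosed_le ((NN_cont W k _).comp (continuous_const.add continuous_id))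
      continuous_const
  have hAv : Convex ℝ A := by
    intro u hu v hv a b ha hb hab
    simp only [hA, Set.mem_ofPred_eq] at hu hv ⊢
    have e1 : x + (a • u + b • v) = a • (x + u) + b • (x + v) := by
      rw [smul_add, smul_add]
      have : x = a • x + b • x := by rw [← add_smul, hab, one_smul]
      nth_rewrite 1 [this]
      abel
    rw [e1]
    refine (NN_convex W k _ _ _ a b ha hb hab).trans ?_
    calc a * NN W k (fun t => c (t + 1)) (x + u) + b * NN W k (fun t => c (t + 1)) (x + v)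
        ≤ a * l + b * l := add_le_add (mul_le_mul_of_nonneg_left hu ha)
          (mul_le_mul_of_nonneg_left hv hb)
      _ = l := by rw [← add_mul, hab, one_mul]
  have h0 : (0 : Q) ∉ A := by
    simp only [hA, Set.mem_ofPred_eq, add_zero, not_le]
    exact hl2
  obtain ⟨ψ, u, hψ, hu⟩ := geometric_hahn_banach_closed_point hAv hAc h0
  rw [map_zero] at hu
  have h1 : ∀ᶠ h in (W.μ : Filter Q), c 0 • h ∈ A := by
    have := (tendsto_succ W k c x).eventually_lt_const hl1
    filter_upwards [this] with h hh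
    exact hh.le
  have h2 : ∀ᶠ h in (W.μ : Filter Q), u < ψ (c 0 • h) := by
    have h3 : Tendsto (fun h => c 0 * ψ h) (W.μ : Filter Q) (𝓝 (c 0 * 0)) :=
      (W.null ψ).const_mul _
    rw [mul_zero] at h3
    filter_upwards [h3.eventually_const_lt hu] with h hh
    rw [map_smul, smul_eq_mul]
    exact hh
  obtain ⟨h, hh1, hh2⟩ := (h1.and h2).exists
  exact absurd (hψ _ hh1) (not_lt.mpr hh2.le)

/-- comparison of coefficients -/
theorem compare (k : ℕ) (c θ : ℕ → ℝ) (x : Q) (h0 : ∀ t, 0 ≤ θ t) (h1 : ∀ t, θ t ≤ 1) :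
    NN W k (fun t => θ t * c t) x ≤ NN W k c x := by
  induction k generalizing c θ x with
  | zero =>
    refine le_of_tendsto_of_tendsto (tendsto_NN W 0 _ x) (tendsto_NN W 0 c x)
      (Eventually.of_forall fun s => ?_)
    simp [TT]
  | succ k ih =>
    have h2 : NN W (k + 1) (fun t => θ t * c t) x ≤
        θ 0 * NN W (k + 1) c x + (1 - θ 0) * NN W k (fun t => c (t + 1)) x := by
      refine le_of_tendsto_of_tendsto (tendsto_succ W k _ x)
        (((tendsto_succ W k c x).const_mul (θ 0)).add tendsto_const_nhds)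
        (Eventually.of_forall fun h => ?_)
      show NN W k (fun t => θ (t + 1) * c (t + 1)) (x + (θ 0 * c 0) • h) ≤
        θ 0 * NN W k (fun t => c (t + 1)) (x + c 0 • h) +
          (1 - θ 0) * NN W k (fun t => c (t + 1)) x
      refine (ih (fun t => c (t + 1)) (fun t => θ (t + 1)) _ (fun t => h0 _)
        (fun t => h1 _)).trans ?_
      have e1 : x + (θ 0 * c 0) • h = θ 0 • (x + c 0 • h) + (1 - θ 0) • x := by
        rw [smul_add, smul_smul, sub_smul, one_smul]
        abel
      rw [e1]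
      exact NN_convex W k _ _ _ _ _ (h0 0) (by linarith [h1 0]) (by ring)
    have h3 := suppress W k c x
    have h4 := mul_le_mul_of_nonneg_left h3 (by linarith [h1 0] : 0 ≤ 1 - θ 0)
    linarith

/-- the limit of a function of the first `k` coordinates -/
theorem tendsto_tail {k K : ℕ} (hk : k ≤ K) (g : (ℕ → Q) → ℝ) (l : ℝ)
    (hg : ∀ s s' : ℕ → Q, (∀ i < k, s i = s' i) → g s = g s')
    (h : Tendsto g (nu W k : Filter (ℕ → Q)) (𝓝 l)) :
    Tendsto g (nu W K : Filter (ℕ → Q)) (𝓝 l) := by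
  rw [Metric.tendsto_nhds] at h ⊢
  intro ε hε
  rw [ev_tail' W hk (fun s => dist (g s) l < ε) (fun s s' hs => by rw [hg s s' hs])]
  exact h ε hε

/-- the limit of a shifted function -/
theorem tendsto_shift (k i : ℕ) (g : (ℕ → Q) → ℝ) (l : ℝ)
    (h : Tendsto g (nu W k : Filter (ℕ → Q)) (𝓝 l)) :
    Tendsto (fun s => g (fun t => s (t + i))) (nu W (k + i) : Filter (ℕ → Q)) (𝓝 l) := by
  rw [Metric.tendsto_nhds] at h ⊢
  intro ε hε
  exact (ev_shift W k i (fun s => dist (g s) l < ε)).mpr (h ε hε)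

theorem tendsto_shift_tail {k i K : ℕ} (hK : k + i ≤ K) (g : (ℕ → Q) → ℝ) (l : ℝ)
    (hg : ∀ s s' : ℕ → Q, (∀ i < k, s i = s' i) → g s = g s')
    (h : Tendsto g (nu W k : Filter (ℕ → Q)) (𝓝 l)) :
    Tendsto (fun s => g (fun t => s (t + i))) (nu W K : Filter (ℕ → Q)) (𝓝 l) := by
  refine tendsto_tail W hK _ l ?_ (tendsto_shift W k i g l h)
  intro s s' hs
  exact hg _ _ fun t ht => hs _ (by omega)

theorem TT_local (k : ℕ) (c : ℕ → ℝ) (x : Q) (s s' : ℕ → Q) (h : ∀ i < k, s i = s' i) :
    TT k c x s = TT k c x s' := by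
  unfold TT
  congr 2
  refine Finset.sum_congr rfl fun t ht => ?_
  rw [h t (Finset.mem_range.mp ht)]

/-! ### the tent function -/

/-- the tent -/
noncomputable def al (r : ℕ) (t : ℕ) : ℝ := ((min t (2 * r - t) : ℕ) : ℝ) / r

/-- the limit of the norms of the sums of `r` vectors -/
noncomputable def MM (r : ℕ) : ℝ := NN W r (fun _ => 1) 0

/-- the limit of the norms of the tent sums -/
noncomputable def nr (r : ℕ) : ℝ := NN W (2 * r) (al r) 0

theorem one_le_MM (r : ℕ) (hr : 1 ≤ r) : 1 ≤ MM W r := by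
  have h1 := compare W r (fun _ => 1) (fun t => if t = 0 then 1 else 0) 0
    (fun t => by split_ifs <;> norm_num) (fun t => by split_ifs <;> norm_num)
  refine le_trans ?_ h1
  refine ge_of_tendsto (tendsto_NN W r _ 0) ?_
  obtain ⟨k, rfl⟩ : ∃ k, r = k + 1 := ⟨r - 1, by omega⟩
  rw [ev_succ]
  filter_upwards [W.big] with h hh
  refine Eventually.of_forall fun s => ?_
  unfold TT
  rw [Finset.sum_eq_single 0]
  · simpa [cons] using hh
  · intro t _ ht
    simp [ht]
  · intro h0
    simp at h0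

theorem half_MM_le (r : ℕ) (hr : 1 ≤ r) : MM W r / 2 ≤ nr W r := by
  set j := (r + 1) / 2 with hj
  have hjr : j + r ≤ 2 * r := by omega
  have hr0 : (0 : ℝ) < r := by exact_mod_cast hr
  have h1 := compare W (2 * r) (al r)
    (fun t => if j ≤ t ∧ t < j + r then (1 / 2) / al r t else 0) 0
    (fun t => by
      have : 0 ≤ al r t := by unfold al; positivity
      split_ifs
      · positivity
      · exact le_rfl)
    (fun t => by
      split_ifs with h
      · have h2 : r ≤ 2 * min t (2 * r - t) := by omega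
        have h3 : (1 : ℝ) / 2 ≤ al r t := by
          unfold al
          rw [div_le_div_iff₀ (by norm_num) hr0]
          have : (r : ℝ) ≤ 2 * ((min t (2 * r - t) : ℕ) : ℝ) := by exact_mod_cast h2
          linarith
        rw [div_le_one (by linarith)]
        exact h3
      · norm_num)
  refine le_trans (le_of_eq ?_) h1
  refine tendsto_nhds_unique ?_ (tendsto_NN W (2 * r) _ 0)
  have h4 : Tendsto (fun s : ℕ → Q => TT r (fun _ => (1 : ℝ)) (0 : Q) (fun t => s (t + j)) / 2)
      (nu W (2 * r) : Filter (ℕ → Q)) (𝓝 (MM W r / 2)) := by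
    refine Tendsto.div_const ?_ 2
    exact tendsto_shift_tail W (by omega) _ _ (TT_local r _ 0) (tendsto_NN W r _ 0)
  refine h4.congr fun s => ?_
  unfold TT
  have e1 : 2 * r = j + (r + (2 * r - (j + r))) := by omega
  rw [e1, Finset.sum_range_add, Finset.sum_range_add]
  have e2 : ∑ t ∈ range j, ((if j ≤ t ∧ t < j + r then (1 / 2) / al r t else 0) * al r t) • s t
      = 0 := by
    refine Finset.sum_eq_zero fun t ht => ?_
    rw [if_neg (by rw [Finset.mem_range] at ht; omega), zero_mul, zero_smul]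
  have e3 : ∑ t ∈ range (2 * r - (j + r)),
      ((if j ≤ j + (r + t) ∧ j + (r + t) < j + r then (1 / 2) / al r (j + (r + t)) else 0) *
        al r (j + (r + t))) • s (j + (r + t)) = 0 := by
    refine Finset.sum_eq_zero fun t ht => ?_
    rw [if_neg (by omega), zero_mul, zero_smul]
  have e4 : ∑ t ∈ range r,
      ((if j ≤ j + t ∧ j + t < j + r then (1 / 2) / al r (j + t) else 0) *
        al r (j + t)) • s (j + t) = (1 / 2 : ℝ) • ∑ t ∈ range r, (1 : ℝ) • s (t + j) := by
    rw [Finset.smul_sum]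
    refine Finset.sum_congr rfl fun t ht => ?_
    rw [Finset.mem_range] at ht
    rw [if_pos (by omega)]
    have h3 : al r (j + t) ≠ 0 := by
      unfold al
      have : 0 < min (j + t) (2 * r - (j + t)) := by omega
      have : (0 : ℝ) < ((min (j + t) (2 * r - (j + t)) : ℕ) : ℝ) := by exact_mod_cast this
      positivity
    rw [div_mul_cancel₀ _ h3, one_smul, add_comm j t]
  beta_reduce
  rw [e2, e3, e4]
  simp only [zero_add, add_zero]
  rw [norm_smul, Real.norm_of_nonneg (by norm_num : (0 : ℝ) ≤ 1 / 2)]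
  ring

/-- the tent sum -/
noncomputable def tent (r : ℕ) (s : ℕ → Q) : Q := ∑ t ∈ range (2 * r), al r t • s t

theorem al_low (r t : ℕ) (ht : t ≤ r) : al r t = t / r := by
  unfold al
  rw [min_eq_left (by omega)]

theorem al_high (r t : ℕ) (ht : t ≤ r) : al r (r + t) = ((r : ℝ) - t) / r := by
  unfold al
  rw [min_eq_right (by omega)]
  have : 2 * r - (r + t) = r - t := by omega
  rw [this, Nat.cast_sub ht]

theorem abel1 (m : ℕ) (s : ℕ → Q) : ∑ t ∈ range m, (t : ℝ) • (s (t + 1) - s t) =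
    (m : ℝ) • s m - ∑ t ∈ range m, s (t + 1) := by
  induction m with
  | zero => simp
  | succ m ih =>
    rw [Finset.sum_range_succ, Finset.sum_range_succ, ih]
    push_cast
    rw [add_smul, one_smul, smul_sub]
    abel

theorem abel2 (m : ℕ) (u : ℕ → Q) : ∑ t ∈ range m, ((m : ℝ) - t) • (u (t + 1) - u t) =
    ∑ t ∈ range m, u (t + 1) - (m : ℝ) • u 0 := by
  induction m with
  | zero => simp
  | succ m ih =>
    have h1 : ∑ t ∈ range m, (((m + 1 : ℕ) : ℝ) - t) • (u (t + 1) - u t) =
        ∑ t ∈ range m, ((m : ℝ) - t) • (u (t + 1) - u t) + (u m - u 0) := by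
      rw [← Finset.sum_range_sub u m, ← Finset.sum_add_distrib]
      refine Finset.sum_congr rfl fun t _ => ?_
      push_cast
      rw [show (m : ℝ) + 1 - t = ((m : ℝ) - t) + 1 by ring, add_smul, one_smul]
    rw [Finset.sum_range_succ, Finset.sum_range_succ, h1, ih]
    push_cast
    rw [show (m : ℝ) + 1 - m = 1 by ring, one_smul, add_smul, one_smul]
    abel

theorem tent_diff (r : ℕ) (hr : 1 ≤ r) (s : ℕ → Q) :
    tent r (fun t => s (t + 1)) - tent r s =
      (1 / (r : ℝ)) • (∑ t ∈ range r, s (t + (r + 1)) - ∑ t ∈ range r, s (t + 1)) := by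
  have hr0 : (r : ℝ) ≠ 0 := by
    have : 0 < r := hr
    exact_mod_cast this.ne'
  unfold tent
  rw [← Finset.sum_sub_distrib, two_mul, Finset.sum_range_add]
  have e1 : ∑ t ∈ range r, (al r t • s (t + 1) - al r t • s t) =
      (1 / (r : ℝ)) • ∑ t ∈ range r, (t : ℝ) • (s (t + 1) - s t) := by
    rw [Finset.smul_sum]
    refine Finset.sum_congr rfl fun t ht => ?_
    rw [al_low r t (Finset.mem_range.mp ht).le, ← smul_sub, smul_smul]
    congr 1
    ring
  have e2 : ∑ t ∈ range r, (al r (r + t) • s (r + t + 1) - al r (r + t) • s (r + t)) =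
      (1 / (r : ℝ)) • ∑ t ∈ range r, ((r : ℝ) - t) •
        ((fun t => s (r + t)) (t + 1) - (fun t => s (r + t)) t) := by
    rw [Finset.smul_sum]
    refine Finset.sum_congr rfl fun t ht => ?_
    rw [al_high r t (Finset.mem_range.mp ht).le, ← smul_sub, smul_smul]
    congr 1
    ring
  rw [e1, e2, abel1, abel2 r (fun t => s (r + t)), ← smul_add]
  congr 1
  have e3 : ∀ t, s (r + (t + 1)) = s (t + (r + 1)) := fun t => by congr 1; ring
  simp only [e3, add_zero]
  abel

theorem norm_tent (r : ℕ) (s : ℕ → Q) : ‖tent r s‖ = TT (2 * r) (al r) 0 s := by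
  unfold TT tent
  rw [zero_add]

theorem tent_local (r : ℕ) (s s' : ℕ → Q) (h : ∀ i < 2 * r, s i = s' i) :
    tent r s = tent r s' := by
  unfold tent
  refine Finset.sum_congr rfl fun t ht => ?_
  rw [h t (Finset.mem_range.mp ht)]

/-- the three estimates -/
theorem three (r : ℕ) (hr : 1 ≤ r) (κ : ℝ) (hκ : 0 < κ) (K : ℕ) (hK : 4 * r + 1 ≤ K) :
    ∀ᶠ s in (nu W K : Filter (ℕ → Q)),
      ‖(1 / nr W r) • tent r s‖ ≤ 1 + κ ∧
      ‖(1 / nr W r) • tent r (fun t => s (t + 1)) - (1 / nr W r) • tent r s‖ ≤ 4 / r + κ ∧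
      1 - κ ≤ ‖(1 / nr W r) • tent r s - (1 / nr W r) • tent r (fun t => s (t + 2 * r))‖ := by
  have hM := one_le_MM W r hr
  have hN := half_MM_le W r hr
  have hr0 : (0 : ℝ) < r := by exact_mod_cast hr
  have hn0 : 0 < nr W r := by linarith
  have hnn : ‖(1 / nr W r)‖ = 1 / nr W r := Real.norm_of_nonneg (by positivity)
  -- first
  have t1 : Tendsto (fun s : ℕ → Q => ‖(1 / nr W r) • tent r s‖) (nu W K : Filter (ℕ → Q))
      (𝓝 1) := by
    have h1 : Tendsto (TT (2 * r) (al r) (0 : Q)) (nu W K : Filter (ℕ → Q)) (𝓝 (nr W r)) :=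
      tendsto_tail W (by omega) _ _ (TT_local _ _ 0) (tendsto_NN W (2 * r) (al r) 0)
    have h2 := h1.const_mul (1 / nr W r)
    rw [one_div_mul_cancel hn0.ne'] at h2
    refine h2.congr fun s => ?_
    rw [norm_smul, hnn, norm_tent]
  -- second
  have t2 : ∀ᶠ s in (nu W K : Filter (ℕ → Q)),
      ‖(1 / nr W r) • tent r (fun t => s (t + 1)) - (1 / nr W r) • tent r s‖ ≤ 4 / r + κ := by
    have h1 : ∀ i, i ≤ 2 * r → Tendsto (fun s : ℕ → Q => TT r (fun _ => (1 : ℝ)) (0 : Q)
        (fun t => s (t + i))) (nu W K : Filter (ℕ → Q)) (𝓝 (MM W r)) := fun i hi =>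
      tendsto_shift_tail W (by omega) _ _ (TT_local r _ 0) (tendsto_NN W r _ 0)
    have h2 := ((h1 (r + 1) (by omega)).add (h1 1 (by omega))).const_mul (1 / nr W r * (1 / r))
    have h3 : 1 / nr W r * (1 / (r : ℝ)) * (MM W r + MM W r) < 4 / r + κ := by
      have h4 : MM W r + MM W r ≤ 4 * nr W r := by linarith
      have h5 : 1 / nr W r * (1 / (r : ℝ)) * (MM W r + MM W r) ≤
          1 / nr W r * (1 / (r : ℝ)) * (4 * nr W r) :=
        mul_le_mul_of_nonneg_left h4 (by positivity)
      have h6 : 1 / nr W r * (1 / (r : ℝ)) * (4 * nr W r) = 4 / r := by field_simp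
      linarith
    filter_upwards [h2.eventually_lt_const h3] with s hs
    refine le_trans ?_ hs.le
    rw [← smul_sub, tent_diff r hr, smul_smul, norm_smul, norm_mul, hnn,
      Real.norm_of_nonneg (by positivity : 0 ≤ 1 / (r : ℝ))]
    refine mul_le_mul_of_nonneg_left ?_ (by positivity)
    refine (norm_sub_le _ _).trans (le_of_eq ?_)
    unfold TT
    simp
  -- third
  have t3 : ∀ᶠ s in (nu W K : Filter (ℕ → Q)),
      1 - κ ≤ ‖(1 / nr W r) • tent r s - (1 / nr W r) • tent r (fun t => s (t + 2 * r))‖ := by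
    set γ : ℕ → ℝ := fun t => if t < 2 * r then al r t else - al r (t - 2 * r) with hγ
    have h1 : nr W r ≤ NN W (4 * r) γ 0 := by
      have h2 := compare W (4 * r) γ (fun t => if t < 2 * r then 1 else 0) 0
        (fun t => by split_ifs <;> norm_num) (fun t => by split_ifs <;> norm_num)
      refine le_trans (le_of_eq ?_) h2
      refine tendsto_nhds_unique ?_ (tendsto_NN W (4 * r) _ 0)
      have h3 : Tendsto (TT (2 * r) (al r) (0 : Q)) (nu W (4 * r) : Filter (ℕ → Q))
          (𝓝 (nr W r)) :=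
        tendsto_tail W (by omega) _ _ (TT_local _ _ 0) (tendsto_NN W (2 * r) (al r) 0)
      refine h3.congr fun s => ?_
      unfold TT
      rw [show 4 * r = 2 * r + 2 * r by ring, Finset.sum_range_add]
      have e1 : ∑ t ∈ range (2 * r), ((if 2 * r + t < 2 * r then (1 : ℝ) else 0) *
          γ (2 * r + t)) • s (2 * r + t) = 0 := by
        refine Finset.sum_eq_zero fun t _ => ?_
        rw [if_neg (by omega), zero_mul, zero_smul]
      have e2 : ∑ t ∈ range (2 * r), ((if t < 2 * r then (1 : ℝ) else 0) * γ t) • s t =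
          ∑ t ∈ range (2 * r), al r t • s t := by
        refine Finset.sum_congr rfl fun t ht => ?_
        rw [Finset.mem_range] at ht
        simp only [hγ]
        rw [if_pos ht, if_pos ht, one_mul]
      rw [e1, e2, add_zero]
    have h4 : Tendsto (TT (4 * r) γ (0 : Q)) (nu W K : Filter (ℕ → Q))
        (𝓝 (NN W (4 * r) γ 0)) :=
      tendsto_tail W (by omega) _ _ (TT_local _ _ 0) (tendsto_NN W (4 * r) γ 0)
    have h5 := h4.const_mul (1 / nr W r)
    have h6 : 1 - κ < 1 / nr W r * NN W (4 * r) γ 0 := by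
      have : 1 / nr W r * nr W r ≤ 1 / nr W r * NN W (4 * r) γ 0 :=
        mul_le_mul_of_nonneg_left h1 (by positivity)
      rw [one_div_mul_cancel hn0.ne'] at this
      linarith
    filter_upwards [h5.eventually_const_lt h6] with s hs
    refine hs.le.trans (le_of_eq ?_)
    rw [← smul_sub, norm_smul, hnn]
    congr 1
    unfold TT tent
    rw [show 4 * r = 2 * r + 2 * r by ring, Finset.sum_range_add, zero_add]
    congr 1
    rw [sub_eq_add_neg]
    congr 1
    · refine Finset.sum_congr rfl fun t ht => ?_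
      rw [Finset.mem_range] at ht
      simp only [hγ]
      rw [if_pos ht]
    · rw [← Finset.sum_neg_distrib]
      refine Finset.sum_congr rfl fun t ht => ?_
      simp only [hγ]
      rw [if_neg (by omega), neg_smul, Nat.add_sub_cancel_left, add_comm (2 * r) t]
  filter_upwards [t1.eventually_lt_const (by linarith : (1 : ℝ) < 1 + κ), t2, t3] with s h1 h2 h3
  exact ⟨h1.le, h2, h3⟩

theorem main : Pool.Agent.W696.QR.S_seq := by
  intro Q _ _ hQ r n hr κ hκ
  obtain ⟨W⟩ := exists_WN hQ
  set g : (ℕ → Q) → (ℕ → Q) := fun s i => (1 / nr W r) • tent r (fun t => s (t + i)) with hg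
  refine ⟨(nu W (n + 4 * r + 1)).map g, ?_, ?_⟩
  · show ∀ᶠ s in (nu W (n + 4 * r + 1) : Filter (ℕ → Q)), ∀ i ≤ n, _
    have : ∀ᶠ s in (nu W (n + 4 * r + 1) : Filter (ℕ → Q)), ∀ i ∈ Set.Iic n,
        ‖g s i‖ ≤ 1 + κ ∧ ‖g s (i + 1) - g s i‖ ≤ 4 / r + κ ∧
          1 - κ ≤ ‖g s i - g s (i + 2 * r)‖ := by
      rw [Filter.eventually_all_finite (Set.finite_Iic n)]
      intro i hi
      have hi' : i ≤ n := hi
      have h1 := three W r hr κ hκ (n + 4 * r + 1 - i) (by omega)
      have h2 := (ev_shift W (n + 4 * r + 1 - i) i _).mpr h1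
      rw [show n + 4 * r + 1 - i + i = n + 4 * r + 1 by omega] at h2
      filter_upwards [h2] with s hs
      refine ⟨hs.1, ?_, ?_⟩
      · have e1 : g s (i + 1) = (1 / nr W r) • tent r (fun t => s (t + 1 + i)) := by
          simp only [hg]
          congr 2
          funext t
          congr 1
          ring
        rw [e1]
        exact hs.2.1
      · have e1 : g s (i + 2 * r) = (1 / nr W r) • tent r (fun t => s (t + 2 * r + i)) := by
          simp only [hg]
          congr 2
          funext t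
          congr 1
          ring
        rw [e1]
        exact hs.2.2
    filter_upwards [this] with s hs i hi
    exact hs i hi
  · intro S hS
    show (∀ᶠ s in (nu W (n + 4 * r + 1) : Filter (ℕ → Q)), g s ∈ S) ↔
      ∀ᶠ s in (nu W (n + 4 * r + 1) : Filter (ℕ → Q)), (fun i => g s (i + 1)) ∈ S
    have e1 : ∀ s : ℕ → Q, (fun i => g s (i + 1)) = g (sh s) := by
      intro s
      funext i
      simp only [hg, sh]
      congr 2
    simp only [e1]
    rw [ev_sh W (n + 4 * r) (fun s => g s ∈ S)]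
    refine ev_tail W (n + 4 * r) (fun s => g s ∈ S) ?_
    have h1 : ∀ s s' : ℕ → Q, (∀ i < n + 4 * r, s i = s' i) → g s ∈ S → g s' ∈ S := by
      intro s s' hs
      refine hS _ _ fun i hi => ?_
      simp only [hg]
      congr 1
      refine tent_local r _ _ fun t ht => hs _ (by omega)
    intro s s' hs
    exact ⟨h1 s s' hs, h1 s' s fun i hi => (hs i hi).symm⟩

end Pool.Agent.W641.QRS
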