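import Pool.Agent.W227.FL.Basic

/-!
# First-order formulas are determined by rank types
-/

set_option autoImplicit false

namespace Pool.Agent.W641.FLF

open FirstOrder Pool.Agent.W227.FL

/-- quantifier rank -/
def qr {L : FirstOrder.Language.{0, 0}} {α : Type} : {n : ℕ} → L.BoundedFormula α n → ℕ
  | _, .falsum => 0
  | _, .equal _ _ => 0
  | _, .rel _ _ => 0
  | _, .imp φ ψ => max (qr φ) (qr ψ)
  | _, .all φ => qr φ + 1

theorem realize_iff (L : FirstOrder.Language.{0, 0}) (lt : L.Relations 2) (col : L.Relations 1)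
    (hF : ∀ n, IsEmpty (L.Functions n))
    (h2 : ∀ r : L.Relations 2, r = lt)
    (h1 : ∀ r : L.Relations 1, r = col)
    (h0 : ∀ n, n ≠ 1 → n ≠ 2 → IsEmpty (L.Relations n))
    {A B : Type} [LinearOrder A] [LinearOrder B] [L.Structure A] [L.Structure B]
    (cA : A → Bool) (cB : B → Bool)
    (hA : ∀ x y : A, FirstOrder.Language.Structure.RelMap lt ![x, y] ↔ x < y)
    (hA' : ∀ x : A, FirstOrder.Language.Structure.RelMap col ![x] ↔ cA x = true)
    (hB : ∀ x y : B, FirstOrder.Language.Structure.RelMap lt ![x, y] ↔ x < y)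
    (hB' : ∀ x : B, FirstOrder.Language.Structure.RelMap col ![x] ↔ cB x = true)
    {α : Type} (v : α → A) (w : α → B) :
    ∀ {n : ℕ} (φ : L.BoundedFormula α n) (xs : Fin n → A) (ys : Fin n → B) (R : Set (A × B)),
      (∀ i, (v i, w i) ∈ R) → (∀ j, (xs j, ys j) ∈ R) → E cA cB (qr φ) R →
      (φ.Realize v xs ↔ φ.Realize w ys) := by
  intro n φ
  have hterm : ∀ {n : ℕ} (t : L.Term (α ⊕ Fin n)) (xs : Fin n → A) (ys : Fin n → B)
      (R : Set (A × B)), (∀ i, (v i, w i) ∈ R) → (∀ j, (xs j, ys j) ∈ R) →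
      (t.realize (Sum.elim v xs), t.realize (Sum.elim w ys)) ∈ R := by
    intro n t xs ys R hv hx
    cases t with
    | var i =>
      rcases i with i | j
      · exact hv i
      · exact hx j
    | func f ts => exact ((hF _).false f).elim
  induction φ with
  | falsum => intro xs ys R _ _ _; exact Iff.rfl
  | equal t₁ t₂ =>
    intro xs ys R hv hx hE
    have e1 := hterm t₁ xs ys R hv hx
    have e2 := hterm t₂ xs ys R hv hx
    show t₁.realize (Sum.elim v xs) = t₂.realize (Sum.elim v xs) ↔
      t₁.realize (Sum.elim w ys) = t₂.realize (Sum.elim w ys)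
    exact hE.eq_iff e1 e2
  | @rel n l r ts =>
    intro xs ys R hv hx hE
    have e := fun i => hterm (ts i) xs ys R hv hx
    show FirstOrder.Language.Structure.RelMap r (fun i => (ts i).realize (Sum.elim v xs)) ↔
      FirstOrder.Language.Structure.RelMap r (fun i => (ts i).realize (Sum.elim w ys))
    by_cases hl1 : l = 1
    · subst hl1
      rw [h1 r]
      have a1 : (fun i => (ts i).realize (Sum.elim v xs)) = ![(ts 0).realize (Sum.elim v xs)] := by
        funext i; fin_cases i; rfl
      have a2 : (fun i => (ts i).realize (Sum.elim w ys)) = ![(ts 0).realize (Sum.elim w ys)] := by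
        funext i; fin_cases i; rfl
      rw [a1, a2, hA', hB', hE.col (e 0)]
    · by_cases hl2 : l = 2
      · subst hl2
        rw [h2 r]
        have a1 : (fun i => (ts i).realize (Sum.elim v xs)) =
            ![(ts 0).realize (Sum.elim v xs), (ts 1).realize (Sum.elim v xs)] := by
          funext i; fin_cases i <;> rfl
        have a2 : (fun i => (ts i).realize (Sum.elim w ys)) =
            ![(ts 0).realize (Sum.elim w ys), (ts 1).realize (Sum.elim w ys)] := by
          funext i; fin_cases i <;> rfl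
        rw [a1, a2, hA, hB]
        exact hE.lt_iff (e 0) (e 1)
      · exact ((h0 l hl1 hl2).false r).elim
  | imp φ ψ ih1 ih2 =>
    intro xs ys R hv hx hE
    have k1 := ih1 xs ys R hv hx (hE.anti (le_max_left _ _))
    have k2 := ih2 xs ys R hv hx (hE.anti (le_max_right _ _))
    show (φ.Realize v xs → ψ.Realize v xs) ↔ (φ.Realize w ys → ψ.Realize w ys)
    rw [k1, k2]
  | all φ ih =>
    intro xs ys R hv hx hE
    have key : ∀ (a : A) (b : B), E cA cB (qr φ) (insert (a, b) R) →
        (φ.Realize v (Fin.snoc xs a) ↔ φ.Realize w (Fin.snoc ys b)) := by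
      intro a b hab
      refine ih _ _ _ (fun i => Set.mem_insert_of_mem _ (hv i)) (fun j => ?_) hab
      refine Fin.lastCases ?_ (fun j => ?_) j
      · simp
      · simp only [Fin.snoc_castSucc]
        exact Set.mem_insert_of_mem _ (hx j)
    show (∀ a : A, φ.Realize v (Fin.snoc xs a)) ↔ (∀ b : B, φ.Realize w (Fin.snoc ys b))
    constructor
    · intro h b
      obtain ⟨a, ha⟩ := hE.back b
      exact (key a b ha).mp (h a)
    · intro h a
      obtain ⟨b, hb⟩ := hE.forth a
      exact (key a b hb).mpr (h b)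

theorem formula_types (L : FirstOrder.Language.{0, 0}) (lt : L.Relations 2) (col : L.Relations 1)
    (hF : ∀ n, IsEmpty (L.Functions n))
    (h2 : ∀ r : L.Relations 2, r = lt)
    (h1 : ∀ r : L.Relations 1, r = col)
    (h0 : ∀ n, n ≠ 1 → n ≠ 2 → IsEmpty (L.Relations n))
    {p : ℕ} (φ : L.Formula (Fin p)) :
    ∃ (q : ℕ) (Φ : Set (RT q p)), ∀ (A : Type) [LinearOrder A] [L.Structure A] (c : A → Bool),
      (∀ x y : A, FirstOrder.Language.Structure.RelMap lt ![x, y] ↔ x < y) →
      (∀ x : A, FirstOrder.Language.Structure.RelMap col ![x] ↔ c x = true) →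
      ∀ v : Fin p → A, φ.Realize v ↔ rt c q v ∈ Φ := by
  refine ⟨qr φ, {ρ | ∃ (B : Type) (_ : LinearOrder B) (_ : L.Structure B) (c : B → Bool)
    (w : Fin p → B), (∀ x y : B, FirstOrder.Language.Structure.RelMap lt ![x, y] ↔ x < y) ∧
      (∀ x : B, FirstOrder.Language.Structure.RelMap col ![x] ↔ c x = true) ∧
      rt c (qr φ) w = ρ ∧ φ.Realize w}, ?_⟩
  intro A _ _ c hA hA' v
  constructor
  · intro h
    exact ⟨A, inferInstance, inferInstance, c, v, hA, hA', rfl, h⟩
  · rintro ⟨B, iB, sB, cB, w, hB, hB', he, h⟩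
    have hE := rt_eq_iff.mp he
    have := realize_iff L lt col hF h2 h1 h0 cB c hB hB' hA hA' w v φ
      (default : Fin 0 → B) (default : Fin 0 → A) (Set.range fun i => (w i, v i))
      (fun i => ⟨i, rfl⟩) (fun j => j.elim0) hE
    exact this.mp h

end Pool.Agent.W641.FLF
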