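import Mathlib

open Set Filter Topology

set_option autoImplicit false

namespace Pool.Agent.W641

/-- A bounded set of points realises limits of countably many coordinates. -/
theorem bounded_realize {P : Type*} [TopologicalSpace P] (B : Set P)
    (hB : ∀ f : P → ℝ, Continuous f → ∃ C : ℝ, ∀ x ∈ B, |f x| ≤ C)
    (ψ : ℕ → P → ℝ) (hψ : ∀ i, Continuous (ψ i)) (b : ℕ → P) (hb : ∀ n, b n ∈ B) (c : ℕ → ℝ)
    (hlim : ∀ i, Tendsto (fun n => ψ i (b n)) atTop (𝓝 (c i))) :
    ∃ p, ∀ i, ψ i p = c i := by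
  by_contra hcon
  push Not at hcon
  let τ : ℕ → P → ℝ := fun i p => (1 / 2 : ℝ) ^ i * min 1 |ψ i p - c i|
  have hsum : Summable fun i : ℕ => (1 / 2 : ℝ) ^ i := summable_geometric_two
  have hτ0 : ∀ i p, 0 ≤ τ i p := fun i p => by positivity
  have hτle : ∀ i p, ‖τ i p‖ ≤ (1 / 2 : ℝ) ^ i := by
    intro i p
    rw [Real.norm_of_nonneg (hτ0 i p)]
    have h1 : min 1 |ψ i p - c i| ≤ 1 := min_le_left _ _
    have h2 : (0 : ℝ) ≤ (1 / 2 : ℝ) ^ i := by positivity
    calc τ i p ≤ (1 / 2 : ℝ) ^ i * 1 := mul_le_mul_of_nonneg_left h1 h2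
      _ = (1 / 2 : ℝ) ^ i := mul_one _
  have hτc : ∀ i, Continuous (τ i) := fun i =>
    continuous_const.mul (continuous_const.min (((hψ i).sub continuous_const).abs))
  let ρ : P → ℝ := fun p => ∑' i, τ i p
  have hρc : Continuous ρ := continuous_tsum hτc hsum hτle
  have hsm : ∀ p, Summable fun i => τ i p := fun p =>
    Summable.of_norm_bounded hsum (fun i => hτle i p)
  have hρpos : ∀ p, 0 < ρ p := by
    intro p
    obtain ⟨i, hi⟩ := hcon p
    have h1 : 0 < τ i p := by
      have : 0 < |ψ i p - c i| := abs_pos.mpr (sub_ne_zero.mpr hi)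
      have : 0 < min 1 |ψ i p - c i| := lt_min one_pos this
      positivity
    exact (hsm p).tsum_pos (fun j => hτ0 j p) i h1
  obtain ⟨C, hC⟩ := hB (fun p => (ρ p)⁻¹) (hρc.inv₀ fun p => (hρpos p).ne')
  have hlim0 : Tendsto (fun n => ρ (b n)) atTop (𝓝 (∑' i : ℕ, (0 : ℝ))) := by
    refine tendsto_tsum_of_dominated_convergence hsum (fun i => ?_) (Eventually.of_forall fun n i => hτle i (b n))
    have h1 : Tendsto (fun n => |ψ i (b n) - c i|) atTop (𝓝 0) := by
      have := ((hlim i).sub_const (c i)).abs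
      simpa using this
    have h2 : Tendsto (fun n => min 1 |ψ i (b n) - c i|) atTop (𝓝 0) := by
      have := (tendsto_const_nhds (x := (1 : ℝ))).min h1
      simpa using this
    have h3 := h2.const_mul ((1 / 2 : ℝ) ^ i)
    rw [mul_zero] at h3
    exact h3
  rw [tsum_zero] at hlim0
  have hCpos : 0 < |C| + 1 := by positivity
  have hev : ∀ᶠ n in atTop, ρ (b n) < (|C| + 1)⁻¹ :=
    hlim0.eventually (gt_mem_nhds (by positivity))
  obtain ⟨n, hn⟩ := hev.exists
  have h1 := hC (b n) (hb n)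
  have h2 : |C| + 1 < (ρ (b n))⁻¹ := by
    rw [lt_inv_comm₀ hCpos (hρpos _)]
    exact hn
  have h3 := le_abs_self ((ρ (b n))⁻¹)
  have h4 := le_abs_self C
  linarith

theorem mapClusterPt_closed {Y : Type*} [TopologicalSpace Y] {s : ℕ → Y} {y : Y}
    (h : MapClusterPt y atTop s) {F : Set Y} (hF : IsClosed F) (hs : ∀ n, s n ∈ F) : y ∈ F := by
  by_contra hy
  have h1 : Fᶜ ∈ 𝓝 y := hF.isOpen_compl.mem_nhds hy
  have h2 := (mapClusterPt_iff_frequently.mp h) _ h1
  obtain ⟨n, hn⟩ := h2.exists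
  exact hn (hs n)

theorem mapClusterPt_eq_of_tendsto {Y : Type*} [TopologicalSpace Y] [T2Space Y] {s : ℕ → Y} {y z : Y}
    (h : MapClusterPt y atTop s) (hz : Tendsto s atTop (𝓝 z)) : y = z := by
  by_contra hne
  obtain ⟨U, V, hU, hV, hyU, hzV, hUV⟩ := t2_separation hne
  have h1 := (mapClusterPt_iff_frequently.mp h) U (hU.mem_nhds hyU)
  have h2 := hz.eventually (hV.mem_nhds hzV)
  obtain ⟨n, hn1, hn2⟩ := (h1.and_eventually h2).exists
  exact (disjoint_left.mp hUV) hn1 hn2

/-- **Grothendieck-type lemma.** If `Z` is countably compact, `φ : P → Z → ℝ` is separately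
continuous and `B` is a bounded subset of `P`, then the pointwise closure of `φ '' B` consists of
continuous functions. -/
theorem groth {P Z : Type*} [TopologicalSpace P] [TopologicalSpace Z]
    (hZ : ∀ s : ℕ → Z, ∃ z, MapClusterPt z atTop s) (B : Set P)
    (hB : ∀ f : P → ℝ, Continuous f → ∃ C : ℝ, ∀ x ∈ B, |f x| ≤ C)
    (φ : P → Z → ℝ) (h1 : ∀ z, Continuous fun p => φ p z) (h2 : ∀ p, Continuous (φ p))
    (g : Z → ℝ) (hg : g ∈ closure (φ '' B)) : Continuous g := by
  classical
  rw [continuous_iff_continuousAt]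
  intro z0
  by_contra hcon
  have hcon' : ∃ ε : ℝ, 0 < ε ∧ ∀ U ∈ 𝓝 z0, ∃ z ∈ U, ε ≤ |g z - g z0| := by
    by_contra hno
    push Not at hno
    apply hcon
    rw [ContinuousAt, Metric.tendsto_nhds]
    intro ε hε
    obtain ⟨U, hU, hU2⟩ := hno ε hε
    filter_upwards [hU] with z hz
    rw [Real.dist_eq]
    exact hU2 z hz
  obtain ⟨ε, hε, hU⟩ := hcon'
  -- one step
  have hstep : ∀ l : List (Z × P), ∃ q : Z × P, q.2 ∈ B ∧
      (∀ r ∈ l, |φ r.2 q.1 - φ r.2 z0| < 1 / ((l.length : ℝ) + 1)) ∧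
      ε ≤ |g q.1 - g z0| ∧ |φ q.2 z0 - g z0| < 1 / ((l.length : ℝ) + 1) ∧
      |φ q.2 q.1 - g q.1| < 1 / ((l.length : ℝ) + 1) ∧
      ∀ r ∈ l, |φ q.2 r.1 - g r.1| < 1 / ((l.length : ℝ) + 1) := by
    intro l
    set δ : ℝ := 1 / ((l.length : ℝ) + 1) with hδ
    have hδ0 : 0 < δ := by positivity
    have hU1 : {z | ∀ r ∈ l, |φ r.2 z - φ r.2 z0| < δ} ∈ 𝓝 z0 := by
      have : {z | ∀ r ∈ l, |φ r.2 z - φ r.2 z0| < δ} = ⋂ r ∈ l.toFinset, {z | |φ r.2 z - φ r.2 z0| < δ} := by
        ext z; simp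
      rw [this]
      refine (Filter.biInter_finset_mem _).mpr fun r _ => ?_
      have hc : Continuous fun z => |φ r.2 z - φ r.2 z0| := ((h2 r.2).sub continuous_const).abs
      refine (isOpen_lt hc continuous_const).mem_nhds ?_
      simp [hδ0]
    obtain ⟨z, hz, hz2⟩ := hU _ hU1
    let T : Finset Z := insert z0 (insert z (l.map Prod.fst).toFinset)
    have hV : {f : Z → ℝ | ∀ w ∈ T, |f w - g w| < δ} ∈ 𝓝 g := by
      have : {f : Z → ℝ | ∀ w ∈ T, |f w - g w| < δ} = ⋂ w ∈ T, {f : Z → ℝ | |f w - g w| < δ} := by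
        ext z; simp
      rw [this]
      refine (Filter.biInter_finset_mem _).mpr fun w _ => ?_
      have hc : Continuous fun f : Z → ℝ => |f w - g w| := ((continuous_apply w).sub continuous_const).abs
      refine (isOpen_lt hc continuous_const).mem_nhds ?_
      simp [hδ0]
    obtain ⟨f, hf, b, hb, rfl⟩ := mem_closure_iff_nhds.mp hg _ hV
    refine ⟨(z, b), hb, hz, hz2, hf z0 (by simp [T]), hf z (by simp [T]), fun r hr => hf r.1 ?_⟩
    simp only [T, Finset.mem_insert, List.mem_toFinset, List.mem_map]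
    exact Or.inr (Or.inr ⟨r, hr, rfl⟩)
  choose F hF1 hF2 hF3 hF4 hF5 hF6 using hstep
  let L : ℕ → List (Z × P) := fun n => Nat.rec [] (fun _ l => F l :: l) n
  have hL0 : ∀ n, L (n + 1) = F (L n) :: L n := fun n => rfl
  have hlen : ∀ n, (L n).length = n := by
    intro n
    induction n with
    | zero => rfl
    | succ n ih => rw [hL0, List.length_cons, ih]
  let s : ℕ → Z × P := fun n => F (L n)
  have hmem : ∀ i n, i < n → s i ∈ L n := by
    intro i n
    induction n with
    | zero => intro h; exact absurd h (Nat.not_lt_zero _)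
    | succ n ih =>
      intro h
      rw [hL0]
      rcases Nat.lt_succ_iff_lt_or_eq.mp h with h | h
      · exact List.mem_cons_of_mem _ (ih h)
      · subst h; exact List.mem_cons_self
  obtain ⟨w, hw⟩ := hZ (fun n => (s n).1)
  -- coordinates
  let W : ℕ → Z := fun j => if j = 0 then z0 else if j = 1 then w else (s (j - 2)).1
  let c : ℕ → ℝ := fun j => if j = 0 then g z0 else if j = 1 then g z0 else g (s (j - 2)).1
  have hone : Tendsto (fun n : ℕ => 1 / ((n : ℝ) + 1)) atTop (𝓝 0) := tendsto_one_div_add_atTop_nhds_zero_nat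
  have ht0 : Tendsto (fun n => φ (s n).2 z0) atTop (𝓝 (g z0)) := by
    rw [tendsto_iff_dist_tendsto_zero]
    refine squeeze_zero (fun _ => dist_nonneg) (fun n => ?_) hone
    rw [Real.dist_eq]
    have := hF4 (L n)
    rw [hlen] at this
    exact this.le
  have hti : ∀ i, Tendsto (fun n => φ (s n).2 (s i).1) atTop (𝓝 (g (s i).1)) := by
    intro i
    rw [tendsto_iff_dist_tendsto_zero]
    refine squeeze_zero' (Eventually.of_forall fun _ => dist_nonneg) ?_ hone
    filter_upwards [eventually_gt_atTop i] with n hn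
    rw [Real.dist_eq]
    have := hF6 (L n) (s i) (hmem i n hn)
    rw [hlen] at this
    exact this.le
  have hw0 : ∀ i, φ (s i).2 w = φ (s i).2 z0 := by
    intro i
    have hcl : MapClusterPt (φ (s i).2 w) atTop (fun n => φ (s i).2 (s n).1) :=
      hw.continuousAt_comp (f := φ (s i).2) (h2 _).continuousAt
    refine mapClusterPt_eq_of_tendsto hcl ?_
    rw [tendsto_iff_dist_tendsto_zero]
    refine squeeze_zero' (Eventually.of_forall fun _ => dist_nonneg) ?_ hone
    filter_upwards [eventually_gt_atTop i] with n hn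
    rw [Real.dist_eq]
    have := hF2 (L n) (s i) (hmem i n hn)
    rw [hlen] at this
    exact this.le
  obtain ⟨p, hp⟩ := bounded_realize B hB (fun j p => φ p (W j)) (fun j => h1 _) (fun n => (s n).2)
    (fun n => hF1 _) c (by
      intro j
      by_cases hj0 : j = 0
      · simp only [W, c, hj0, if_true]
        exact ht0
      · by_cases hj1 : j = 1
        · simp only [W, c, hj1, if_true, one_ne_zero, if_false]
          refine ht0.congr fun n => (hw0 n).symm
        · simp only [W, c, hj0, hj1, if_false]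
          exact hti _)
  have hpw : φ p w = g z0 := by simpa [W, c] using hp 1
  have hpi : ∀ i, φ p (s i).1 = g (s i).1 := fun i => by simpa [W, c] using hp (i + 2)
  have hcl : MapClusterPt (φ p w) atTop (fun n => φ p (s n).1) :=
    hw.continuousAt_comp (f := φ p) (h2 _).continuousAt
  have hclosed : IsClosed {t : ℝ | ε ≤ |t - g z0|} :=
    isClosed_le continuous_const ((continuous_id.sub continuous_const).abs)
  have h3 := mapClusterPt_closed hcl hclosed (fun n => by
    show ε ≤ |φ p (s n).1 - g z0|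
    rw [hpi n]
    exact hF3 (L n))
  have h4 : ε ≤ |φ p w - g z0| := h3
  rw [hpw, sub_self, abs_zero] at h4
  linarith

end Pool.Agent.W641
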