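import Mathlib
import Pool.Agent.W641.Groth

open Set Filter Topology

set_option autoImplicit false

namespace Pool.Agent.W641

/-- A sequence of points of `S` whose images converge to a point of the closure of the image,
for a map with values in `c₀`. -/
theorem c0_frechet {K Γ : Type*} (e : K → Γ → ℝ)
    (he : ∀ k : K, ∀ ε : ℝ, 0 < ε → {γ : Γ | ε ≤ |e k γ|}.Finite) (S : Set K) (p : Γ → ℝ)
    (hp : ∀ ε : ℝ, 0 < ε → {γ : Γ | ε ≤ |p γ|}.Finite) (hcl : p ∈ closure (e '' S)) :
    ∃ s : ℕ → K, (∀ n, s n ∈ S) ∧ ∀ γ, Tendsto (fun n => e (s n) γ) atTop (𝓝 (p γ)) := by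
  classical
  have hstep : ∀ l : List K, ∃ q : K, q ∈ S ∧
      (∀ γ, 1 / ((l.length : ℝ) + 1) ≤ |p γ| → |e q γ - p γ| < 1 / ((l.length : ℝ) + 1)) ∧
      ∀ r ∈ l, ∀ γ, 1 / ((l.length : ℝ) + 1) ≤ |e r γ| → |e q γ - p γ| < 1 / ((l.length : ℝ) + 1) := by
    intro l
    set δ : ℝ := 1 / ((l.length : ℝ) + 1) with hδ
    have hδ0 : 0 < δ := by positivity
    have hfin : ({γ | δ ≤ |p γ|} ∪ ⋃ r ∈ l.toFinset, {γ | δ ≤ |e r γ|}).Finite := by
      refine (hp δ hδ0).union ?_
      exact (Finset.finite_toSet l.toFinset).biUnion fun r _ => he r δ hδ0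
    have hV : {f : Γ → ℝ | ∀ w ∈ hfin.toFinset, |f w - p w| < δ} ∈ 𝓝 p := by
      have : {f : Γ → ℝ | ∀ w ∈ hfin.toFinset, |f w - p w| < δ} = ⋂ w ∈ hfin.toFinset, {f : Γ → ℝ | |f w - p w| < δ} := by
        ext z; simp only [mem_ofPred_eq, mem_iInter]
      rw [this]
      refine (Filter.biInter_finset_mem _).mpr fun w _ => ?_
      have hc : Continuous fun f : Γ → ℝ => |f w - p w| := ((continuous_apply w).sub continuous_const).abs
      refine (isOpen_lt hc continuous_const).mem_nhds ?_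
      simp [hδ0]
    obtain ⟨f, hf, b, hb, rfl⟩ := mem_closure_iff_nhds.mp hcl _ hV
    refine ⟨b, hb, fun γ hγ => hf γ (hfin.mem_toFinset.mpr (Or.inl hγ)), fun r hr γ hγ =>
      hf γ (hfin.mem_toFinset.mpr (Or.inr ?_))⟩
    rw [mem_iUnion₂]
    exact ⟨r, List.mem_toFinset.mpr hr, hγ⟩
  choose F hF1 hF2 hF3 using hstep
  let L : ℕ → List K := fun n => Nat.rec [] (fun _ l => F l :: l) n
  have hL0 : ∀ n, L (n + 1) = F (L n) :: L n := fun n => rfl
  have hlen : ∀ n, (L n).length = n := by
    intro n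
    induction n with
    | zero => rfl
    | succ n ih => rw [hL0, List.length_cons, ih]
  let s : ℕ → K := fun n => F (L n)
  have hmem : ∀ i n, i < n → s i ∈ L n := by
    intro i n
    induction n with
    | zero => intro h; exact absurd h (Nat.not_lt_zero _)
    | succ n ih =>
      intro h
      rw [hL0]
      rcases Nat.lt_succ_iff_lt_or_eq.mp h with h | h
      · exact List.mem_cons_of_mem _ (ih h)
      · subst h; exact List.mem_cons_self
  have hone : Tendsto (fun n : ℕ => 1 / ((n : ℝ) + 1)) atTop (𝓝 0) := tendsto_one_div_add_atTop_nhds_zero_nat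
  refine ⟨s, fun n => hF1 _, fun γ => ?_⟩
  by_cases hz : p γ = 0 ∧ ∀ i, e (s i) γ = 0
  · have : (fun n => e (s n) γ) = fun _ => p γ := by
      funext n; rw [hz.1, hz.2]
    rw [this]
    exact tendsto_const_nhds
  · -- some value nonzero
    have hev : ∀ᶠ n in atTop, |e (s n) γ - p γ| < 1 / ((n : ℝ) + 1) := by
      rw [not_and_or] at hz
      rcases hz with hz | hz
      · have hpos : 0 < |p γ| := abs_pos.mpr hz
        have h1 : ∀ᶠ n : ℕ in atTop, 1 / ((n : ℝ) + 1) < |p γ| := hone.eventually (gt_mem_nhds hpos)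
        filter_upwards [h1] with n hn
        have := hF2 (L n) γ
        rw [hlen] at this
        exact this hn.le
      · push Not at hz
        obtain ⟨i, hi⟩ := hz
        have hpos : 0 < |e (s i) γ| := abs_pos.mpr hi
        have h1 : ∀ᶠ n : ℕ in atTop, 1 / ((n : ℝ) + 1) < |e (s i) γ| := hone.eventually (gt_mem_nhds hpos)
        filter_upwards [h1, eventually_gt_atTop i] with n hn hin
        have := hF3 (L n) (s i) (hmem i n hin) γ
        rw [hlen] at this
        exact this hn.le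
    rw [tendsto_iff_dist_tendsto_zero]
    refine squeeze_zero' (Eventually.of_forall fun _ => dist_nonneg) ?_ hone
    filter_upwards [hev] with n hn
    rw [Real.dist_eq]
    exact hn.le

end Pool.Agent.W641
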