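import Pool.Agent.H695R3.PP.Stmts

/-!
# Closedness and measurability of spectral conditions (TaskClosed, TaskClosed2, TaskMeas)
-/

set_option autoImplicit false

open scoped BigOperators ENNReal
open MeasureTheory

namespace Pool.Agent.W641.LP

open Pool.Agent.H695R3.PP

/-- The compact set containing all the eigenpairs. -/
def Kset (R : ℝ) : Set (ℝ × (ℤ → ℝ)) := Set.Icc (-R) R ×ˢ Set.pi Set.univ fun _ => Set.Icc (-1) 1

lemma isCompact_Kset (R : ℝ) : IsCompact (Kset R) :=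
  isCompact_Icc.prod (isCompact_univ_pi fun _ => isCompact_Icc)

lemma mem_Kset {V : ℤ → ℝ} {a b : ℤ} {E R : ℝ} {ψ : ℤ → ℝ} (hE : |E| ≤ R)
    (h : IsEig V a b E ψ) : (E, ψ) ∈ Kset R := by
  refine ⟨⟨(abs_le.1 hE).1, (abs_le.1 hE).2⟩, fun n _ => ?_⟩
  have h1 : ψ n ^ 2 ≤ 1 := by
    by_cases hn : n ∈ Finset.Icc a b
    · have := Finset.single_le_sum (f := fun n => ψ n ^ 2) (fun n _ => sq_nonneg (ψ n)) hn
      have h2 : ∑ n ∈ Finset.Icc a b, ψ n ^ 2 = 1 := h.2.1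
      rw [h2] at this
      exact this
    · have : ψ n = 0 := h.1 n (by rw [Finset.mem_Icc] at hn; omega)
      rw [this]; norm_num
  have h2 : |ψ n| ≤ 1 := by
    rw [← one_pow 2] at h1
    exact abs_le_of_sq_le_sq h1 zero_le_one
  exact ⟨(abs_le.1 h2).1, (abs_le.1 h2).2⟩

/-- The eigenpair condition is closed. -/
lemma isClosed_eig {T : Type*} [TopologicalSpace T] {fE : T → ℝ} {fψ fV : T → ℤ → ℝ}
    (hE : Continuous fE) (hψ : Continuous fψ) (hV : Continuous fV) (a b : ℤ) :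
    IsClosed {p : T | IsEig (fV p) a b (fE p) (fψ p)} := by
  have c1 : ∀ n, Continuous fun p => fψ p n := fun n => (continuous_apply n).comp hψ
  have c2 : ∀ n, Continuous fun p => fV p n := fun n => (continuous_apply n).comp hV
  have h1 : IsClosed {p : T | ∀ n, n < a ∨ b < n → fψ p n = 0} := by
    simp only [Set.ofPred_forall]
    refine isClosed_iInter fun n => isClosed_iInter fun _ => ?_
    exact isClosed_eq (c1 n) continuous_const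
  have h2 : IsClosed {p : T | nsq a b (fψ p) = 1} := by
    unfold nsq
    exact isClosed_eq (continuous_finsetSum _ fun n _ => (c1 n).pow 2) continuous_const
  have h3 : IsClosed {p : T | ∀ n, a ≤ n → n ≤ b →
      fψ p (n + 1) + fψ p (n - 1) + fV p n * fψ p n = fE p * fψ p n} := by
    simp only [Set.ofPred_forall]
    refine isClosed_iInter fun n => isClosed_iInter fun _ => isClosed_iInter fun _ => ?_
    exact isClosed_eq (((c1 _).add (c1 _)).add ((c2 n).mul (c1 n))) (hE.mul (c1 n))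
  exact h1.inter (h2.inter h3)

theorem taskClosed : TaskClosed := by
  intro a b R C hC
  have : CompactSpace (Kset R) := isCompact_iff_compactSpace.1 (isCompact_Kset R)
  let D : Set (Kset R × (ℤ → ℝ)) := {p | IsEig p.2 a b p.1.1.1 p.1.1.2 ∧ (p.1.1, p.2) ∈ C}
  have hD : IsClosed D := by
    refine (isClosed_eig (by fun_prop) (by fun_prop) (by fun_prop) a b).inter ?_
    exact hC.preimage (by fun_prop)
  have heq : {V : ℤ → ℝ | ∃ E ψ, |E| ≤ R ∧ IsEig V a b E ψ ∧ ((E, ψ), V) ∈ C} =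
      Prod.snd '' D := by
    ext V
    constructor
    · rintro ⟨E, ψ, h1, h2, h3⟩
      exact ⟨(⟨(E, ψ), mem_Kset h1 h2⟩, V), ⟨h2, h3⟩, rfl⟩
    · rintro ⟨⟨⟨⟨E, ψ⟩, hk⟩, V'⟩, ⟨h2, h3⟩, rfl⟩
      exact ⟨E, ψ, abs_le.2 hk.1, h2, h3⟩
  rw [heq]
  exact isClosedMap_snd_of_compactSpace _ hD

theorem taskClosed2 : TaskClosed2 := by
  intro a b a' b' R C hC
  have : CompactSpace (Kset R) := isCompact_iff_compactSpace.1 (isCompact_Kset R)
  let D : Set ((Kset R × Kset R) × (ℤ → ℝ)) := {p | IsEig p.2 a b p.1.1.1.1 p.1.1.1.2 ∧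
    IsEig p.2 a' b' p.1.2.1.1 p.1.2.1.2 ∧ (p.1.1.1, p.1.2.1) ∈ C}
  have hD : IsClosed D := by
    refine (isClosed_eig (by fun_prop) (by fun_prop) (by fun_prop) a b).inter
      ((isClosed_eig (by fun_prop) (by fun_prop) (by fun_prop) a' b').inter ?_)
    exact hC.preimage (by fun_prop)
  have heq : {V : ℤ → ℝ | ∃ E ψ E' ψ', |E| ≤ R ∧ |E'| ≤ R ∧ IsEig V a b E ψ ∧
      IsEig V a' b' E' ψ' ∧ ((E, ψ), (E', ψ')) ∈ C} = Prod.snd '' D := by
    ext V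
    constructor
    · rintro ⟨E, ψ, E', ψ', h1, h1', h2, h2', h3⟩
      exact ⟨((⟨(E, ψ), mem_Kset h1 h2⟩, ⟨(E', ψ'), mem_Kset h1' h2'⟩), V), ⟨h2, h2', h3⟩, rfl⟩
    · rintro ⟨⟨⟨⟨⟨E, ψ⟩, hk⟩, ⟨⟨E', ψ'⟩, hk'⟩⟩, V'⟩, ⟨h2, h2', h3⟩, rfl⟩
      exact ⟨E, ψ, E', ψ', abs_le.2 hk.1, abs_le.2 hk'.1, h2, h2', h3⟩
  rw [heq]
  exact isClosedMap_snd_of_compactSpace _ hD

theorem taskMeas (h1 : TaskClosed) (h2 : TaskClosed2) : TaskMeas := by
  constructor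
  · intro L a τ
    have heq : {V : ℤ → ℝ | Bad1 L a τ V} = ⋃ R : ℕ, {V : ℤ → ℝ | ∃ E ψ, |E| ≤ (R : ℝ) ∧
        IsEig V (-(L : ℤ)) L E ψ ∧ ((E, ψ), V) ∈ {p : (ℝ × (ℤ → ℝ)) × (ℤ → ℝ) | a ≤ |p.1.2 0| ∧
          (τ ≤ |p.1.2 L| ∨ τ ≤ |p.1.2 (-(L : ℤ))|)}} := by
      ext V
      simp only [Set.mem_ofPred_eq, Set.mem_iUnion, Bad1]
      constructor
      · rintro ⟨E, ψ, h, h', h''⟩
        obtain ⟨R, hR⟩ := exists_nat_ge |E|
        exact ⟨R, E, ψ, hR, h, h', h''⟩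
      · rintro ⟨R, E, ψ, hR, h, h', h''⟩
        exact ⟨E, ψ, h, h', h''⟩
    rw [heq]
    refine MeasurableSet.iUnion fun R => (h1 _ _ _ _ ?_).measurableSet
    have k1 : IsClosed {p : (ℝ × (ℤ → ℝ)) × (ℤ → ℝ) | a ≤ |p.1.2 0|} :=
      isClosed_le (by fun_prop) (by fun_prop)
    have k2 : IsClosed {p : (ℝ × (ℤ → ℝ)) × (ℤ → ℝ) | τ ≤ |p.1.2 L|} :=
      isClosed_le (by fun_prop) (by fun_prop)
    have k3 : IsClosed {p : (ℝ × (ℤ → ℝ)) × (ℤ → ℝ) | τ ≤ |p.1.2 (-(L : ℤ))|} :=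
      isClosed_le (by fun_prop) (by fun_prop)
    exact k1.inter (k2.union k3)
  · intro L d
    have heq : {V : ℤ → ℝ | Bad2 L d V} = ⋃ R : ℕ, ⋃ n : ℕ, {V : ℤ → ℝ | ∃ E ψ E' ψ',
        |E| ≤ (R : ℝ) ∧ |E'| ≤ (R : ℝ) ∧ IsEig V (-(L : ℤ)) L E ψ ∧ IsEig V (-(L : ℤ)) L E' ψ' ∧
          ((E, ψ), (E', ψ')) ∈ {p : (ℝ × (ℤ → ℝ)) × (ℝ × (ℤ → ℝ)) |
            1 / ((n : ℝ) + 1) ≤ |p.1.1 - p.2.1| ∧ |p.1.1 - p.2.1| ≤ d}} := by
      ext V
      simp only [Set.mem_ofPred_eq, Set.mem_iUnion, Bad2]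
      constructor
      · rintro ⟨E, ψ, E', ψ', h, h', h3, h4⟩
        obtain ⟨R, hR⟩ := exists_nat_ge (max |E| |E'|)
        obtain ⟨n, hn⟩ := exists_nat_one_div_lt (abs_pos.2 (sub_ne_zero.2 h3))
        exact ⟨R, n, E, ψ, E', ψ', (le_max_left _ _).trans hR, (le_max_right _ _).trans hR, h, h',
          hn.le, h4⟩
      · rintro ⟨R, n, E, ψ, E', ψ', hR, hR', h, h', h3, h4⟩
        refine ⟨E, ψ, E', ψ', h, h', ?_, h4⟩
        rintro rfl
        rw [sub_self, abs_zero] at h3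
        have : 0 < 1 / ((n : ℝ) + 1) := by positivity
        linarith
    rw [heq]
    refine MeasurableSet.iUnion fun R => MeasurableSet.iUnion fun n =>
      (h2 _ _ _ _ _ _ ?_).measurableSet
    have k1 : IsClosed {p : (ℝ × (ℤ → ℝ)) × (ℝ × (ℤ → ℝ)) |
        1 / ((n : ℝ) + 1) ≤ |p.1.1 - p.2.1|} := isClosed_le (by fun_prop) (by fun_prop)
    have k2 : IsClosed {p : (ℝ × (ℤ → ℝ)) × (ℝ × (ℤ → ℝ)) | |p.1.1 - p.2.1| ≤ d} :=
      isClosed_le (by fun_prop) (by fun_prop)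
    exact k1.inter k2

end Pool.Agent.W641.LP
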