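import Pool.Agent.W641.LPSA
import Pool.Agent.H853R3.PP.TaskResample

/-!
# Spectral averaging in probability (TaskSAP)
-/

set_option autoImplicit false

open scoped BigOperators ENNReal
open MeasureTheory

namespace Pool.Agent.W641.LP

open Pool.Agent.H695R3.PP

theorem taskSAP (h : TaskSA) : TaskSAP := by
  intro W ε κ a b m A B hε hκ hB hA hBE
  have hres := Pool.Agent.H853R3.PP.Resample.taskResample ℤ (fun _ => ℝ) (fun _ => U) m
  have hmeas := Pool.Agent.H853R3.PP.Resample.measurable_upd (X := fun _ : ℤ => ℝ) m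
  have h1 : PZ B = ∫⁻ x, U {s : ℝ | Function.update x m s ∈ B} ∂PZ := by
    have h2 : PZ B = (PZ.prod U) ((fun p : (ℤ → ℝ) × ℝ => Function.update p.1 m p.2) ⁻¹' B) := by
      rw [← Measure.map_apply hmeas hB]
      unfold PZ
      rw [hres]
    rw [h2, Measure.prod_apply (hmeas hB)]
    rfl
  rw [h1]
  apply lintegral_mono
  intro x
  have hsub : {s : ℝ | Function.update x m s ∈ B} ⊆ (fun s : ℝ => ε * s) ⁻¹'
      ((fun s : ℝ => W m + s) ⁻¹' {t : ℝ | ∃ E ∈ A x, ∃ ψ,
        IsEig (Function.update (fun n => W n + ε * x n) m t) a b E ψ ∧ κ ≤ ψ m ^ 2}) := by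
    intro s hs
    obtain ⟨E, hE, ψ, h3, h4⟩ := hBE _ hs
    rw [hA] at hE
    refine ⟨E, hE, ψ, ?_, h4⟩
    convert h3 using 1
    funext n
    by_cases hn : n = m
    · subst hn
      rw [Function.update_self, Function.update_self]
    · rw [Function.update_of_ne hn, Function.update_of_ne hn]
  calc U {s : ℝ | Function.update x m s ∈ B}
      ≤ ENNReal.ofReal (1 / 2) * volume {s : ℝ | Function.update x m s ∈ B} := by
        unfold U
        rw [Measure.smul_apply, smul_eq_mul]
        gcongr
        exact Measure.restrict_le_self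
    _ ≤ ENNReal.ofReal (1 / 2) * (ENNReal.ofReal |ε⁻¹| * volume {t : ℝ | ∃ E ∈ A x, ∃ ψ,
        IsEig (Function.update (fun n => W n + ε * x n) m t) a b E ψ ∧ κ ≤ ψ m ^ 2}) := by
        gcongr
        refine (measure_mono hsub).trans ?_
        rw [Real.volume_preimage_mul_left hε.ne', measure_preimage_add]
    _ ≤ ENNReal.ofReal (1 / 2) * (ENNReal.ofReal |ε⁻¹| *
        (ENNReal.ofReal (1 / κ) * volume (A x))) := by
        gcongr
        exact h _ a b m (A x) κ hκ
    _ = ENNReal.ofReal (1 / (2 * ε * κ)) * volume (A x) := by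
        rw [← mul_assoc, ← mul_assoc, ← ENNReal.ofReal_mul (by norm_num),
          ← ENNReal.ofReal_mul (by positivity), abs_of_pos (by positivity)]
        congr 2
        field_simp

end Pool.Agent.W641.LP
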