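import Pool.Agent.W641.LPClosed
import Pool.Agent.W641.LPSAP

/-!
# The probability of the first bad event (TaskG1)
-/

set_option autoImplicit false

open scoped BigOperators ENNReal
open MeasureTheory

namespace Pool.Agent.W641.LP

open Pool.Agent.H695R3.PP

/-- The solution from the right end, in terms of the eigenvector. -/
lemma eig_rsol {V : ℤ → ℝ} {a b : ℤ} {E : ℝ} {ψ : ℤ → ℝ} (h : IsEig V a b E ψ) :
    ∀ j : ℕ, a ≤ b - j + 1 →
      ψ (b - j) = ψ b * (rsol V E b j).1 ∧ ψ (b - j + 1) = ψ b * (rsol V E b j).2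
  | 0, _ => by
    have : ψ (b + 1) = 0 := h.1 _ (by omega)
    simp [rsol, this]
  | j + 1, hj => by
    push_cast at hj
    obtain ⟨h1, h2⟩ := eig_rsol h j (by omega)
    have h3 := h.2.2 (b - j) (by omega) (by omega)
    simp only [rsol]
    push_cast
    rw [show b - ((j : ℤ) + 1) = b - j - 1 by ring, show b - (j : ℤ) - 1 + 1 = b - j by ring]
    refine ⟨?_, h1⟩
    linear_combination h3 + (E - V (b - j)) * h1 - h2

lemma rsol_congr {V V' : ℤ → ℝ} {E : ℝ} {b : ℤ} : ∀ j : ℕ,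
    (∀ n, b - j < n → n ≤ b → V n = V' n) → rsol V E b j = rsol V' E b j
  | 0, _ => rfl
  | j + 1, h => by
    simp only [rsol]
    rw [rsol_congr j (fun n h1 h2 => h n (by push_cast; omega) h2),
      h (b - j) (by push_cast; omega) (by omega)]

lemma continuous_rsol (W : ℤ → ℝ) (ε : ℝ) (b : ℤ) : ∀ j : ℕ,
    Continuous fun p : (ℤ → ℝ) × ℝ => rsol (fun n => W n + ε * p.1 n) p.2 b j
  | 0 => by simp only [rsol]; fun_prop
  | j + 1 => by
    have h1 := continuous_rsol W ε b j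
    have h2 : Continuous fun p : (ℤ → ℝ) × ℝ => p.1 (b - j) :=
      (continuous_apply _).comp continuous_fst
    simp only [rsol]
    exact ((((continuous_snd.sub (continuous_const.add (continuous_const.mul h2))).mul
      (continuous_fst.comp h1)).sub (continuous_snd.comp h1))).prodMk (continuous_fst.comp h1)

/-- A bound for the eigenvalues. -/
lemma eig_bound {V : ℤ → ℝ} {a b : ℤ} {E M : ℝ} {ψ : ℤ → ℝ} (h : IsEig V a b E ψ)
    (hV : ∀ n, a ≤ n → n ≤ b → |V n| ≤ M) : |E| ≤ 2 + M := by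
  have hne : (Finset.Icc a b).Nonempty := by
    by_contra hne
    rw [Finset.not_nonempty_iff_eq_empty] at hne
    have := h.2.1
    rw [nsq, hne, Finset.sum_empty] at this
    exact zero_ne_one this
  obtain ⟨n, hn, hmax⟩ := Finset.exists_max_image (Finset.Icc a b) (fun n => |ψ n|) hne
  have hmax' : ∀ k, |ψ k| ≤ |ψ n| := by
    intro k
    by_cases hk : k ∈ Finset.Icc a b
    · exact hmax k hk
    · rw [h.1 k (by rw [Finset.mem_Icc] at hk; omega), abs_zero]
      exact abs_nonneg _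
  have hpos : 0 < |ψ n| := by
    by_contra h0
    have h1 : ∀ k, ψ k = 0 := fun k => abs_nonpos_iff.1 ((hmax' k).trans (not_lt.1 h0))
    have := h.2.1
    rw [nsq, Finset.sum_eq_zero (fun k _ => by rw [h1 k]; norm_num)] at this
    exact zero_ne_one this
  obtain ⟨hn1, hn2⟩ := Finset.mem_Icc.1 hn
  have heq := h.2.2 n hn1 hn2
  have h2 : |E| * |ψ n| ≤ (2 + M) * |ψ n| := by
    rw [← abs_mul, ← heq]
    calc |ψ (n + 1) + ψ (n - 1) + V n * ψ n| ≤ |ψ (n + 1)| + |ψ (n - 1)| + |V n * ψ n| :=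
          abs_add_three _ _ _
      _ ≤ |ψ n| + |ψ n| + M * |ψ n| := by
          rw [abs_mul]
          exact add_le_add (add_le_add (hmax' _) (hmax' _))
            (mul_le_mul_of_nonneg_right (hV n hn1 hn2) (abs_nonneg _))
      _ = (2 + M) * |ψ n| := by ring
  exact le_of_mul_le_mul_right h2 hpos

/-- The event at the right end. -/
def Right (L : ℕ) (a τ : ℝ) (V : ℤ → ℝ) : Prop :=
  ∃ E ψ, IsEig V (-(L : ℤ)) L E ψ ∧ a ≤ |ψ 0| ∧ τ ≤ |ψ L|

lemma measurable_right (L : ℕ) (a τ : ℝ) : MeasurableSet {V : ℤ → ℝ | Right L a τ V} := by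
  have heq : {V : ℤ → ℝ | Right L a τ V} = ⋃ R : ℕ, {V : ℤ → ℝ | ∃ E ψ, |E| ≤ (R : ℝ) ∧
      IsEig V (-(L : ℤ)) L E ψ ∧ ((E, ψ), V) ∈ {p : (ℝ × (ℤ → ℝ)) × (ℤ → ℝ) | a ≤ |p.1.2 0| ∧
        τ ≤ |p.1.2 L|}} := by
    ext V
    simp only [Set.mem_ofPred_eq, Set.mem_iUnion, Right]
    constructor
    · rintro ⟨E, ψ, h, h', h''⟩
      obtain ⟨R, hR⟩ := exists_nat_ge |E|
      exact ⟨R, E, ψ, hR, h, h', h''⟩
    · rintro ⟨R, E, ψ, hR, h, h', h''⟩
      exact ⟨E, ψ, h, h', h''⟩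
  rw [heq]
  refine MeasurableSet.iUnion fun R => (taskClosed _ _ _ _ ?_).measurableSet
  have k1 : IsClosed {p : (ℝ × (ℤ → ℝ)) × (ℤ → ℝ) | a ≤ |p.1.2 0|} :=
    isClosed_le (by fun_prop) (by fun_prop)
  have k2 : IsClosed {p : (ℝ × (ℤ → ℝ)) × (ℤ → ℝ) | τ ≤ |p.1.2 L|} :=
    isClosed_le (by fun_prop) (by fun_prop)
  exact k1.inter k2

/-- Almost surely all coordinates are in `[-1, 1]`. -/
lemma ae_bdd : ∀ᵐ x ∂PZ, ∀ n, |x n| ≤ 1 := by
  rw [ae_all_iff]
  intro n
  have h1 : ∀ᵐ s ∂U, |s| ≤ 1 := by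
    unfold U
    apply Measure.ae_smul_measure
    rw [ae_restrict_iff' measurableSet_Icc]
    exact Filter.Eventually.of_forall fun s hs => abs_le.2 hs
  have h2 : MeasurePreserving (fun x : ℤ → ℝ => x n) PZ U :=
    measurePreserving_eval_infinitePi (fun _ : ℤ => U) n
  exact h2.quasiMeasurePreserving.ae h1

/-- Invariance of the product measure under the reflection. -/
lemma refl_map : Measure.map (fun (x : ℤ → ℝ) (n : ℤ) => x (-n)) PZ = PZ := by
  have h := Measure.infinitePi_map_piCongrLeft (μ := fun _ : ℤ => U) (Equiv.neg ℤ)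
  have h2 : ⇑(MeasurableEquiv.piCongrLeft (fun _ : ℤ => ℝ) (Equiv.neg ℤ)) =
      fun (x : ℤ → ℝ) (n : ℤ) => x (-n) := by
    funext x n
    have := Equiv.piCongrLeft_apply_apply (fun _ : ℤ => ℝ) (Equiv.neg ℤ) x (-n)
    simp only [Equiv.neg_apply, neg_neg] at this
    exact this
  rw [h2] at h
  exact h

lemma meas_refl : Measurable (fun (x : ℤ → ℝ) (n : ℤ) => x (-n)) :=
  measurable_pi_lambda _ fun n => measurable_pi_apply (-n)

lemma isEig_refl {V : ℤ → ℝ} {L : ℕ} {E : ℝ} {ψ : ℤ → ℝ} (h : IsEig V (-(L : ℤ)) L E ψ) :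
    IsEig (fun n => V (-n)) (-(L : ℤ)) L E (fun n => ψ (-n)) := by
  refine ⟨fun n hn => h.1 _ (by omega), ?_, fun n h1 h2 => ?_⟩
  · have h1 := h.2.1
    unfold nsq at h1 ⊢
    rw [← h1]
    refine Finset.sum_nbij' (fun n => -n) (fun n => -n) ?_ ?_ ?_ ?_ ?_
    · intro n hn; rw [Finset.mem_Icc] at hn ⊢; omega
    · intro n hn; rw [Finset.mem_Icc] at hn ⊢; omega
    · intro n _; exact neg_neg n
    · intro n _; exact neg_neg n
    · intro n _; rfl
  · have := h.2.2 (-n) (by omega) (by omega)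
    simp only
    rw [show -(n + 1) = -n - 1 by ring, show -(n - 1) = -n + 1 by ring]
    linarith

theorem right_bound (h1 : TaskSAP) {c C : ℝ}
    (hc : 0 < c) (hc2 : c ≤ 1 / 2) (hC : 0 < C)
    (hFE : ∀ (ε R E t : ℝ) (W : ℤ → ℝ) (L : ℕ),
      0 < ε → ε ≤ 1 → 1 ≤ R → |E| ≤ R → (∀ n, |W n| ≤ R) → 0 < t → 1 ≤ L →
      PZ {x | |(rsol (fun n => W n + ε * x n) E L L).1| ≤ t} ≤
        ENNReal.ofReal (C * R / ε ^ 2 * t * (1 - c * ε ^ 2) ^ L))
    (ε R a τ : ℝ) (W : ℤ → ℝ) (L : ℕ)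
    (hε : 0 < ε) (hε1 : ε ≤ 1) (hR : 1 ≤ R) (hW : ∀ n, |W n| ≤ R) (ha : 0 < a) (hτ : 0 < τ)
    (hL : 1 ≤ L) :
    PZ {x | Right L a τ (fun n => W n + ε * x n)} ≤
      ENNReal.ofReal (16 * C * R ^ 2 / (ε ^ 3 * a ^ 2 * τ) * (1 - c * ε ^ 2) ^ L) := by
  have hq : 0 ≤ 1 - c * ε ^ 2 := by nlinarith [sq_nonneg ε, pow_le_one₀ hε.le hε1 (n := 2)]
  -- the event
  let B : Set (ℤ → ℝ) := {x | Right L a τ (fun n => W n + ε * x n)} ∩ {x | ∀ n, |x n| ≤ 1}
  let A : (ℤ → ℝ) → Set ℝ := fun x =>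
    {E | |E| ≤ 4 * R ∧ |(rsol (fun n => W n + ε * x n) E L L).1| ≤ 1 / τ}
  have hBm : MeasurableSet B := by
    apply MeasurableSet.inter
    · have hm : Measurable (fun (x : ℤ → ℝ) (n : ℤ) => W n + ε * x n) := by fun_prop
      exact hm (measurable_right L a τ)
    · rw [Set.ofPred_forall]
      exact MeasurableSet.iInter fun n => measurableSet_le (by fun_prop) measurable_const
  have hA : ∀ x s, A (Function.update x 0 s) = A x := by
    intro x s
    ext E
    simp only [A, Set.mem_ofPred_eq]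
    rw [rsol_congr (V := fun n => W n + ε * Function.update x 0 s n)
      (V' := fun n => W n + ε * x n) L (fun n hn _ => by
        rw [Function.update_of_ne (by omega)])]
  have hBE : ∀ x ∈ B, ∃ E ∈ A x, ∃ ψ, IsEig (fun n => W n + ε * x n) (-(L : ℤ)) L E ψ ∧
      a ^ 2 ≤ ψ 0 ^ 2 := by
    rintro x ⟨⟨E, ψ, h2, h3, h4⟩, hx⟩
    refine ⟨E, ⟨?_, ?_⟩, ψ, h2, ?_⟩
    · have := eig_bound (M := R + 1) h2 (fun n _ _ => by
        calc |W n + ε * x n| ≤ |W n| + |ε * x n| := abs_add_le _ _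
          _ ≤ R + 1 := by
            rw [abs_mul, abs_of_pos hε]
            nlinarith [hW n, hx n, abs_nonneg (x n)])
      linarith
    · have h5 := (eig_rsol h2 L (by omega)).1
      rw [sub_self] at h5
      have h6 : |ψ 0| ≤ 1 := by
        have h7 : (E, ψ) ∈ Kset |E| := mem_Kset le_rfl h2
        exact abs_le.2 (h7.2 0 (Set.mem_univ _))
      rw [h5, abs_mul] at h6
      rw [le_div_iff₀ hτ]
      nlinarith [abs_nonneg (rsol (fun n => W n + ε * x n) E L L).1]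
    · rw [← sq_abs (ψ 0)]
      gcongr
  have hS := h1 W ε (a ^ 2) (-(L : ℤ)) L 0 A B hε (by positivity) hBm hA hBE
  have hPB : PZ {x | Right L a τ (fun n => W n + ε * x n)} = PZ B := by
    apply measure_congr
    filter_upwards [ae_bdd] with x hx
    apply propext
    change _ ↔ _ ∧ _
    constructor
    · intro h; exact ⟨h, hx⟩
    · intro h; exact h.1
  rw [hPB]
  refine hS.trans ?_
  -- Tonelli
  let D : Set ((ℤ → ℝ) × ℝ) :=
    {p | |p.2| ≤ 4 * R ∧ |(rsol (fun n => W n + ε * p.1 n) p.2 L L).1| ≤ 1 / τ}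
  have hD : MeasurableSet D := by
    have k1 : IsClosed {p : (ℤ → ℝ) × ℝ | |p.2| ≤ 4 * R} :=
      isClosed_le (by fun_prop) (by fun_prop)
    have k2 : IsClosed {p : (ℤ → ℝ) × ℝ | |(rsol (fun n => W n + ε * p.1 n) p.2 L L).1| ≤ 1 / τ} :=
      isClosed_le (continuous_abs.comp (continuous_fst.comp (continuous_rsol W ε L L)))
        continuous_const
    exact (k1.inter k2).measurableSet
  have hT1 : ∫⁻ x, volume (A x) ∂PZ = (PZ.prod volume) D := by
    rw [Measure.prod_apply hD]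
    rfl
  have hT2 : (PZ.prod volume) D = ∫⁻ E, PZ {x | (x, E) ∈ D} := by
    rw [Measure.prod_apply_symm hD]
    rfl
  have hT3 : ∫⁻ E, PZ {x | (x, E) ∈ D} ≤ ∫⁻ E in Set.Icc (-(4 * R)) (4 * R),
      ENNReal.ofReal (C * (4 * R) / ε ^ 2 * (1 / τ) * (1 - c * ε ^ 2) ^ L) := by
    rw [← lintegral_indicator measurableSet_Icc]
    apply lintegral_mono
    intro E
    by_cases hE : |E| ≤ 4 * R
    · rw [Set.indicator_of_mem (show E ∈ Set.Icc (-(4 * R)) (4 * R) from abs_le.1 hE)]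
      refine (measure_mono ?_).trans (hFE ε (4 * R) E (1 / τ) W L hε hε1 (by linarith) hE
        (fun n => (hW n).trans (by linarith)) (by positivity) hL)
      intro x hx
      exact hx.2
    · have : {x | (x, E) ∈ D} = ∅ := by
        ext x
        simp only [Set.mem_ofPred_eq, Set.mem_empty_iff_false, iff_false]
        intro hx
        exact hE hx.1
      simp only
      rw [this, measure_empty]
      exact zero_le
  rw [lintegral_const_mul' _ _ ENNReal.ofReal_ne_top, hT1, hT2]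
  refine (mul_le_mul_right hT3 _).trans ?_
  rw [setLIntegral_const, Real.volume_Icc, ← ENNReal.ofReal_mul (by positivity),
    ← ENNReal.ofReal_mul (by positivity)]
  apply ENNReal.ofReal_le_ofReal
  apply le_of_eq
  field_simp
  ring

theorem taskG1 (h1 : TaskSAP) (h3 : TaskFE) : TaskG1 := by
  obtain ⟨c, C, hc, hc2, hC, hFE⟩ := h3
  refine ⟨c, 32 * C, hc, hc2, by positivity, ?_⟩
  intro ε R a τ W L hε hε1 hR hW ha hτ hL
  have hq : 0 ≤ 1 - c * ε ^ 2 := by nlinarith [sq_nonneg ε, pow_le_one₀ hε.le hε1 (n := 2)]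
  have hr := right_bound h1 hc hc2 hC hFE ε R a τ W L hε hε1 hR hW ha hτ hL
  have hl := right_bound h1 hc hc2 hC hFE ε R a τ (fun n => W (-n)) L hε hε1 hR
    (fun n => hW (-n)) ha hτ hL
  have hl2 : PZ {x | Right L a τ (fun n => W (-n) + ε * x n)} =
      PZ {x | Right L a τ (fun n => W (-n) + ε * x (-n))} := by
    have hm : Measurable (fun (x : ℤ → ℝ) (n : ℤ) => W (-n) + ε * x n) := by fun_prop
    conv_lhs => rw [← refl_map]
    rw [Measure.map_apply meas_refl]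
    · rfl
    · exact hm (measurable_right L a τ)
  have hsub : {x : ℤ → ℝ | Bad1 L a τ (fun n => W n + ε * x n)} ⊆
      {x | Right L a τ (fun n => W n + ε * x n)} ∪
        {x | Right L a τ (fun n => W (-n) + ε * x (-n))} := by
    rintro x ⟨E, ψ, h, h', h'' | h''⟩
    · exact Or.inl ⟨E, ψ, h, h', h''⟩
    · refine Or.inr ⟨E, fun n => ψ (-n), isEig_refl h, ?_, h''⟩
      simpa using h'
  calc PZ {x | Bad1 L a τ (fun n => W n + ε * x n)}
      ≤ PZ {x | Right L a τ (fun n => W n + ε * x n)} +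
        PZ {x | Right L a τ (fun n => W (-n) + ε * x (-n))} :=
        (measure_mono hsub).trans (measure_union_le _ _)
    _ ≤ ENNReal.ofReal (16 * C * R ^ 2 / (ε ^ 3 * a ^ 2 * τ) * (1 - c * ε ^ 2) ^ L) +
        ENNReal.ofReal (16 * C * R ^ 2 / (ε ^ 3 * a ^ 2 * τ) * (1 - c * ε ^ 2) ^ L) := by
        rw [← hl2]
        exact add_le_add hr hl
    _ = ENNReal.ofReal (32 * C * R ^ 2 / (ε ^ 3 * a ^ 2 * τ) * (1 - c * ε ^ 2) ^ L) := by
        rw [← ENNReal.ofReal_add (by positivity) (by positivity)]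
        congr 1
        ring

end Pool.Agent.W641.LP
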