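import Pool.Agent.H695R3.PP.Stmts

/-!
# Inversion, averages and the contraction (TaskIso, TaskAvg, TaskContr)
-/

set_option autoImplicit false

open scoped BigOperators ENNReal
open MeasureTheory

namespace Pool.Agent.W641.LP

open Pool.Agent.H695R3.PP

lemma measurable_UR {c : ℝ} {g : ℝ → ℝ≥0∞} (hg : Measurable g) : Measurable (UR c g) := by
  unfold UR
  exact (by fun_prop : Measurable fun z : ℝ => ENNReal.ofReal |z|⁻¹).mul
    (hg.comp (by fun_prop))

lemma UR_sq (c : ℝ) (g : ℝ → ℝ≥0∞) (z : ℝ) :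
    UR c g z ^ 2 = ENNReal.ofReal |(z ^ 2)⁻¹| * (fun y => g y ^ 2) (c - z⁻¹) := by
  unfold UR
  rw [mul_pow, ← ENNReal.ofReal_pow (by positivity)]
  congr 2
  rw [abs_inv, abs_pow, inv_pow]

lemma subst {s : Set ℝ} (hs : MeasurableSet s) (h0 : ∀ z ∈ s, z ≠ 0) (c : ℝ) (g : ℝ → ℝ≥0∞) :
    ∫⁻ z in s, UR c g z ^ 2 = ∫⁻ y in (fun z : ℝ => c - z⁻¹) '' s, g y ^ 2 := by
  rw [lintegral_image_eq_lintegral_abs_deriv_mul hs (f' := fun z => (z ^ 2)⁻¹)]
  · exact lintegral_congr fun z => UR_sq c g z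
  · intro z hz
    have h1 := ((hasDerivAt_inv (h0 z hz)).const_sub c).hasDerivWithinAt (s := s)
    simpa using h1
  · intro z _ z' _ h
    have : z⁻¹ = z'⁻¹ := by
      have h' : c - z⁻¹ = c - z'⁻¹ := h
      linarith
    exact inv_injective this

theorem taskIso : TaskIso := by
  intro c g _
  constructor
  · have h1 := subst (s := {0}ᶜ) (measurableSet_singleton 0).compl (fun z hz => hz) c g
    have h2 : (fun z : ℝ => c - z⁻¹) '' {0}ᶜ = {c}ᶜ := by
      ext y
      constructor
      · rintro ⟨z, hz, rfl⟩ h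
        have h' : c - z⁻¹ = c := h
        have h3 : z⁻¹ = 0 := by linarith
        exact hz (inv_eq_zero.1 h3)
      · intro hy
        have hy' : c - y ≠ 0 := fun h => hy (by rw [Set.mem_singleton_iff]; linarith)
        refine ⟨(c - y)⁻¹, inv_ne_zero hy', ?_⟩
        simp
    rw [h2, restrict_compl_singleton, restrict_compl_singleton] at h1
    exact h1
  · rw [subst (measurableSet_lt measurable_const (by fun_prop)) (by
      intro z hz h
      rw [h] at hz
      have hz' : (1 : ℝ) < |0| := hz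
      norm_num at hz') c g]
    apply lintegral_mono_set
    rintro _ ⟨z, hz, rfl⟩
    have hz' : 1 < |z| := hz
    have : |z⁻¹| ≤ 1 := by
      rw [abs_inv]
      exact inv_le_one_of_one_le₀ hz'.le
    obtain ⟨h1, h2⟩ := abs_le.1 this
    constructor <;> simp only <;> linarith

lemma sq_lintegral_le {α : Type*} [MeasurableSpace α] {μ : Measure α} [IsProbabilityMeasure μ]
    {h : α → ℝ≥0∞} (hh : Measurable h) : (∫⁻ s, h s ∂μ) ^ 2 ≤ ∫⁻ s, h s ^ 2 ∂μ := by
  have h1 := ENNReal.lintegral_mul_le_Lp_mul_Lq μ (p := 2) (q := 2) Real.HolderConjugate.two_two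
    hh.aemeasurable (g := fun _ => 1) aemeasurable_const
  simp only [Pi.mul_apply, mul_one, ENNReal.one_rpow, lintegral_const, measure_univ] at h1
  calc (∫⁻ s, h s ∂μ) ^ 2 ≤ ((∫⁻ s, h s ^ (2 : ℝ) ∂μ) ^ ((1 : ℝ) / 2)) ^ 2 := by gcongr
    _ = ∫⁻ s, h s ^ 2 ∂μ := by
      rw [← ENNReal.rpow_natCast, ← ENNReal.rpow_mul]
      norm_num

lemma measurable_avg {ε : ℝ} {g : ℝ → ℝ≥0∞} (hg : Measurable g) : Measurable (avg ε g) := by
  unfold avg
  exact Measurable.lintegral_prod_right' (f := fun p : ℝ × ℝ => g (p.1 + ε * p.2))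
    (hg.comp (by fun_prop))

lemma ae_U : ∀ᵐ s ∂U, |s| ≤ 1 := by
  unfold U
  apply Measure.ae_smul_measure
  rw [ae_restrict_iff' measurableSet_Icc]
  exact Filter.Eventually.of_forall fun s hs => abs_le.2 hs

lemma avg_sq_le {ε : ℝ} {g : ℝ → ℝ≥0∞} (hg : Measurable g) (x : ℝ) :
    avg ε g x ^ 2 ≤ ∫⁻ s, g (x + ε * s) ^ 2 ∂U :=
  sq_lintegral_le (hg.comp (by fun_prop))

theorem taskAvg : TaskAvg := by
  intro ε g hε hε1 hg
  have hg2 : Measurable fun p : ℝ × ℝ => g (p.1 + ε * p.2) ^ 2 := by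
    exact (hg.comp (by fun_prop)).pow_const 2
  refine ⟨measurable_avg hg, ?_, ?_, ?_⟩
  · unfold nsqL
    calc ∫⁻ x, avg ε g x ^ 2 ≤ ∫⁻ x, ∫⁻ s, g (x + ε * s) ^ 2 ∂U :=
          lintegral_mono fun x => avg_sq_le hg x
      _ = ∫⁻ s, (∫⁻ x, g (x + ε * s) ^ 2) ∂U := lintegral_lintegral_swap hg2.aemeasurable
      _ = ∫⁻ _, (∫⁻ x, g x ^ 2) ∂U := by
          refine lintegral_congr fun s => ?_
          exact lintegral_add_right_eq_self (fun x => g x ^ 2) (ε * s)
      _ = ∫⁻ x, g x ^ 2 := by rw [lintegral_const, measure_univ, mul_one]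
  · intro c
    calc ∫⁻ y in Set.Icc (c - 1) (c + 1), avg ε g y ^ 2
        ≤ ∫⁻ y in Set.Icc (c - 1) (c + 1), ∫⁻ s, g (y + ε * s) ^ 2 ∂U :=
          lintegral_mono fun x => avg_sq_le hg x
      _ = ∫⁻ s, (∫⁻ y in Set.Icc (c - 1) (c + 1), g (y + ε * s) ^ 2) ∂U :=
          lintegral_lintegral_swap hg2.aemeasurable
      _ ≤ ∫⁻ _, (∫⁻ x in Set.Icc (c - 2) (c + 2), g x ^ 2) ∂U := by
          apply lintegral_mono_ae
          filter_upwards [ae_U] with s hs
          rw [← lintegral_indicator measurableSet_Icc, ← lintegral_indicator measurableSet_Icc,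
            ← lintegral_add_right_eq_self
              ((Set.Icc (c - 2) (c + 2)).indicator fun x => g x ^ 2) (ε * s)]
          apply lintegral_mono
          intro y
          by_cases hy : y ∈ Set.Icc (c - 1) (c + 1)
          · have h1 : |ε * s| ≤ 1 := by
              rw [abs_mul, abs_of_pos hε]
              nlinarith [abs_nonneg s]
            obtain ⟨h2, h3⟩ := abs_le.1 h1
            rw [Set.indicator_of_mem hy]
            simp only
            rw [Set.indicator_of_mem]
            constructor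
            · linarith [hy.1]
            · linarith [hy.2]
          · rw [Set.indicator_of_notMem hy]
            exact zero_le
      _ = ∫⁻ x in Set.Icc (c - 2) (c + 2), g x ^ 2 := by
          rw [lintegral_const, measure_univ, mul_one]
  · intro x
    have h1 : ∫⁻ s, g (x + ε * s) ^ 2 ∂U ≤ ENNReal.ofReal (1 / ε) * nsqL g := by
      unfold U
      rw [lintegral_smul_measure]
      calc ENNReal.ofReal (1 / 2) • ∫⁻ s in Set.Icc (-1) 1, g (x + ε * s) ^ 2
          ≤ 1 * ∫⁻ s, g (x + ε * s) ^ 2 := by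
            rw [smul_eq_mul]
            gcongr
            · rw [← ENNReal.ofReal_one]
              exact ENNReal.ofReal_le_ofReal (by norm_num)
            · exact Measure.restrict_le_self
        _ = ENNReal.ofReal (1 / ε) * nsqL g := by
            rw [one_mul]
            have h2 : Measure.map (fun s : ℝ => x + ε * s) volume =
                ENNReal.ofReal (1 / ε) • volume := by
              have h3 : (fun s : ℝ => x + ε * s) = (fun s => x + s) ∘ fun s => ε * s := rfl
              rw [h3, ← Measure.map_map (by fun_prop) (by fun_prop),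
                Real.map_volume_mul_left hε.ne', Measure.map_smul, map_add_left_eq_self,
                one_div, abs_of_pos (inv_pos.2 hε)]
            have h4 : ∫⁻ s, g (x + ε * s) ^ 2 = ∫⁻ y, g y ^ 2 ∂(Measure.map
                (fun s : ℝ => x + ε * s) volume) := by
              rw [lintegral_map (hg.pow_const 2) (by fun_prop)]
            rw [h4, h2, lintegral_smul_measure, smul_eq_mul]
            rfl
    have h2 : avg ε g x ^ 2 ≤ ENNReal.ofReal (1 / ε) * nsqL g := (avg_sq_le hg x).trans h1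
    calc avg ε g x = (avg ε g x ^ 2) ^ (1 / 2 : ℝ) := by
          rw [← ENNReal.rpow_natCast, ← ENNReal.rpow_mul]
          norm_num
      _ ≤ (ENNReal.ofReal (1 / ε) * nsqL g) ^ (1 / 2 : ℝ) := by gcongr
      _ = ENNReal.ofReal (1 / Real.sqrt ε) * nsqL g ^ (1 / 2 : ℝ) := by
          rw [ENNReal.mul_rpow_of_nonneg _ _ (by norm_num), ENNReal.ofReal_rpow_of_pos (by positivity)]
          congr 2
          rw [← Real.sqrt_eq_rpow, Real.sqrt_div zero_le_one, Real.sqrt_one]

theorem taskContr (h1 : TaskIso) (h2 : TaskAvg) (h3 : TaskDich) : TaskContr := by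
  obtain ⟨C, hC, hD⟩ := h3
  refine ⟨5 / (16 * C), by positivity, by rw [div_le_iff₀ (by positivity)]; linarith, ?_⟩
  intro ε c₁ g hε hε1 hg
  have hεε : ε ^ 2 ≤ 1 := pow_le_one₀ hε.le hε1
  have hc : 5 / (16 * C) ≤ 5 / 16 := by
    rw [div_le_div_iff₀ (by positivity) (by norm_num)]
    linarith
  have hc0 : 0 < 5 / (16 * C) := by positivity
  have hpos : 0 < 1 - 5 / (16 * C) * ε ^ 2 := by nlinarith [sq_nonneg ε]
  rcases eq_or_ne (nsqL g) ⊤ with hG | hG
  · rw [hG, ENNReal.mul_top (by simpa using hpos)]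
    exact le_top
  · have hh := h2 ε g hε hε1 hg
    have hu : Measurable (UR c₁ (avg ε g)) := measurable_UR hh.1
    have hiso := h1 c₁ (avg ε g) hh.1
    have hF := (h2 ε _ hε hε1 hu).2.1
    have hd1 := hD ε g (c₁ - 2) hε hε1 hg
    have hd2 := hD ε (UR c₁ (avg ε g)) (-2) hε hε1 hu
    rw [show c₁ - 2 + 4 = c₁ + 2 by ring] at hd1
    rw [show (-2 : ℝ) + 4 = 2 by norm_num] at hd2
    have hw := hh.2.2.1 c₁
    have hsplit : nsqL (UR c₁ (avg ε g)) ≤ (∫⁻ x in Set.Icc (c₁ - 2) (c₁ + 2), g x ^ 2) +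
        ∫⁻ x in Set.Icc (-2) 2, UR c₁ (avg ε g) x ^ 2 := by
      unfold nsqL
      rw [← lintegral_add_compl (fun x => UR c₁ (avg ε g) x ^ 2)
        (A := {z : ℝ | 1 < |z|}) (measurableSet_lt measurable_const (by fun_prop))]
      refine add_le_add (hiso.2.trans hw) (lintegral_mono_set ?_)
      intro z hz
      have hz' : |z| ≤ 1 := not_lt.1 hz
      obtain ⟨k1, k2⟩ := abs_le.1 hz'
      exact ⟨by linarith, by linarith⟩
    rw [hiso.1] at hF hd2 hsplit
    set G := nsqL g
    set H := nsqL (avg ε g)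
    set F := nsqL (avg ε (UR c₁ (avg ε g)))
    set I1 := ∫⁻ x in Set.Icc (c₁ - 2) (c₁ + 2), g x ^ 2
    set I2 := ∫⁻ x in Set.Icc (-2) 2, UR c₁ (avg ε g) x ^ 2
    have hHG : H ≤ G := hh.2.1
    have hH : H ≠ ⊤ := ne_top_of_le_ne_top hG hHG
    have hFt : F ≠ ⊤ := ne_top_of_le_ne_top hH hF
    have hI1 : I1 ≠ ⊤ := ne_top_of_le_ne_top hG (setLIntegral_le_lintegral _ _)
    have hI2 : I2 ≠ ⊤ := by
      refine ne_top_of_le_ne_top hH ?_
      rw [show H = nsqL (UR c₁ (avg ε g)) from hiso.1.symm]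
      exact setLIntegral_le_lintegral _ _
    lift G to NNReal using hG with G'
    lift H to NNReal using hH with H'
    lift F to NNReal using hFt with F'
    lift I1 to NNReal using hI1 with I1'
    lift I2 to NNReal using hI2 with I2'
    have hK : 0 < C / ε ^ 2 := by positivity
    have e1 : (I1' : ℝ) + C / ε ^ 2 * H' ≤ 1 / 8 * G' + C / ε ^ 2 * G' := by
      unfold ENNReal.ofReal at hd1
      have h : I1' + (C / ε ^ 2).toNNReal * H' ≤
        (1 / 8 : ℝ).toNNReal * G' + (C / ε ^ 2).toNNReal * G' := by exact_mod_cast hd1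
      have h' := NNReal.coe_le_coe.2 h
      push_cast at h'
      rw [Real.coe_toNNReal _ hK.le, Real.coe_toNNReal _ (by norm_num)] at h'
      exact h'
    have e2 : (I2' : ℝ) + C / ε ^ 2 * F' ≤ 1 / 8 * H' + C / ε ^ 2 * H' := by
      unfold ENNReal.ofReal at hd2
      have h : I2' + (C / ε ^ 2).toNNReal * F' ≤
        (1 / 8 : ℝ).toNNReal * H' + (C / ε ^ 2).toNNReal * H' := by exact_mod_cast hd2
      have h' := NNReal.coe_le_coe.2 h
      push_cast at h'
      rw [Real.coe_toNNReal _ hK.le, Real.coe_toNNReal _ (by norm_num)] at h'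
      exact h'
    have e3 : (H' : ℝ) ≤ I1' + I2' := by exact_mod_cast hsplit
    have e4 : (H' : ℝ) ≤ G' := by exact_mod_cast hHG
    have e5 : (F' : ℝ) ≤ H' := by exact_mod_cast hF
    have key : (F' : ℝ) ≤ (1 - 5 / (16 * C) * ε ^ 2) * G' := by
      rcases le_total ((G' : ℝ) / 2) H' with h | h
      · have k1 : 5 / 16 * (G' : ℝ) ≤ C / ε ^ 2 * (G' - F') := by nlinarith
        have k2 : 5 / (16 * C) * ε ^ 2 * (G' : ℝ) ≤ G' - F' := by
          have : 5 / (16 * C) * ε ^ 2 * (G' : ℝ) = (5 / 16 * (G' : ℝ)) / (C / ε ^ 2) := by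
            field_simp
          rw [this, div_le_iff₀ hK]
          linarith
        linarith
      · have k1 : 5 / (16 * C) * ε ^ 2 ≤ 1 / 2 := by nlinarith [sq_nonneg ε]
        have k2 : (0 : ℝ) ≤ G' := G'.2
        nlinarith
    have key2 : F' ≤ (1 - 5 / (16 * C) * ε ^ 2).toNNReal * G' := by
      rw [← NNReal.coe_le_coe]
      push_cast
      rw [Real.coe_toNNReal _ hpos.le]
      exact key
    unfold ENNReal.ofReal
    exact_mod_cast key2

end Pool.Agent.W641.LP
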