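import Pool.Agent.W785.DF.Stubs2
import Pool.Agent.H459R3.NS.Phys2

/-!
# Bessel's inequality, linearity of Fourier coefficients, the estimate of `rho`
-/

set_option autoImplicit false
set_option maxHeartbeats 1000000

open MeasureTheory Set
open scoped ContDiff InnerProductSpace

namespace Pool.Agent.W785.DF.W641Bes

open Pool.Agent.W785.DF
open H459R3.NS (V K3 Per pd fr ee cube SP integrableOn_cube ee_continuous ee_neg ee_add_left
  integral_ee cube_finite volume_cube fc)

theorem conj_fr (f : V → ℝ) (k : K3) :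
    (starRingEnd ℂ) (fr f k) = ∫ x in cube, ee k x * (f x : ℂ) := by
  unfold H459R3.NS.fr H459R3.NS.fc
  rw [← integral_conj]
  congr 1
  funext x
  rw [map_mul, ee_neg, Complex.conj_conj, Complex.conj_ofReal]

theorem bessel1 (f : V → ℝ) (hf : Continuous f) (G : Finset K3) :
    ∑ k ∈ G, ‖fr f k‖ ^ 2 ≤ ∫ x in cube, f x ^ 2 := by
  classical
  have hfin := cube_finite
  set c : K3 → ℂ := fr f with hc
  set p : V → ℂ := fun x => ∑ k ∈ G, c k * ee k x with hp
  have hfc : Continuous fun x => (f x : ℂ) := Complex.continuous_ofReal.comp hf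
  have hpc : Continuous p := by
    refine continuous_finsetSum _ fun k _ => continuous_const.mul (ee_continuous k)
  -- the mixed term
  have E1 : ∫ x in cube, f x * (p x).re = ∑ k ∈ G, ‖c k‖ ^ 2 := by
    have h1 : ∫ x in cube, (f x : ℂ) * p x = ∑ k ∈ G, ((‖c k‖ ^ 2 : ℝ) : ℂ) := by
      have h2 : ∀ x, (f x : ℂ) * p x = ∑ k ∈ G, c k * (ee k x * (f x : ℂ)) := by
        intro x
        simp only [hp]
        rw [Finset.mul_sum]
        exact Finset.sum_congr rfl fun k _ => by ring
      simp only [h2]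
      rw [integral_finsetSum]
      · refine Finset.sum_congr rfl fun k _ => ?_
        rw [integral_const_mul, ← conj_fr, Complex.mul_conj, Complex.normSq_eq_norm_sq]
      · intro k _
        exact integrableOn_cube (continuous_const.mul ((ee_continuous k).mul hfc))
    have h3 : ∫ x in cube, f x * (p x).re = (∫ x in cube, (f x : ℂ) * p x).re := by
      have h4 := integral_re (𝕜 := ℂ) (μ := volume.restrict cube)
        (f := fun x => (f x : ℂ) * p x) (integrableOn_cube (hfc.mul hpc))
      refine Eq.trans ?_ h4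
      congr 1
      funext x
      simp
    rw [h3, h1, ← Complex.ofReal_sum, Complex.ofReal_re]
  -- the square
  have E2 : ∫ x in cube, ‖p x‖ ^ 2 = ∑ k ∈ G, ‖c k‖ ^ 2 := by
    have h1 : ∫ x in cube, ((‖p x‖ ^ 2 : ℝ) : ℂ) = ∑ k ∈ G, ((‖c k‖ ^ 2 : ℝ) : ℂ) := by
      have h2 : ∀ x, ((‖p x‖ ^ 2 : ℝ) : ℂ) =
          ∑ k ∈ G, ∑ l ∈ G, (c k * (starRingEnd ℂ) (c l)) * ee (k + -l) x := by
        intro x
        rw [← Complex.normSq_eq_norm_sq, ← Complex.mul_conj]
        simp only [hp]
        rw [map_sum, Finset.sum_mul_sum]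
        refine Finset.sum_congr rfl fun k _ => Finset.sum_congr rfl fun l _ => ?_
        rw [ee_add_left, ee_neg, map_mul]
        ring
      simp only [h2]
      rw [integral_finsetSum]
      · refine Finset.sum_congr rfl fun k hk => ?_
        rw [integral_finsetSum]
        · simp only [integral_const_mul, integral_ee]
          rw [Finset.sum_eq_single k]
          · rw [add_neg_cancel, if_pos rfl, mul_one, Complex.mul_conj, Complex.normSq_eq_norm_sq]
          · intro l _ hlk
            rw [if_neg, mul_zero]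
            intro h
            apply hlk
            rw [← sub_eq_add_neg, sub_eq_zero] at h
            exact h.symm
          · intro h
            exact absurd hk h
        · intro l _
          exact integrableOn_cube (continuous_const.mul (ee_continuous _))
      · intro k _
        refine integrableOn_cube (continuous_finsetSum _ fun l _ =>
          continuous_const.mul (ee_continuous _))
    rw [integral_complex_ofReal, ← Complex.ofReal_sum] at h1
    exact_mod_cast h1
  have hexp : ∀ x, ‖(f x : ℂ) - p x‖ ^ 2 = f x ^ 2 - 2 * (f x * (p x).re) + ‖p x‖ ^ 2 := by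
    intro x
    rw [← Complex.normSq_eq_norm_sq, ← Complex.normSq_eq_norm_sq, Complex.normSq_apply,
      Complex.normSq_apply]
    simp
    ring
  have h0 : 0 ≤ ∫ x in cube, ‖(f x : ℂ) - p x‖ ^ 2 := integral_nonneg fun x => sq_nonneg _
  simp only [hexp] at h0
  have i1 : Integrable (fun x => f x ^ 2) (volume.restrict cube) := integrableOn_cube (hf.pow 2)
  have i2 : Integrable (fun x => 2 * (f x * (p x).re)) (volume.restrict cube) :=
    integrableOn_cube (continuous_const.mul (hf.mul (Complex.continuous_re.comp hpc)))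
  have i3 : Integrable (fun x => ‖p x‖ ^ 2) (volume.restrict cube) :=
    integrableOn_cube (hpc.norm.pow 2)
  have h4 : ∫ x in cube, (f x ^ 2 - 2 * (f x * (p x).re) + ‖p x‖ ^ 2) =
      (∫ x in cube, f x ^ 2) - 2 * (∫ x in cube, f x * (p x).re) + ∫ x in cube, ‖p x‖ ^ 2 := by
    have i12 : Integrable (fun x => f x ^ 2 - 2 * (f x * (p x).re)) (volume.restrict cube) :=
      i1.sub i2
    rw [integral_add i12 i3, integral_sub i1 i2, integral_const_mul]
  rw [h4, E1, E2] at h0
  linarith

theorem norm_frv (v : V → V) (k : K3) : ‖frv v k‖ ^ 2 = ∑ i, ‖fr (fun x => v x i) k‖ ^ 2 := by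
  rw [EuclideanSpace.norm_sq_eq]
  rfl

theorem bes : S_bes := by
  refine ⟨?_, ?_, ?_⟩
  · intro v hv _ G
    have hvi : ∀ i, Continuous fun x => v x i := fun i => (continuous_apply i).comp hv
    have h1 : ∑ k ∈ G, ‖frv v k‖ ^ 2 = ∑ i, ∑ k ∈ G, ‖fr (fun x => v x i) k‖ ^ 2 := by
      simp only [norm_frv]
      exact Finset.sum_comm
    rw [h1, integral_finsetSum]
    · exact Finset.sum_le_sum fun i _ => bessel1 _ (hvi i) G
    · intro i _
      exact integrableOn_cube ((hvi i).pow 2)
  · intro v w hv hw k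
    have hvi : ∀ i, Continuous fun x => v x i := fun i => (continuous_apply i).comp hv
    have hwi : ∀ i, Continuous fun x => w x i := fun i => (continuous_apply i).comp hw
    have h1 : ∀ i, fr (fun x => (v + w) x i) k = fr (fun x => v x i) k + fr (fun x => w x i) k := by
      intro i
      unfold H459R3.NS.fr H459R3.NS.fc
      rw [← integral_add]
      · congr 1
        funext x
        simp only [Pi.add_apply]
        push_cast
        ring
      · exact integrableOn_cube ((ee_continuous _).mul (Complex.continuous_ofReal.comp (hvi i)))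
      · exact integrableOn_cube ((ee_continuous _).mul (Complex.continuous_ofReal.comp (hwi i)))
    unfold frv
    ext i
    exact h1 i
  · intro v k
    have h1 : ∀ i, fr (fun x => (-v) x i) k = -fr (fun x => v x i) k := by
      intro i
      unfold H459R3.NS.fr H459R3.NS.fc
      rw [← integral_neg]
      congr 1
      funext x
      simp only [Pi.neg_apply]
      push_cast
      ring
    unfold frv
    ext i
    exact h1 i

/-! ### the estimate of `rho` -/

theorem sq_sum3 (f : Fin 3 → ℝ) : (∑ j, |f j|) ^ 2 ≤ 3 * ∑ j, f j ^ 2 := by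
  rw [Fin.sum_univ_three, Fin.sum_univ_three, ← sq_abs (f 0), ← sq_abs (f 1), ← sq_abs (f 2)]
  nlinarith [sq_nonneg (|f 0| - |f 1|), sq_nonneg (|f 1| - |f 2|), sq_nonneg (|f 0| - |f 2|)]

theorem rho_est : S_trig → S_rho := by
  intro htrig
  refine ⟨22, by norm_num, ?_⟩
  intro ν z z' δ hν hz hδ S b hb r hr hrp hbd
  obtain ⟨hWs, hWp, -, -, -, -, hL1, hL2⟩ := htrig S b hb
  set W : V → V := TP S b with hW
  have hri : ∀ i, SP (fun y => r y i) := fun i =>
    ⟨contDiff_pi.mp hr i, fun j x => congrFun (hrp j x) i⟩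
  have hWi : ∀ i, SP (fun y => W y i) := fun i =>
    ⟨contDiff_pi.mp hWs i, fun j x => congrFun (hWp j x) i⟩
  have cr : ∀ i, Continuous fun x => r x i := fun i => (hri i).smooth.continuous
  have cW : ∀ i, Continuous fun x => W x i := fun i => (hWi i).smooth.continuous
  have cdr : ∀ i j, Continuous fun x => pd j (fun y => r y i) x := fun i j =>
    ((hri i).pd j).smooth.continuous
  have cddr : ∀ i j, Continuous fun x => pd j (pd j fun y => r y i) x := fun i j =>
    (((hri i).pd j).pd j).smooth.continuous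
  have cdW : ∀ i j, Continuous fun x => pd j (fun y => W y i) x := fun i j =>
    ((hWi i).pd j).smooth.continuous
  have cρ : Continuous (rho ν z z' W r) := by
    refine continuous_pi fun i => ?_
    unfold rho
    refine Continuous.add (Continuous.add (Continuous.add (Continuous.sub ?_ ?_) ?_) ?_) ?_
    · exact continuous_const.mul (cr i)
    · exact continuous_const.mul (continuous_finsetSum _ fun j _ => cddr i j)
    · exact continuous_const.mul (continuous_finsetSum _ fun j _ => (cW j).mul (cdr i j))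
    · exact continuous_const.mul (continuous_finsetSum _ fun j _ => (cr j).mul (cdW i j))
    · exact continuous_const.mul (continuous_finsetSum _ fun j _ => (cr j).mul (cdr i j))
  have pρ : Per (rho ν z z' W r) := by
    intro l x
    funext i
    unfold rho
    have a1 : ∀ i, r (x + Pi.single l 1) i = r x i := fun i => (hri i).per l x
    have a2 : ∀ i, W (x + Pi.single l 1) i = W x i := fun i => (hWi i).per l x
    have a3 : ∀ i j, pd j (fun y => r y i) (x + Pi.single l 1) = pd j (fun y => r y i) x :=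
      fun i j => ((hri i).pd j).per l x
    have a4 : ∀ i j, pd j (pd j fun y => r y i) (x + Pi.single l 1) =
        pd j (pd j fun y => r y i) x := fun i j => (((hri i).pd j).pd j).per l x
    have a5 : ∀ i j, pd j (fun y => W y i) (x + Pi.single l 1) = pd j (fun y => W y i) x :=
      fun i j => ((hWi i).pd j).per l x
    simp only [a1, a2, a3, a4, a5]
  refine ⟨cρ, pρ, fun G => ?_⟩
  refine (bes.1 _ cρ pρ G).trans ?_
  -- pointwise estimate
  set A : ℝ := |z'| + ν + 3 * δ with hA
  have hz2 : |z ^ 2| ≤ 1 := by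
    rw [abs_pow]
    exact pow_le_one₀ (abs_nonneg _) hz
  have hpt : ∀ x i, |rho ν z z' W r x i| ≤ δ * (A + ∑ j, |W x j| +
      ∑ j, |pd j (fun y => W y i) x|) := by
    intro x i
    have b1 : |z' * r x i| ≤ |z'| * δ := by
      rw [abs_mul]
      exact mul_le_mul_of_nonneg_left (hbd x i).1 (abs_nonneg _)
    have b2 : |ν * z * (∑ j, pd j (pd j fun y => r y i) x)| ≤ ν * δ := by
      rw [abs_mul, abs_mul, abs_of_pos hν]
      calc ν * |z| * |∑ j, pd j (pd j fun y => r y i) x| ≤ ν * 1 * δ := by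
            gcongr
            exact (hbd x i).2.2
        _ = ν * δ := by ring
    have b3 : |z * (∑ j, W x j * pd j (fun y => r y i) x)| ≤ δ * ∑ j, |W x j| := by
      rw [abs_mul]
      calc |z| * |∑ j, W x j * pd j (fun y => r y i) x|
          ≤ 1 * ∑ j, |W x j * pd j (fun y => r y i) x| := by
            gcongr
            exact Finset.abs_sum_le_sum_abs _ _
        _ ≤ 1 * ∑ j, |W x j| * δ := by
            gcongr with j
            rw [abs_mul]
            exact mul_le_mul_of_nonneg_left ((hbd x i).2.1 j) (abs_nonneg _)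
        _ = δ * ∑ j, |W x j| := by rw [← Finset.sum_mul]; ring
    have b4 : |z * (∑ j, r x j * pd j (fun y => W y i) x)| ≤
        δ * ∑ j, |pd j (fun y => W y i) x| := by
      rw [abs_mul]
      calc |z| * |∑ j, r x j * pd j (fun y => W y i) x|
          ≤ 1 * ∑ j, |r x j * pd j (fun y => W y i) x| := by
            gcongr
            exact Finset.abs_sum_le_sum_abs _ _
        _ ≤ 1 * ∑ j, δ * |pd j (fun y => W y i) x| := by
            gcongr with j
            rw [abs_mul]
            exact mul_le_mul_of_nonneg_right (hbd x j).1 (abs_nonneg _)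
        _ = δ * ∑ j, |pd j (fun y => W y i) x| := by rw [← Finset.mul_sum]; ring
    have b5 : |z ^ 2 * ∑ j, r x j * pd j (fun y => r y i) x| ≤ 3 * δ * δ := by
      rw [abs_mul]
      calc |z ^ 2| * |∑ j, r x j * pd j (fun y => r y i) x|
          ≤ 1 * ∑ j, |r x j * pd j (fun y => r y i) x| := by
            gcongr
            exact Finset.abs_sum_le_sum_abs _ _
        _ ≤ 1 * ∑ _j : Fin 3, δ * δ := by
            gcongr with j
            rw [abs_mul]
            exact mul_le_mul (hbd x j).1 ((hbd x i).2.1 j) (abs_nonneg _) hδ.le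
        _ = 3 * δ * δ := by simp; ring
    unfold rho
    have t1 := abs_add_le (z' * r x i - ν * z * (∑ j, pd j (pd j fun y => r y i) x)
      + z * (∑ j, W x j * pd j (fun y => r y i) x) + z * (∑ j, r x j * pd j (fun y => W y i) x))
      (z ^ 2 * ∑ j, r x j * pd j (fun y => r y i) x)
    have t2 := abs_add_le (z' * r x i - ν * z * (∑ j, pd j (pd j fun y => r y i) x)
      + z * (∑ j, W x j * pd j (fun y => r y i) x)) (z * (∑ j, r x j * pd j (fun y => W y i) x))
    have t3 := abs_add_le (z' * r x i - ν * z * (∑ j, pd j (pd j fun y => r y i) x))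
      (z * (∑ j, W x j * pd j (fun y => r y i) x))
    have t4 := abs_sub (z' * r x i) (ν * z * (∑ j, pd j (pd j fun y => r y i) x))
    have t5 : δ * (A + ∑ j, |W x j| + ∑ j, |pd j (fun y => W y i) x|) = |z'| * δ + ν * δ +
        δ * ∑ j, |W x j| + δ * ∑ j, |pd j (fun y => W y i) x| + 3 * δ * δ := by
      rw [hA]; ring
    rw [t5]
    linarith
  have hsqp : ∀ x, ∑ i, rho ν z z' W r x i ^ 2 ≤ δ ^ 2 * (9 * A ^ 2 + 27 * ∑ i, W x i ^ 2 +
      9 * ∑ i, ∑ j, pd j (fun y => W y i) x ^ 2) := by
    intro x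
    have h1 : ∀ i, rho ν z z' W r x i ^ 2 ≤ δ ^ 2 * (3 * A ^ 2 + 9 * ∑ j, W x j ^ 2 +
        9 * ∑ j, pd j (fun y => W y i) x ^ 2) := by
      intro i
      have h2 := hpt x i
      have h3 := sq_sum3 (fun j => W x j)
      have h4 := sq_sum3 (fun j => pd j (fun y => W y i) x)
      beta_reduce at h3 h4
      set P := ∑ j, |W x j|
      set Q := ∑ j, |pd j (fun y => W y i) x|
      calc rho ν z z' W r x i ^ 2 = |rho ν z z' W r x i| ^ 2 := (sq_abs _).symm
        _ ≤ (δ * (A + P + Q)) ^ 2 := pow_le_pow_left₀ (abs_nonneg _) h2 2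
        _ = δ ^ 2 * (A + P + Q) ^ 2 := by ring
        _ ≤ δ ^ 2 * (3 * A ^ 2 + 3 * P ^ 2 + 3 * Q ^ 2) := by
            refine mul_le_mul_of_nonneg_left ?_ (sq_nonneg _)
            nlinarith [sq_nonneg (A - P), sq_nonneg (P - Q), sq_nonneg (A - Q)]
        _ ≤ _ := by
            refine mul_le_mul_of_nonneg_left ?_ (sq_nonneg _)
            linarith
    refine (Finset.sum_le_sum fun i _ => h1 i).trans (le_of_eq ?_)
    rw [← Finset.mul_sum, Finset.sum_add_distrib, Finset.sum_const, Finset.card_univ,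
      Fintype.card_fin, ← Finset.mul_sum, nsmul_eq_mul]
    push_cast
    ring
  have hfin := cube_finite
  have i1 : Integrable (fun x => ∑ i, W x i ^ 2) (volume.restrict cube) :=
    integrableOn_cube (continuous_finsetSum _ fun i _ => (cW i).pow 2)
  have i2 : Integrable (fun x => ∑ i, ∑ j, pd j (fun y => W y i) x ^ 2) (volume.restrict cube) :=
    integrableOn_cube (continuous_finsetSum _ fun i _ => continuous_finsetSum _ fun j _ =>
      (cdW i j).pow 2)
  have i0 : Integrable (fun x => ∑ i, rho ν z z' W r x i ^ 2) (volume.restrict cube) :=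
    integrableOn_cube (continuous_finsetSum _ fun i _ =>
      (((continuous_apply i).comp cρ)).pow 2)
  have h5 : ∫ x in cube, ∑ i, rho ν z z' W r x i ^ 2 ≤
      ∫ x in cube, δ ^ 2 * (9 * A ^ 2 + 27 * ∑ i, W x i ^ 2 +
        9 * ∑ i, ∑ j, pd j (fun y => W y i) x ^ 2) := by
    refine integral_mono i0 ?_ hsqp
    exact (((integrable_const _).add (i1.const_mul 27)).add (i2.const_mul 9)).const_mul _
  have h6 : ∫ x in cube, δ ^ 2 * (9 * A ^ 2 + 27 * ∑ i, W x i ^ 2 +
        9 * ∑ i, ∑ j, pd j (fun y => W y i) x ^ 2) =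
      δ ^ 2 * (9 * A ^ 2 + 27 * ∑ k ∈ S, ‖b k‖ ^ 2 +
        9 * (4 * Real.pi ^ 2 * ∑ k ∈ S, sq k * ‖b k‖ ^ 2)) := by
    have j1 : Integrable (fun x => 9 * A ^ 2 + 27 * ∑ i, W x i ^ 2) (volume.restrict cube) :=
      (integrable_const _).add (i1.const_mul 27)
    have j2 : Integrable (fun x => 9 * ∑ i, ∑ j, pd j (fun y => W y i) x ^ 2)
        (volume.restrict cube) := i2.const_mul 9
    have j3 : Integrable (fun x => 27 * ∑ i, W x i ^ 2) (volume.restrict cube) := i1.const_mul 27
    have e1 : ∫ x in cube, 27 * ∑ i, W x i ^ 2 = 27 * ∑ k ∈ S, ‖b k‖ ^ 2 := by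
      rw [integral_const_mul, hL1]
    have e2 : ∫ x in cube, 9 * ∑ i, ∑ j, pd j (fun y => W y i) x ^ 2 =
        9 * (4 * Real.pi ^ 2 * ∑ k ∈ S, sq k * ‖b k‖ ^ 2) := by
      rw [integral_const_mul, hL2]
    have e3 : ∫ _x in cube, 9 * A ^ 2 = 9 * A ^ 2 := by
      rw [integral_const, measureReal_restrict_apply_univ]
      simp [Measure.real, volume_cube]
    rw [integral_const_mul, integral_add j1 j2, integral_add (integrable_const _) j3, e1, e2, e3]
  refine h5.trans ?_
  rw [h6]
  have hX0 : 0 ≤ ∑ k ∈ S, ‖b k‖ ^ 2 := Finset.sum_nonneg fun k _ => sq_nonneg _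
  have hY0 : 0 ≤ ∑ k ∈ S, sq k * ‖b k‖ ^ 2 := Finset.sum_nonneg fun k _ =>
    mul_nonneg (Finset.sum_nonneg fun _ _ => sq_nonneg _) (sq_nonneg _)
  have hX1 := Real.sq_sqrt hX0
  have hY1 := Real.sq_sqrt hY0
  set X := Real.sqrt (∑ k ∈ S, ‖b k‖ ^ 2)
  set Y := Real.sqrt (∑ k ∈ S, sq k * ‖b k‖ ^ 2)
  have hX2 : 0 ≤ X := Real.sqrt_nonneg _
  have hY2 : 0 ≤ Y := Real.sqrt_nonneg _
  rw [← hX1, ← hY1]
  have hz'0 : 0 ≤ |z'| := abs_nonneg _
  set T := |z'| + ν + δ + X + Y with hT
  have hT0 : 0 ≤ T := by positivity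
  have k1 : A ^ 2 ≤ (3 * T) ^ 2 := by
    refine pow_le_pow_left₀ (by rw [hA]; positivity) ?_ 2
    rw [hA, hT]
    linarith
  have k2 : X ^ 2 ≤ T ^ 2 := by
    refine pow_le_pow_left₀ hX2 ?_ 2
    rw [hT]; linarith
  have k3 : Y ^ 2 ≤ T ^ 2 := by
    refine pow_le_pow_left₀ hY2 ?_ 2
    rw [hT]; linarith
  have hpi2 : Real.pi ^ 2 ≤ 10 := by
    have h7 := Real.pi_lt_d2
    have h8 := Real.pi_pos
    calc Real.pi ^ 2 ≤ 3.15 ^ 2 := pow_le_pow_left₀ h8.le h7.le 2
      _ ≤ 10 := by norm_num
  have k4 : Real.pi ^ 2 * Y ^ 2 ≤ 10 * T ^ 2 := mul_le_mul hpi2 k3 (sq_nonneg _) (by norm_num)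
  have k5 : 9 * A ^ 2 + 27 * X ^ 2 + 9 * (4 * Real.pi ^ 2 * Y ^ 2) ≤ 484 * T ^ 2 := by
    have e1 : (3 * T) ^ 2 = 9 * T ^ 2 := by ring
    rw [e1] at k1
    have e2 : 9 * (4 * Real.pi ^ 2 * Y ^ 2) = 36 * (Real.pi ^ 2 * Y ^ 2) := by ring
    rw [e2]
    linarith [sq_nonneg T]
  calc δ ^ 2 * (9 * A ^ 2 + 27 * X ^ 2 + 9 * (4 * Real.pi ^ 2 * Y ^ 2))
      ≤ δ ^ 2 * (484 * T ^ 2) := mul_le_mul_of_nonneg_left k5 (sq_nonneg _)
    _ = (22 * δ * T) ^ 2 := by ring

theorem main : S_bes ∧ (S_trig → S_rho) := ⟨bes, rho_est⟩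

end Pool.Agent.W785.DF.W641Bes
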