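import Pool.Agent.W785.DF.Stubs
import Pool.Agent.W785.DF.Alg

/-!
# The nonlinear term in Sobolev norms of order below `-1/2`
-/

set_option autoImplicit false

namespace Pool.Agent.W785.DF.W641Conv

open Pool.Agent.W785.DF
open H459R3.NS (V K3)

theorem sq_nn (k : K3) : 0 ≤ sq k := Finset.sum_nonneg fun _ _ => sq_nonneg _

theorem one_le_sq2 (k : K3) (hk : k ≠ 0) : 1 ≤ sq k := by
  obtain ⟨i, hi⟩ := Function.ne_iff.mp hk
  have hi' : k i ≠ 0 := hi
  have h1 : (1 : ℝ) ≤ (k i : ℝ) ^ 2 := by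
    have : (1 : ℤ) ≤ (k i) ^ 2 := by
      have := sq_pos_of_ne_zero hi'
      omega
    exact_mod_cast this
  refine h1.trans ?_
  exact Finset.single_le_sum (f := fun j => (k j : ℝ) ^ 2) (fun j _ => sq_nonneg _)
    (Finset.mem_univ i)

/-- one-dimensional sums -/
theorem summ1 (σ : ℝ) (hσ : 1 / 2 < σ) : Summable (fun n : ℤ => (1 + (n : ℝ) ^ 2) ^ (-σ)) := by
  have h1 : Summable (fun n : ℤ => |(n : ℝ)| ^ (-(2 * σ)) + if n = 0 then (1 : ℝ) else 0) := by
    refine (Real.summable_abs_int_rpow (by linarith : 1 < 2 * σ)).add ?_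
    exact (hasSum_ite_eq (0 : ℤ) (1 : ℝ)).summable
  refine Summable.of_nonneg_of_le (fun n => by positivity) (fun n => ?_) h1
  by_cases hn : n = 0
  · subst hn
    simp only [Int.cast_zero, abs_zero]
    rw [Real.zero_rpow (by linarith)]
    simp
  · rw [if_neg hn, add_zero]
    have hn0 : (0 : ℝ) < |(n : ℝ)| := by
      rw [abs_pos]
      exact_mod_cast hn
    have h2 : |(n : ℝ)| ^ (-(2 * σ)) = ((n : ℝ) ^ 2) ^ (-σ) := by
      rw [← sq_abs, ← Real.rpow_natCast, ← Real.rpow_mul hn0.le]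
      congr 1
      push_cast
      ring
    rw [h2]
    have h3 : (0 : ℝ) < (n : ℝ) ^ 2 := by
      rw [← sq_abs]; positivity
    exact Real.rpow_le_rpow_of_nonpos h3 (by linarith) (by linarith)

/-- lattice sums in dimension three -/
theorem lattice (τ : ℝ) (hτ : 3 / 2 < τ) : ∃ Z : ℝ, 0 < Z ∧ ∀ F : Finset K3,
    ∑ k ∈ F, (1 + sq k) ^ (-τ) ≤ Z := by
  set g : ℤ → ℝ := fun n => (1 + (n : ℝ) ^ 2) ^ (-(τ / 3)) with hg
  have hs : Summable g := summ1 (τ / 3) (by linarith)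
  have hg0 : ∀ n, 0 < g n := fun n => by simp only [hg]; positivity
  have hZ : 0 < ∑' n, g n := hs.tsum_pos (fun n => (hg0 n).le) 0 (hg0 0)
  refine ⟨(∑' n, g n) ^ 3, by positivity, fun F => ?_⟩
  have h1 : ∀ k : K3, (1 + sq k) ^ (-τ) ≤ ∏ i, g (k i) := by
    intro k
    have h2 : ∀ i, (1 + sq k) ^ (-(τ / 3)) ≤ g (k i) := by
      intro i
      simp only [hg]
      refine Real.rpow_le_rpow_of_nonpos (by positivity) ?_ (by linarith)
      have := Finset.single_le_sum (f := fun j => (k j : ℝ) ^ 2) (fun j _ => sq_nonneg _)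
        (Finset.mem_univ i)
      unfold sq
      linarith
    calc (1 + sq k) ^ (-τ) = ∏ _i : Fin 3, (1 + sq k) ^ (-(τ / 3)) := by
          have hk := sq_nn k
          rw [Finset.prod_const, Finset.card_univ, Fintype.card_fin, ← Real.rpow_natCast,
            ← Real.rpow_mul (by linarith)]
          congr 1
          push_cast
          ring
      _ ≤ ∏ i, g (k i) := Finset.prod_le_prod
          (fun i _ => Real.rpow_nonneg (by linarith [sq_nn k]) _) (fun i _ => h2 i)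
  calc ∑ k ∈ F, (1 + sq k) ^ (-τ) ≤ ∑ k ∈ F, ∏ i, g (k i) := Finset.sum_le_sum fun k _ => h1 k
    _ ≤ ∑ k ∈ Fintype.piFinset (fun i => F.image (fun k => k i)), ∏ i, g (k i) := by
        refine Finset.sum_le_sum_of_subset_of_nonneg ?_
          (fun k _ _ => Finset.prod_nonneg fun i _ => (hg0 _).le)
        intro k hk
        rw [Fintype.mem_piFinset]
        exact fun i => Finset.mem_image_of_mem _ hk
    _ = ∏ i : Fin 3, ∑ n ∈ F.image (fun k => k i), g n := by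
        rw [Finset.prod_univ_sum]
    _ ≤ ∏ _i : Fin 3, ∑' n, g n := Finset.prod_le_prod
        (fun i _ => Finset.sum_nonneg fun n _ => (hg0 n).le)
        (fun i _ => hs.sum_le_tsum _ (fun n _ => (hg0 n).le))
    _ = (∑' n, g n) ^ 3 := by simp

/-- splitting of the weight -/
theorem weight (s p q : ℝ) (hs : 1 / 2 < s) (hp : 1 ≤ p) (hq : 1 ≤ q) :
    p⁻¹ * q ^ (-s) ≤ 2 ^ (1 + s) * (1 + p) ^ (-(1 + s)) + q ^ (-(1 + s)) := by
  have hp0 : 0 < p := by linarith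
  have hq0 : 0 < q := by linarith
  have e1 : p⁻¹ = p ^ (-1 : ℝ) := by rw [Real.rpow_neg_one]
  rcases le_total p q with h | h
  · have h1 : q ^ (-s) ≤ p ^ (-s) := Real.rpow_le_rpow_of_nonpos hp0 h (by linarith)
    have h2 : p⁻¹ * q ^ (-s) ≤ p ^ (-(1 + s)) := by
      calc p⁻¹ * q ^ (-s) ≤ p⁻¹ * p ^ (-s) := by gcongr
        _ = p ^ (-(1 + s)) := by
            rw [e1, ← Real.rpow_add hp0]
            congr 1
            ring
    have h3 : p ^ (-(1 + s)) ≤ 2 ^ (1 + s) * (1 + p) ^ (-(1 + s)) := by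
      have h4 : ((1 + p) / 2) ^ (-(1 + s)) = 2 ^ (1 + s) * (1 + p) ^ (-(1 + s)) := by
        rw [Real.div_rpow (by linarith) (by norm_num), Real.rpow_neg (by norm_num : (0 : ℝ) ≤ 2)]
        field_simp
      rw [← h4]
      exact Real.rpow_le_rpow_of_nonpos (by linarith) (by linarith) (by linarith)
    have h5 : 0 ≤ q ^ (-(1 + s)) := by positivity
    linarith
  · have h1 : p⁻¹ ≤ q⁻¹ := inv_anti₀ hq0 h
    have h2 : p⁻¹ * q ^ (-s) ≤ q ^ (-(1 + s)) := by
      calc p⁻¹ * q ^ (-s) ≤ q⁻¹ * q ^ (-s) := by gcongr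
        _ = q ^ (-(1 + s)) := by
            rw [← Real.rpow_neg_one q, ← Real.rpow_add hq0]
            congr 1
            ring
    have h5 : 0 ≤ 2 ^ (1 + s) * (1 + p) ^ (-(1 + s)) := by positivity
    linarith

theorem main : S_conv := by
  intro s hs
  obtain ⟨Z, hZ, hZb⟩ := lattice (1 + s) (by linarith)
  refine ⟨(2 * Real.pi) ^ 2 * ((2 ^ (1 + s) + 1) * Z), by positivity, ?_⟩
  intro S G a h0 ha
  have hpi := Real.pi_pos
  set b : K3 → ℝ := fun k => Real.sqrt (sq k) * ‖a k‖ with hb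
  have hb0 : ∀ k, 0 ≤ b k := fun k => by positivity
  have hbsq : ∀ k, b k ^ 2 = sq k * ‖a k‖ ^ 2 := fun k => by
    simp only [hb]; rw [mul_pow, Real.sq_sqrt (sq_nn k)]
  have hS1 : ∀ l ∈ S, 1 ≤ sq l := fun l hl => one_le_sq2 l (fun h => h0 (h ▸ hl))
  have h1 : ∀ k, ‖Nl S a k‖ ≤ 2 * Real.pi * ∑ l ∈ S, ‖a l‖ * b (k - l) := by
    intro k
    unfold Nl
    rw [Finset.mul_sum]
    refine (norm_sum_le _ _).trans (Finset.sum_le_sum fun l _ => ?_)
    rw [norm_smul, norm_mul, norm_mul, norm_mul, Complex.norm_I, Complex.norm_real,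
      Real.norm_of_nonneg hpi.le, Complex.norm_ofNat, mul_one]
    have := norm_dk_le (k - l) (a l)
    calc 2 * Real.pi * ‖dk (k - l) (a l)‖ * ‖a (k - l)‖
        ≤ 2 * Real.pi * (Real.sqrt (sq (k - l)) * ‖a l‖) * ‖a (k - l)‖ := by gcongr
      _ = 2 * Real.pi * (‖a l‖ * b (k - l)) := by simp only [hb]; ring
  have hY : Y2 S a = ∑ l ∈ S, b l ^ 2 := by
    unfold Y2
    exact Finset.sum_congr rfl fun l _ => (hbsq l).symm
  have hY0 : 0 ≤ Y2 S a := by
    rw [hY]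
    exact Finset.sum_nonneg fun l _ => sq_nonneg _
  have h2 : ∀ k, ‖Nl S a k‖ ^ 2
      ≤ (2 * Real.pi) ^ 2 * (Y2 S a * ∑ l ∈ S, (sq l)⁻¹ * b (k - l) ^ 2) := by
    intro k
    have h3 : (∑ l ∈ S, ‖a l‖ * b (k - l)) ^ 2 ≤ Y2 S a * ∑ l ∈ S, (sq l)⁻¹ * b (k - l) ^ 2 := by
      have h4 := Finset.sum_mul_sq_le_sq_mul_sq S b
        (fun l => (Real.sqrt (sq l))⁻¹ * b (k - l))
      rw [← hY] at h4
      have e1 : ∑ l ∈ S, b l * ((Real.sqrt (sq l))⁻¹ * b (k - l)) =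
          ∑ l ∈ S, ‖a l‖ * b (k - l) := by
        refine Finset.sum_congr rfl fun l hl => ?_
        have h5 : 0 < Real.sqrt (sq l) := Real.sqrt_pos.mpr (by linarith [hS1 l hl])
        simp only [hb]
        field_simp
      have e2 : ∑ l ∈ S, ((Real.sqrt (sq l))⁻¹ * b (k - l)) ^ 2 =
          ∑ l ∈ S, (sq l)⁻¹ * b (k - l) ^ 2 := by
        refine Finset.sum_congr rfl fun l hl => ?_
        rw [mul_pow, inv_pow, Real.sq_sqrt (sq_nn l)]
      rw [e1, e2] at h4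
      exact h4
    calc ‖Nl S a k‖ ^ 2 ≤ (2 * Real.pi * ∑ l ∈ S, ‖a l‖ * b (k - l)) ^ 2 := by
          gcongr; exact h1 k
      _ = (2 * Real.pi) ^ 2 * (∑ l ∈ S, ‖a l‖ * b (k - l)) ^ 2 := by ring
      _ ≤ _ := by gcongr
  -- the sum over the frequencies for fixed `l`
  have h4 : ∀ l, ∑ k ∈ G, (1 + sq k) ^ (-s) * b (k - l) ^ 2 ≤
      ∑ j ∈ S, (1 + sq (j + l)) ^ (-s) * b j ^ 2 := by
    intro l
    have e1 : ∑ k ∈ G, (1 + sq k) ^ (-s) * b (k - l) ^ 2 =
        ∑ j ∈ G.image (fun k => k - l), (1 + sq (j + l)) ^ (-s) * b j ^ 2 := by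
      rw [Finset.sum_image]
      · refine Finset.sum_congr rfl fun k _ => ?_
        rw [sub_add_cancel]
      · intro x _ y _ h
        simpa using h
    rw [e1]
    have hz : ∀ j ∉ S, (1 + sq (j + l)) ^ (-s) * b j ^ 2 = 0 := fun j hj => by
      rw [hbsq, ha j hj]; simp
    calc ∑ j ∈ G.image (fun k => k - l), (1 + sq (j + l)) ^ (-s) * b j ^ 2
        ≤ ∑ j ∈ G.image (fun k => k - l) ∪ S, (1 + sq (j + l)) ^ (-s) * b j ^ 2 :=
          Finset.sum_le_sum_of_subset_of_nonneg Finset.subset_union_left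
            (fun j _ _ => mul_nonneg (Real.rpow_nonneg (by linarith [sq_nn (j + l)]) _)
              (sq_nonneg _))
      _ = ∑ j ∈ S, (1 + sq (j + l)) ^ (-s) * b j ^ 2 := by
          symm
          exact Finset.sum_subset Finset.subset_union_right (fun k _ hk => hz k hk)
  -- the sum over `l` for fixed `j`
  have h5 : ∀ j, ∑ l ∈ S, (sq l)⁻¹ * (1 + sq (j + l)) ^ (-s) ≤ (2 ^ (1 + s) + 1) * Z := by
    intro j
    calc ∑ l ∈ S, (sq l)⁻¹ * (1 + sq (j + l)) ^ (-s)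
        ≤ ∑ l ∈ S, (2 ^ (1 + s) * (1 + sq l) ^ (-(1 + s)) + (1 + sq (j + l)) ^ (-(1 + s))) :=
          Finset.sum_le_sum fun l hl => weight s _ _ hs (hS1 l hl) (by linarith [sq_nn (j + l)])
      _ = 2 ^ (1 + s) * ∑ l ∈ S, (1 + sq l) ^ (-(1 + s)) +
          ∑ k ∈ S.image (fun l => j + l), (1 + sq k) ^ (-(1 + s)) := by
          rw [Finset.sum_add_distrib, ← Finset.mul_sum, Finset.sum_image]
          intro x _ y _ h
          simpa using h
      _ ≤ 2 ^ (1 + s) * Z + Z := by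
          refine add_le_add (mul_le_mul_of_nonneg_left (hZb S) (by positivity)) (hZb _)
      _ = (2 ^ (1 + s) + 1) * Z := by ring
  calc ∑ k ∈ G, (1 + sq k) ^ (-s) * ‖Nl S a k‖ ^ 2
      ≤ ∑ k ∈ G, (1 + sq k) ^ (-s) *
          ((2 * Real.pi) ^ 2 * (Y2 S a * ∑ l ∈ S, (sq l)⁻¹ * b (k - l) ^ 2)) :=
        Finset.sum_le_sum fun k _ => mul_le_mul_of_nonneg_left (h2 k)
          (Real.rpow_nonneg (by linarith [sq_nn k]) _)
    _ = (2 * Real.pi) ^ 2 * Y2 S a *
          ∑ l ∈ S, (sq l)⁻¹ * ∑ k ∈ G, (1 + sq k) ^ (-s) * b (k - l) ^ 2 := by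
        simp_rw [Finset.mul_sum]
        rw [Finset.sum_comm]
        refine Finset.sum_congr rfl fun l _ => Finset.sum_congr rfl fun k _ => ?_
        ring
    _ ≤ (2 * Real.pi) ^ 2 * Y2 S a *
          ∑ l ∈ S, (sq l)⁻¹ * ∑ j ∈ S, (1 + sq (j + l)) ^ (-s) * b j ^ 2 := by
        refine mul_le_mul_of_nonneg_left (Finset.sum_le_sum fun l hl => ?_) (by positivity)
        exact mul_le_mul_of_nonneg_left (h4 l) (inv_nonneg.mpr (sq_nn l))
    _ = (2 * Real.pi) ^ 2 * Y2 S a *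
          ∑ j ∈ S, b j ^ 2 * ∑ l ∈ S, (sq l)⁻¹ * (1 + sq (j + l)) ^ (-s) := by
        congr 1
        simp_rw [Finset.mul_sum]
        rw [Finset.sum_comm]
        refine Finset.sum_congr rfl fun l _ => Finset.sum_congr rfl fun k _ => ?_
        ring
    _ ≤ (2 * Real.pi) ^ 2 * Y2 S a * ∑ j ∈ S, b j ^ 2 * ((2 ^ (1 + s) + 1) * Z) := by
        refine mul_le_mul_of_nonneg_left (Finset.sum_le_sum fun j _ => ?_) (by positivity)
        exact mul_le_mul_of_nonneg_left (h5 j) (sq_nonneg _)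
    _ = (2 * Real.pi) ^ 2 * ((2 ^ (1 + s) + 1) * Z) * Y2 S a ^ 2 := by
        rw [← Finset.sum_mul, ← hY]
        ring

end Pool.Agent.W785.DF.W641Conv
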