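import Pool.Agent.W785.DF.Stubs2
import Pool.Agent.W785.DF.Est
import Pool.Agent.W641.DFConv

/-!
# The cost of the extra viscosity
-/

set_option autoImplicit false
set_option maxHeartbeats 1000000

namespace Pool.Agent.W785.DF.W641Cost

open Pool.Agent.W785.DF
open H459R3.NS (V K3)

/-- the power of the extra viscosity -/
theorem core (h y μ q δ0 : ℝ) (hh : 1 ≤ h) (hy : h < y) (hμ0 : 0 ≤ μ)
    (hμ : μ ≤ (y / h) ^ (1 / 4 : ℝ)) (hq : 1 ≤ q) (hδ : (q - 1) / 4 ≤ δ0) :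
    μ ^ q * y ^ (-δ0) ≤ μ * h ^ (-δ0) := by
  have hh0 : 0 < h := by linarith
  have hy0 : 0 < y := by linarith
  have hyh : 1 ≤ y / h := by rw [le_div_iff₀ hh0]; linarith
  have h1 : μ ^ q = μ * μ ^ (q - 1) := by
    have := Real.rpow_add' hμ0 (y := 1) (z := q - 1) (by linarith)
    rw [Real.rpow_one] at this
    rw [← this]
    congr 1
    ring
  have h2 : μ ^ (q - 1) ≤ (y / h) ^ δ0 := by
    calc μ ^ (q - 1) ≤ ((y / h) ^ (1 / 4 : ℝ)) ^ (q - 1) :=
          Real.rpow_le_rpow hμ0 hμ (by linarith)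
      _ = (y / h) ^ ((q - 1) / 4) := by
          rw [← Real.rpow_mul (by linarith)]
          congr 1
          ring
      _ ≤ (y / h) ^ δ0 := Real.rpow_le_rpow_of_exponent_le hyh hδ
  have h3 : (y / h) ^ δ0 * y ^ (-δ0) = h ^ (-δ0) := by
    rw [Real.div_rpow hy0.le hh0.le, Real.rpow_neg hy0.le, Real.rpow_neg hh0.le]
    have := (Real.rpow_pos_of_pos hy0 δ0).ne'
    have := (Real.rpow_pos_of_pos hh0 δ0).ne'
    field_simp
  calc μ ^ q * y ^ (-δ0) = μ * (μ ^ (q - 1) * y ^ (-δ0)) := by rw [h1]; ring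
    _ ≤ μ * ((y / h) ^ δ0 * y ^ (-δ0)) := by
        refine mul_le_mul_of_nonneg_left ?_ hμ0
        exact mul_le_mul_of_nonneg_right h2 (Real.rpow_nonneg hy0.le _)
    _ = μ * h ^ (-δ0) := by rw [h3]

/-- interpolation -/
theorem hoelder (S : Finset K3) (a : K3 → E3) (s : ℝ) (hs0 : 0 < s) (hs1 : s < 1) :
    ∑ k ∈ S, (sq k * ‖a k‖ ^ 2) ^ s * (sq k ^ 2 * ‖a k‖ ^ 2) ^ (1 - s) ≤
      Y2 S a ^ s * D2 S a ^ (1 - s) := by
  have hc : (1 / s).HolderConjugate (1 / (1 - s)) := by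
    rw [Real.holderConjugate_iff]
    constructor
    · rw [lt_div_iff₀ hs0]; linarith
    · rw [one_div, one_div, inv_inv, inv_inv]; ring
  have h1 := Real.inner_le_Lp_mul_Lq_of_nonneg S hc
    (f := fun k => (sq k * ‖a k‖ ^ 2) ^ s) (g := fun k => (sq k ^ 2 * ‖a k‖ ^ 2) ^ (1 - s))
    (fun k _ => by
      have := W641Conv.sq_nn k
      positivity)
    (fun k _ => by positivity)
  refine h1.trans (le_of_eq ?_)
  have e1 : ∀ k, ((sq k * ‖a k‖ ^ 2) ^ s) ^ (1 / s) = sq k * ‖a k‖ ^ 2 := by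
    intro k
    have := W641Conv.sq_nn k
    rw [← Real.rpow_mul (by positivity), mul_one_div_cancel hs0.ne', Real.rpow_one]
  have e2 : ∀ k, ((sq k ^ 2 * ‖a k‖ ^ 2) ^ (1 - s)) ^ (1 / (1 - s)) = sq k ^ 2 * ‖a k‖ ^ 2 := by
    intro k
    rw [← Real.rpow_mul (by positivity), mul_one_div_cancel (by linarith), Real.rpow_one]
  simp only [e1, e2]
  simp only [one_div, inv_inv]
  rfl

theorem main : S_cost := by
  intro ν R q s hν hR hq hs1 hs2
  have hpi := Real.pi_pos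
  have hq0 : 0 < q := by linarith
  have hs0 : 1 / 2 < s := by
    have : 1 / q ≤ 1 := by rw [div_le_one hq0]; exact hq
    linarith
  have hqs : 5 / 4 * (q - 1) ≤ q * s / 2 := by
    have h1 : (5 / 2 - 5 / (2 * q)) * (q / 2) ≤ s * (q / 2) :=
      mul_le_mul_of_nonneg_right hs1 (by linarith)
    have h2 : (5 / 2 - 5 / (2 * q)) * (q / 2) = 5 / 4 * (q - 1) := by
      field_simp
      ring
    linarith
  obtain ⟨δ0, hδ0⟩ : ∃ δ0, δ0 = q * s / 2 - q + 1 := ⟨_, rfl⟩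
  have hδ1 : (q - 1) / 4 ≤ δ0 := by linarith
  have hδpos : 0 < δ0 := by
    rcases eq_or_lt_of_le hq with h | h
    · rw [hδ0, ← h]; linarith
    · linarith
  -- the trivial case and the support
  have hY0 : ∀ (S : Finset K3) (a : K3 → E3), 0 ≤ Y2 S a := fun S a =>
    Finset.sum_nonneg fun k _ => mul_nonneg (W641Conv.sq_nn k) (sq_nonneg _)
  have hD0 : ∀ (S : Finset K3) (a : K3 → E3), 0 ≤ D2 S a := fun S a =>
    Finset.sum_nonneg fun k _ => by positivity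
  have hnorm : ∀ (h : ℝ) (k : K3) (y : ℝ) (v : E3), 1 ≤ h → 0 ≤ y →
      ‖(vs h R k y * (4 * Real.pi ^ 2 * sq k)) • v‖ ^ 2 =
        (4 * Real.pi ^ 2) ^ 2 * (vs h R k y) ^ 2 * (sq k ^ 2 * ‖v‖ ^ 2) := by
    intro h k y v hh hy
    rw [norm_smul, Real.norm_of_nonneg]
    · ring
    · have h1 := vs_nonneg (R := R) (by linarith : 0 < h) k hy
      have h2 := W641Conv.sq_nn k
      positivity
  have htriv : ∀ (C δ h : ℝ), 0 < C → 1 ≤ h → ∀ (S : Finset K3) (a : K3 → E3), Y2 S a ≤ h →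
      (∑ k ∈ S, (1 + sq k) ^ (-s) * ‖(vs h R k (Y2 S a) * (4 * Real.pi ^ 2 * sq k)) • a k‖ ^ 2)
      ^ (q / 2) ≤ C * h ^ (-δ) * ((ν + mh h (Y2 S a)) * D2 S a / (1 + Y2 S a) / h
      + (ν + mh h (Y2 S a)) * Y2 S a) := by
    intro C δ h hC hh S a hy
    have hh0 : 0 < h := by linarith
    have h1 : mh h (Y2 S a) = 0 := mh_zero hh0 hy
    have h2 : ∀ k, vs h R k (Y2 S a) = 0 := fun k => by rw [vs, h1, zero_mul]
    have h3 : ∑ k ∈ S, (1 + sq k) ^ (-s) *
        ‖(vs h R k (Y2 S a) * (4 * Real.pi ^ 2 * sq k)) • a k‖ ^ 2 = 0 := by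
      refine Finset.sum_eq_zero fun k _ => ?_
      rw [h2, zero_mul, zero_smul, norm_zero]
      simp
    rw [h3, Real.zero_rpow (by positivity), h1]
    have h4 := hY0 S a
    have h5 := hD0 S a
    positivity
  rcases le_or_gt 1 s with hs | hs
  · -- the case `s ≥ 1`
    obtain ⟨A, hA⟩ : ∃ A : ℝ, A = (4 * Real.pi ^ 2) ^ 2 * (8 * R ^ 2) ^ (s - 1) := ⟨_, rfl⟩
    have hA0 : 0 < A := by rw [hA]; positivity
    refine ⟨A ^ (q / 2), δ0, by positivity, hδpos, fun h hh S h0S a => ?_⟩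
    rcases le_or_gt (Y2 S a) h with hy | hy
    · exact htriv _ _ h (by positivity) hh S a hy
    have hh0 : 0 < h := by linarith
    obtain ⟨y, hyd⟩ : ∃ y, y = Y2 S a := ⟨_, rfl⟩
    rw [← hyd] at hy ⊢
    have hy0 : 0 < y := by linarith
    obtain ⟨μ, hμd⟩ : ∃ μ, μ = mh h y := ⟨_, rfl⟩
    have hμ0 : 0 ≤ μ := by rw [hμd]; exact mh_nonneg hh0 hy0.le
    have hμ1 : μ ≤ (y / h) ^ (1 / 4 : ℝ) := by rw [hμd]; exact mh_le hh0 hy0.le
    -- the sum
    have hterm : ∀ k ∈ S, (1 + sq k) ^ (-s) *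
        ‖(vs h R k y * (4 * Real.pi ^ 2 * sq k)) • a k‖ ^ 2 ≤
        A * μ ^ 2 * y ^ (1 - s) * (sq k * ‖a k‖ ^ 2) := by
      intro k hk
      have hk1 : 1 ≤ sq k := W641Conv.one_le_sq2 k (fun e => h0S (e ▸ hk))
      have hk0 : 0 < sq k := by linarith
      rw [hnorm h k y (a k) hh hy0.le]
      by_cases hth : th R k y = 0
      · rw [vs, hth, mul_zero]
        have : 0 ≤ A * μ ^ 2 * y ^ (1 - s) * (sq k * ‖a k‖ ^ 2) := by positivity
        simpa using this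
      · have h1 := th_ne hR hy0 hth
        have h2 : vs h R k y ≤ μ := by rw [hμd]; exact vs_le hh0 k hy0.le
        have h3 : 0 ≤ vs h R k y := vs_nonneg hh0 k hy0.le
        have h4 : (vs h R k y) ^ 2 ≤ μ ^ 2 := pow_le_pow_left₀ h3 h2 2
        have h5 : (1 + sq k) ^ (-s) ≤ sq k ^ (-s) :=
          Real.rpow_le_rpow_of_nonpos hk0 (by linarith) (by linarith)
        have h6 : sq k ^ (-s) * sq k = sq k ^ (1 - s) := by
          rw [sub_eq_neg_add, Real.rpow_add hk0, Real.rpow_one]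
        have h7 : sq k ^ (1 - s) ≤ (y / (8 * R ^ 2)) ^ (1 - s) :=
          Real.rpow_le_rpow_of_nonpos (by positivity) h1 (by linarith)
        have h8 : (y / (8 * R ^ 2)) ^ (1 - s) = (8 * R ^ 2) ^ (s - 1) * y ^ (1 - s) := by
          rw [Real.div_rpow hy0.le (by positivity), div_eq_mul_inv, ← Real.rpow_neg (by positivity),
            neg_sub, mul_comm]
        calc (1 + sq k) ^ (-s) * ((4 * Real.pi ^ 2) ^ 2 * vs h R k y ^ 2 *
              (sq k ^ 2 * ‖a k‖ ^ 2))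
            ≤ sq k ^ (-s) * ((4 * Real.pi ^ 2) ^ 2 * μ ^ 2 * (sq k ^ 2 * ‖a k‖ ^ 2)) := by
              gcongr
          _ = (4 * Real.pi ^ 2) ^ 2 * μ ^ 2 * (sq k ^ (-s) * sq k) * (sq k * ‖a k‖ ^ 2) := by ring
          _ ≤ (4 * Real.pi ^ 2) ^ 2 * μ ^ 2 * ((8 * R ^ 2) ^ (s - 1) * y ^ (1 - s)) *
              (sq k * ‖a k‖ ^ 2) := by
              rw [h6, ← h8]
              gcongr
          _ = _ := by rw [hA]; ring
    have hsum : ∑ k ∈ S, (1 + sq k) ^ (-s) *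
        ‖(vs h R k y * (4 * Real.pi ^ 2 * sq k)) • a k‖ ^ 2 ≤ A * μ ^ 2 * y ^ (2 - s) := by
      refine (Finset.sum_le_sum hterm).trans (le_of_eq ?_)
      rw [← Finset.mul_sum]
      have e1 : ∑ k ∈ S, sq k * ‖a k‖ ^ 2 = y := hyd.symm
      rw [e1, mul_assoc, show (2 : ℝ) - s = (1 - s) + 1 by ring, Real.rpow_add hy0, Real.rpow_one]
    have hnn : 0 ≤ ∑ k ∈ S, (1 + sq k) ^ (-s) *
        ‖(vs h R k y * (4 * Real.pi ^ 2 * sq k)) • a k‖ ^ 2 :=
      Finset.sum_nonneg fun k _ => mul_nonneg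
        (Real.rpow_nonneg (by linarith [W641Conv.sq_nn k]) _) (sq_nonneg _)
    have h9 := Real.rpow_le_rpow hnn hsum (by linarith : 0 ≤ q / 2)
    have h10 : (A * μ ^ 2 * y ^ (2 - s)) ^ (q / 2) = A ^ (q / 2) * (μ ^ q * y ^ (-δ0)) * y := by
      rw [Real.mul_rpow (by positivity) (by positivity), Real.mul_rpow hA0.le (by positivity)]
      have e1 : (μ ^ 2) ^ (q / 2) = μ ^ q := by
        rw [← Real.rpow_natCast, ← Real.rpow_mul hμ0]
        congr 1
        push_cast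
        ring
      have e2 : (y ^ (2 - s)) ^ (q / 2) = y ^ (-δ0) * y := by
        rw [← Real.rpow_mul hy0.le]
        nth_rewrite 3 [← Real.rpow_one y]
        rw [← Real.rpow_add hy0]
        congr 1
        rw [hδ0]
        ring
      rw [e1, e2]
      ring
    have h11 := core h y μ q δ0 hh hy hμ0 hμ1 hq hδ1
    have hD := hD0 S a
    rw [← hμd]
    calc _ ≤ (A * μ ^ 2 * y ^ (2 - s)) ^ (q / 2) := h9
      _ = A ^ (q / 2) * (μ ^ q * y ^ (-δ0)) * y := h10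
      _ ≤ A ^ (q / 2) * (μ * h ^ (-δ0)) * y := by gcongr
      _ = A ^ (q / 2) * h ^ (-δ0) * (0 + μ * y) := by ring
      _ ≤ A ^ (q / 2) * h ^ (-δ0) * ((ν + μ) * D2 S a / (1 + y) / h + (ν + μ) * y) := by
          gcongr
          · positivity
          · linarith
  · -- the case `s < 1`
    obtain ⟨t, ht⟩ : ∃ t, t = q * (1 - s) / 2 := ⟨_, rfl⟩
    have ht0 : 0 < t := by rw [ht]; have : 0 < 1 - s := by linarith
                           positivity
    have ht1 : t < 1 / 2 := by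
      have h1 : (3 / 2 - 1 / q) * q < s * q := mul_lt_mul_of_pos_right hs2 hq0
      have h2 : (3 / 2 - 1 / q) * q = 3 / 2 * q - 1 := by field_simp
      rw [ht]
      nlinarith
    have hδt : 0 < δ0 - t := by
      have h1 : (3 / 2 - 1 / q) * q < s * q := mul_lt_mul_of_pos_right hs2 hq0
      have h2 : (3 / 2 - 1 / q) * q = 3 / 2 * q - 1 := by field_simp
      rw [hδ0, ht]
      nlinarith
    obtain ⟨A, hA⟩ : ∃ A : ℝ, A = (4 * Real.pi ^ 2) ^ 2 := ⟨_, rfl⟩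
    have hA0 : 0 < A := by rw [hA]; positivity
    refine ⟨A ^ (q / 2) * 2 ^ t, δ0 - t, by positivity, hδt, fun h hh S h0S a => ?_⟩
    rcases le_or_gt (Y2 S a) h with hy | hy
    · exact htriv _ _ h (by positivity) hh S a hy
    have hh0 : 0 < h := by linarith
    have hho := hoelder S a s (by linarith) hs
    obtain ⟨y, hyd⟩ : ∃ y, y = Y2 S a := ⟨_, rfl⟩
    obtain ⟨D, hDd⟩ : ∃ D, D = D2 S a := ⟨_, rfl⟩
    rw [← hyd, ← hDd] at hho
    rw [← hyd] at hy ⊢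
    rw [← hDd]
    have hD : 0 ≤ D := by rw [hDd]; exact hD0 S a
    have hy0 : 0 < y := by linarith
    obtain ⟨μ, hμd⟩ : ∃ μ, μ = mh h y := ⟨_, rfl⟩
    have hμ0 : 0 ≤ μ := by rw [hμd]; exact mh_nonneg hh0 hy0.le
    have hμ1 : μ ≤ (y / h) ^ (1 / 4 : ℝ) := by rw [hμd]; exact mh_le hh0 hy0.le
    have hterm : ∀ k ∈ S, (1 + sq k) ^ (-s) *
        ‖(vs h R k y * (4 * Real.pi ^ 2 * sq k)) • a k‖ ^ 2 ≤
        A * μ ^ 2 * ((sq k * ‖a k‖ ^ 2) ^ s * (sq k ^ 2 * ‖a k‖ ^ 2) ^ (1 - s)) := by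
      intro k hk
      have hk1 : 1 ≤ sq k := W641Conv.one_le_sq2 k (fun e => h0S (e ▸ hk))
      have hk0 : 0 < sq k := by linarith
      rw [hnorm h k y (a k) hh hy0.le]
      have h2 : vs h R k y ≤ μ := by rw [hμd]; exact vs_le hh0 k hy0.le
      have h3 : 0 ≤ vs h R k y := vs_nonneg hh0 k hy0.le
      have h4 : (vs h R k y) ^ 2 ≤ μ ^ 2 := pow_le_pow_left₀ h3 h2 2
      have h5 : (1 + sq k) ^ (-s) ≤ sq k ^ (-s) :=
        Real.rpow_le_rpow_of_nonpos hk0 (by linarith) (by linarith)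
      have h6 : (sq k * ‖a k‖ ^ 2) ^ s * (sq k ^ 2 * ‖a k‖ ^ 2) ^ (1 - s) =
          sq k ^ (-s) * sq k ^ 2 * ‖a k‖ ^ 2 := by
        have hx : 0 ≤ ‖a k‖ ^ 2 := sq_nonneg _
        rw [Real.mul_rpow hk0.le hx, Real.mul_rpow (by positivity) hx]
        have e1 : (‖a k‖ ^ 2) ^ s * (‖a k‖ ^ 2) ^ (1 - s) = ‖a k‖ ^ 2 := by
          rw [← Real.rpow_add' hx (by norm_num)]
          rw [show s + (1 - s) = 1 by ring, Real.rpow_one]
        have e2 : sq k ^ s * (sq k ^ 2) ^ (1 - s) = sq k ^ (-s) * sq k ^ 2 := by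
          rw [← Real.rpow_natCast (sq k) 2, ← Real.rpow_mul hk0.le, ← Real.rpow_add hk0,
            ← Real.rpow_add hk0]
          congr 1
          push_cast
          ring
        calc sq k ^ s * (‖a k‖ ^ 2) ^ s * ((sq k ^ 2) ^ (1 - s) * (‖a k‖ ^ 2) ^ (1 - s))
            = (sq k ^ s * (sq k ^ 2) ^ (1 - s)) * ((‖a k‖ ^ 2) ^ s * (‖a k‖ ^ 2) ^ (1 - s)) := by
              ring
          _ = _ := by rw [e1, e2]
      rw [h6]
      calc (1 + sq k) ^ (-s) * ((4 * Real.pi ^ 2) ^ 2 * vs h R k y ^ 2 *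
            (sq k ^ 2 * ‖a k‖ ^ 2))
          ≤ sq k ^ (-s) * ((4 * Real.pi ^ 2) ^ 2 * μ ^ 2 * (sq k ^ 2 * ‖a k‖ ^ 2)) := by
            gcongr
        _ = _ := by rw [hA]; ring
    have hsum : ∑ k ∈ S, (1 + sq k) ^ (-s) *
        ‖(vs h R k y * (4 * Real.pi ^ 2 * sq k)) • a k‖ ^ 2 ≤
        A * μ ^ 2 * (y ^ s * D ^ (1 - s)) := by
      refine (Finset.sum_le_sum hterm).trans ?_
      rw [← Finset.mul_sum]
      exact mul_le_mul_of_nonneg_left hho (by positivity)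
    have hnn : 0 ≤ ∑ k ∈ S, (1 + sq k) ^ (-s) *
        ‖(vs h R k y * (4 * Real.pi ^ 2 * sq k)) • a k‖ ^ 2 :=
      Finset.sum_nonneg fun k _ => mul_nonneg
        (Real.rpow_nonneg (by linarith [W641Conv.sq_nn k]) _) (sq_nonneg _)
    have h9 := Real.rpow_le_rpow hnn hsum (by linarith : 0 ≤ q / 2)
    have h10 : (A * μ ^ 2 * (y ^ s * D ^ (1 - s))) ^ (q / 2) =
        A ^ (q / 2) * (μ ^ q * y ^ (-δ0)) * (y ^ (1 - 2 * t) * D ^ t) := by
      rw [Real.mul_rpow (by positivity) (by positivity), Real.mul_rpow hA0.le (by positivity),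
        Real.mul_rpow (by positivity) (by positivity)]
      have e1 : (μ ^ 2) ^ (q / 2) = μ ^ q := by
        rw [← Real.rpow_natCast, ← Real.rpow_mul hμ0]
        congr 1
        push_cast
        ring
      have e2 : (y ^ s) ^ (q / 2) = y ^ (-δ0) * y ^ (1 - 2 * t) := by
        rw [← Real.rpow_mul hy0.le, ← Real.rpow_add hy0]
        congr 1
        rw [hδ0, ht]
        ring
      have e3 : (D ^ (1 - s)) ^ (q / 2) = D ^ t := by
        rw [← Real.rpow_mul hD]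
        congr 1
        rw [ht]
        ring
      rw [e1, e2, e3]
      ring
    have h11 := core h y μ q δ0 hh hy hμ0 hμ1 hq hδ1
    obtain ⟨κ, hκ⟩ : ∃ κ, κ = ν + μ := ⟨_, rfl⟩
    have hκ0 : 0 < κ := by rw [hκ]; linarith
    have hκμ : μ ≤ κ := by rw [hκ]; linarith
    -- the product `U ^ t * V ^ (1 - t)`
    have h12 : μ * (y ^ (1 - 2 * t) * D ^ t) ≤
        2 ^ t * ((κ * D / (1 + y)) ^ t * (κ * y) ^ (1 - t)) := by
      have e1 : (κ * D / (1 + y)) ^ t = κ ^ t * D ^ t * (1 + y) ^ (-t) := by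
        rw [Real.div_rpow (by positivity) (by linarith), Real.mul_rpow hκ0.le hD,
          Real.rpow_neg (by linarith), div_eq_mul_inv]
      have e2 : (κ * y) ^ (1 - t) = κ ^ (1 - t) * y ^ (1 - t) := Real.mul_rpow hκ0.le hy0.le
      have e3 : κ ^ t * κ ^ (1 - t) = κ := by
        rw [← Real.rpow_add hκ0, show t + (1 - t) = 1 by ring, Real.rpow_one]
      have e4 : y ^ (1 - 2 * t) ≤ 2 ^ t * ((1 + y) ^ (-t) * y ^ (1 - t)) := by
        have e5 : (2 * y) ^ (-t) ≤ (1 + y) ^ (-t) :=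
          Real.rpow_le_rpow_of_nonpos (by linarith) (by linarith) (by linarith)
        have e6 : (2 : ℝ) ^ t * ((2 * y) ^ (-t) * y ^ (1 - t)) = y ^ (1 - 2 * t) := by
          rw [Real.mul_rpow (by norm_num) hy0.le]
          have e7 : (2 : ℝ) ^ t * 2 ^ (-t) = 1 := by
            rw [← Real.rpow_add (by norm_num), add_neg_cancel, Real.rpow_zero]
          have e8 : y ^ (-t) * y ^ (1 - t) = y ^ (1 - 2 * t) := by
            rw [← Real.rpow_add hy0]
            congr 1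
            ring
          calc (2 : ℝ) ^ t * (2 ^ (-t) * y ^ (-t) * y ^ (1 - t))
              = (2 ^ t * 2 ^ (-t)) * (y ^ (-t) * y ^ (1 - t)) := by ring
            _ = _ := by rw [e7, e8, one_mul]
        rw [← e6]
        gcongr
      calc μ * (y ^ (1 - 2 * t) * D ^ t)
          ≤ κ * ((2 ^ t * ((1 + y) ^ (-t) * y ^ (1 - t))) * D ^ t) := by gcongr
        _ = (κ ^ t * κ ^ (1 - t)) * ((2 ^ t * ((1 + y) ^ (-t) * y ^ (1 - t))) * D ^ t) := by
            rw [e3]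
        _ = 2 ^ t * ((κ * D / (1 + y)) ^ t * (κ * y) ^ (1 - t)) := by
            rw [e1, e2]; ring
    have h13 : (κ * D / (1 + y)) ^ t * (κ * y) ^ (1 - t) ≤
        h ^ t * (κ * D / (1 + y) / h + κ * y) := by
      have e1 : (κ * D / (1 + y)) ^ t = h ^ t * (κ * D / (1 + y) / h) ^ t := by
        rw [← Real.mul_rpow hh0.le (by positivity)]
        congr 1
        field_simp
      rw [e1, mul_assoc]
      refine mul_le_mul_of_nonneg_left ?_ (by positivity)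
      have e2 := Real.geom_mean_le_arith_mean2_weighted (w₁ := t) (w₂ := 1 - t)
        (p₁ := κ * D / (1 + y) / h) (p₂ := κ * y) ht0.le (by linarith) (by positivity)
        (by positivity) (by ring)
      refine e2.trans ?_
      have e3 : 0 ≤ κ * D / (1 + y) / h := by positivity
      have e4 : 0 ≤ κ * y := by positivity
      exact add_le_add (mul_le_of_le_one_left e3 (by linarith))
        (mul_le_of_le_one_left e4 (by linarith))
    rw [← hμd, ← hκ]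
    have h14 : h ^ (-δ0) * h ^ t = h ^ (-(δ0 - t)) := by
      rw [← Real.rpow_add hh0]
      congr 1
      ring
    calc _ ≤ (A * μ ^ 2 * (y ^ s * D ^ (1 - s))) ^ (q / 2) := h9
      _ = A ^ (q / 2) * (μ ^ q * y ^ (-δ0)) * (y ^ (1 - 2 * t) * D ^ t) := h10
      _ ≤ A ^ (q / 2) * (μ * h ^ (-δ0)) * (y ^ (1 - 2 * t) * D ^ t) := by gcongr
      _ = A ^ (q / 2) * h ^ (-δ0) * (μ * (y ^ (1 - 2 * t) * D ^ t)) := by ring
      _ ≤ A ^ (q / 2) * h ^ (-δ0) * (2 ^ t * ((κ * D / (1 + y)) ^ t * (κ * y) ^ (1 - t))) := by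
          gcongr
      _ ≤ A ^ (q / 2) * h ^ (-δ0) * (2 ^ t * (h ^ t * (κ * D / (1 + y) / h + κ * y))) := by
          gcongr
      _ = A ^ (q / 2) * 2 ^ t * (h ^ (-δ0) * h ^ t) * (κ * D / (1 + y) / h + κ * y) := by ring
      _ = A ^ (q / 2) * 2 ^ t * h ^ (-(δ0 - t)) * (κ * D / (1 + y) / h + κ * y) := by rw [h14]

end Pool.Agent.W785.DF.W641Cost
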