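import Pool.Agent.W894.HT.MLib
import Pool.Agent.W346.HTR.Rest
import Pool.Agent.W22.HMGW

/-! # HN-WOK -/

set_option autoImplicit false

namespace Pool.Agent.W641.HNWok

open Pool.Agent.W894.HT Pool.Agent.W22.HMGW

/-- good edges: kinds at most four, distinct endpoints -/
def Gd (e : Nm × Nm) : Prop := e.1.1 ≤ 4 ∧ e.2.1 ≤ 4 ∧ e.1 ≠ e.2

theorem gd_gE {k i : ℕ} {α : Bool} {a : Lb} {e : Nm × Nm} (h : e ∈ gE k α i a) : Gd e := by
  simp only [gE, List.mem_cons, List.not_mem_nil, or_false] at h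
  rcases h with rfl | rfl | rfl | rfl | rfl | rfl
  all_goals (simp [Gd, rv, xv, yv, sh])

theorem gd_rE {k : ℕ} {α : Bool} {L : List Lb} {e : Nm × Nm} (h : e ∈ rE k α L) : Gd e := by
  unfold rE at h
  rw [List.cons_append, List.mem_cons, List.mem_append, List.mem_flatMap, List.mem_singleton] at h
  rcases h with rfl | ⟨p, _, h⟩ | rfl
  · simp [Gd, hub, rv]
  · exact gd_gE h
  · simp [Gd, hub, rv]

theorem gd_EE {S : Stg} {e : Nm × Nm} (h : e ∈ EE S) : Gd e := by
  unfold EE at h
  rw [List.mem_flatMap] at h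
  obtain ⟨p, _, h⟩ := h
  rw [List.mem_append] at h
  rcases h with h | h
  · exact gd_rE h
  · exact gd_rE h

theorem kind_rest {S : Stg} {v : Nm} (h : v ∈ restS S) : v.1 ≤ 4 := by
  obtain ⟨⟨e, he, hv⟩, _⟩ := (Pool.Agent.W346.HTR.mem_restS S v).1 h
  rcases hv with rfl | rfl
  · exact (gd_EE he).1
  · exact (gd_EE he).2.1

theorem mem_dum {n : ℕ} {v : Nm} (h : v ∈ dum n) : v.1 = 5 := by
  unfold dum at h
  rw [List.mem_map] at h
  obtain ⟨i, _, rfl⟩ := h
  rfl

theorem nodup_dum (n : ℕ) : (dum n).Nodup := by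
  unfold dum
  refine List.Nodup.map ?_ List.nodup_range
  intro i j hij
  exact congrArg (fun v : Nm => v.2.1) hij

theorem gw_iso {A : Type} [CommRing A] (E : List (Nm × Nm × Bool)) (u v : Nm)
    (h : ∀ t ∈ E, ¬ ((t.1 = u ∧ t.2.1 = v) ∨ (t.1 = v ∧ t.2.1 = u))) :
    gw (A := A) E u v = 0 := by
  unfold gw
  apply List.sum_eq_zero
  intro x hx
  rw [List.mem_map] at hx
  obtain ⟨t, ht, rfl⟩ := hx
  rw [if_neg (h t ht)]

theorem main : S_WOK := by
  intro p S τ hS
  obtain ⟨hnd, hmem⟩ := Pool.Agent.W346.HTR.main S hS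
  have hsub : ∀ v : Nm, v ∈ hub 0 :: hub S.length :: restS S → v ∈ W0 p S τ := by
    intro v hv
    unfold W0
    rw [List.mem_cons, List.mem_cons] at hv
    rcases hv with h | h | h
    · rw [h]; exact List.mem_cons_of_mem _ List.mem_cons_self
    · rw [h]; exact List.mem_cons_self
    · exact List.mem_cons_of_mem _ (List.mem_cons_of_mem _ (List.mem_append_left _ h))
  have hW : ∀ t ∈ sE S τ, t.1 ∈ W0 p S τ ∧ t.2.1 ∈ W0 p S τ := by
    intro t ht
    have h1 := hmem _ (mem_sE_EE ht)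
    exact ⟨hsub _ h1.1, hsub _ h1.2⟩
  have hg : ∀ t ∈ sE S τ, Gd (t.1, t.2.1) := fun t ht => gd_EE (mem_sE_EE ht)
  have hinj : ∀ u v : Nm, u ∈ W0 p S τ → ((W0 p S τ).idxOf u = (W0 p S τ).idxOf v) → u = v :=
    fun u v hu h => (List.idxOf_inj hu).1 h
  refine ⟨?_, hW, ?_, ?_, ?_⟩
  · unfold W0
    rw [List.nodup_cons, List.nodup_cons, List.mem_cons] at hnd
    obtain ⟨h0, h1, h2⟩ := hnd
    rw [List.nodup_cons, List.nodup_cons, List.mem_cons, List.mem_append, List.nodup_append]
    refine ⟨?_, ?_, h2, nodup_dum _, ?_⟩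
    · rintro (h | h | h)
      · exact h0 (Or.inl h.symm)
      · exact h1 h
      · have := mem_dum h
        simp [hub] at this
    · rw [List.mem_append]
      rintro (h | h)
      · exact h0 (Or.inr h)
      · have := mem_dum h
        simp [hub] at this
    · intro a ha b hb hab
      have h3 := kind_rest ha
      have h4 := mem_dum hb
      rw [hab] at h3
      omega
  · intro t ht
    unfold El at ht
    rw [List.mem_map] at ht
    obtain ⟨s, hs, rfl⟩ := ht
    have h1 := hW s hs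
    refine ⟨List.idxOf_lt_length_iff.2 h1.1, List.idxOf_lt_length_iff.2 h1.2, ?_⟩
    intro h
    exact (hg s hs).2.2 (hinj _ _ h1.1 h)
  · unfold El
    rw [List.pairwise_map]
    refine (pw_sE S τ).imp_of_mem ?_
    intro t t' ht ht' hn h
    apply hn
    have a1 := hW t ht
    rcases h with h | h
    · exact Or.inl ⟨(hinj _ _ a1.1 h.1).symm, (hinj _ _ a1.2 h.2).symm⟩
    · exact Or.inr ⟨(hinj _ _ a1.2 h.2).symm, (hinj _ _ a1.1 h.1).symm⟩
  · intro A _ d hd u
    have h5 := mem_dum hd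
    constructor
    · apply gw_iso
      intro t ht h
      have h6 := hg t ht
      rcases h with h | h
      · have h7 : t.2.1.1 ≤ 4 := h6.2.1
        rw [h.2, h5] at h7
        omega
      · have h7 : t.1.1 ≤ 4 := h6.1
        rw [h.1, h5] at h7
        omega
    · apply gw_iso
      intro t ht h
      have h6 := hg t ht
      rcases h with h | h
      · have h7 : t.1.1 ≤ 4 := h6.1
        rw [h.1, h5] at h7
        omega
      · have h7 : t.2.1.1 ≤ 4 := h6.2.1
        rw [h.2, h5] at h7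
        omega

end Pool.Agent.W641.HNWok
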