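import Pool.Agent.H695R3.PP.Stmts

/-!
# Spectral averaging for one site (TaskSA)

If `(t₁, E₁, ψ₁)` and `(t₂, E₂, ψ₂)` are eigenpairs, then Green's formula gives
`(E₂ - E₁) ⟨ψ₁, ψ₂⟩ = (t₂ - t₁) ψ₁(m) ψ₂(m)`, so that `t` is a Lipschitz function of `E` on the set
of the energies considered.
-/

set_option autoImplicit false

open scoped BigOperators ENNReal
open MeasureTheory

namespace Pool.Agent.W641.LP

open Pool.Agent.H695R3.PP

lemma telescope (W : ℤ → ℝ) (a : ℤ) : ∀ k : ℕ,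
    ∑ n ∈ Finset.Icc a (a + k - 1), (W n - W (n - 1)) = W (a + k - 1) - W (a - 1)
  | 0 => by
    have : Finset.Icc a (a + (0 : ℕ) - 1) = ∅ := Finset.Icc_eq_empty (by push_cast; omega)
    rw [this]; simp
  | k + 1 => by
    have : Finset.Icc a (a + ((k + 1 : ℕ) : ℤ) - 1) =
        insert (a + k) (Finset.Icc a (a + k - 1)) := by
      ext n; simp only [Finset.mem_Icc, Finset.mem_insert]; push_cast; omega
    rw [this, Finset.sum_insert (by simp), telescope W a k]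
    push_cast
    rw [show a + (k + 1 : ℤ) - 1 = a + k by ring]
    ring

lemma green {V₁ V₂ : ℤ → ℝ} {a b : ℤ} {E₁ E₂ : ℝ} {ψ₁ ψ₂ : ℤ → ℝ}
    (h₁ : IsEig V₁ a b E₁ ψ₁) (h₂ : IsEig V₂ a b E₂ ψ₂) :
    (E₂ - E₁) * ∑ n ∈ Finset.Icc a b, ψ₁ n * ψ₂ n =
      ∑ n ∈ Finset.Icc a b, (V₂ n - V₁ n) * (ψ₁ n * ψ₂ n) := by
  by_cases hab : a ≤ b
  · obtain ⟨k, hk⟩ : ∃ k : ℕ, b = a + k - 1 := ⟨(b + 1 - a).toNat, by omega⟩
    have ht := telescope (fun n => ψ₁ n * ψ₂ (n + 1) - ψ₁ (n + 1) * ψ₂ n) a k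
    rw [← hk] at ht
    have e1 : ψ₁ (b + 1) = 0 := h₁.1 _ (by omega)
    have e2 : ψ₂ (b + 1) = 0 := h₂.1 _ (by omega)
    have e3 : ψ₁ (a - 1) = 0 := h₁.1 _ (by omega)
    have e4 : ψ₂ (a - 1) = 0 := h₂.1 _ (by omega)
    simp only [e1, e2, e3, e4, zero_mul, mul_zero, sub_self, sub_add_cancel] at ht
    rw [Finset.mul_sum, ← sub_eq_zero, ← Finset.sum_sub_distrib]
    rw [← ht]
    apply Finset.sum_congr rfl
    intro n hn
    obtain ⟨hn1, hn2⟩ := Finset.mem_Icc.1 hn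
    have q1 := h₁.2.2 n hn1 hn2
    have q2 := h₂.2.2 n hn1 hn2
    linear_combination ψ₂ n * q1 - ψ₁ n * q2
  · rw [Finset.Icc_eq_empty hab]; simp

lemma lip {V : ℤ → ℝ} {a b m : ℤ} {κ : ℝ} (hκ : 0 < κ) {t₁ t₂ E₁ E₂ : ℝ} {ψ₁ ψ₂ : ℤ → ℝ}
    (h₁ : IsEig (Function.update V m t₁) a b E₁ ψ₁) (h₂ : IsEig (Function.update V m t₂) a b E₂ ψ₂)
    (k₁ : κ ≤ ψ₁ m ^ 2) (k₂ : κ ≤ ψ₂ m ^ 2) : |t₁ - t₂| ≤ 1 / κ * |E₁ - E₂| := by
  have hm : m ∈ Finset.Icc a b := by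
    by_contra hm
    have : ψ₁ m = 0 := h₁.1 m (by rw [Finset.mem_Icc] at hm; omega)
    rw [this] at k₁
    nlinarith
  have hg := green h₁ h₂
  have hs1 : ∑ n ∈ Finset.Icc a b, (Function.update V m t₂ n - Function.update V m t₁ n) *
      (ψ₁ n * ψ₂ n) = (t₂ - t₁) * (ψ₁ m * ψ₂ m) := by
    rw [Finset.sum_eq_single_of_mem m hm (by
      intro n _ hn
      rw [Function.update_of_ne hn, Function.update_of_ne hn, sub_self, zero_mul])]
    rw [Function.update_self, Function.update_self]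
  rw [hs1] at hg
  have hcs := Finset.sum_mul_sq_le_sq_mul_sq (Finset.Icc a b) ψ₁ ψ₂
  have n1 : ∑ n ∈ Finset.Icc a b, ψ₁ n ^ 2 = 1 := h₁.2.1
  have n2 : ∑ n ∈ Finset.Icc a b, ψ₂ n ^ 2 = 1 := h₂.2.1
  rw [n1, n2, mul_one] at hcs
  have hs : |∑ n ∈ Finset.Icc a b, ψ₁ n * ψ₂ n| ≤ 1 := by
    rw [← one_pow 2] at hcs
    exact abs_le_of_sq_le_sq hcs zero_le_one
  have hp : κ ≤ |ψ₁ m * ψ₂ m| := by
    apply le_of_sq_le_sq _ (abs_nonneg _)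
    rw [sq_abs]
    nlinarith [mul_le_mul k₁ k₂ hκ.le (sq_nonneg _)]
  have hd : |t₁ - t₂| * κ ≤ |E₁ - E₂| := by
    calc |t₁ - t₂| * κ ≤ |t₁ - t₂| * |ψ₁ m * ψ₂ m| :=
          mul_le_mul_of_nonneg_left hp (abs_nonneg _)
      _ = |E₁ - E₂| * |∑ n ∈ Finset.Icc a b, ψ₁ n * ψ₂ n| := by
          rw [← abs_mul, ← abs_mul, ← abs_neg, ← abs_neg ((E₁ - E₂) * _)]
          congr 1
          linear_combination -hg
      _ ≤ |E₁ - E₂| * 1 := mul_le_mul_of_nonneg_left hs (abs_nonneg _)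
      _ = |E₁ - E₂| := mul_one _
  rw [one_div, inv_mul_eq_div, le_div_iff₀ hκ]
  exact hd

/-- **Spectral averaging.** -/
theorem taskSA : TaskSA := by
  intro V a b m A κ hκ
  classical
  let S : Set ℝ := {E : ℝ | E ∈ A ∧ ∃ t ψ, IsEig (Function.update V m t) a b E ψ ∧ κ ≤ ψ m ^ 2}
  let T : ℝ → ℝ := fun E => if h : ∃ t ψ, IsEig (Function.update V m t) a b E ψ ∧ κ ≤ ψ m ^ 2
    then h.choose else 0
  have hT : ∀ E, (∃ t ψ, IsEig (Function.update V m t) a b E ψ ∧ κ ≤ ψ m ^ 2) →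
      ∃ ψ, IsEig (Function.update V m (T E)) a b E ψ ∧ κ ≤ ψ m ^ 2 := by
    intro E h
    simp only [T, dif_pos h]
    exact h.choose_spec
  have hsub : {t : ℝ | ∃ E ∈ A, ∃ ψ, IsEig (Function.update V m t) a b E ψ ∧ κ ≤ ψ m ^ 2} ⊆
      T '' S := by
    rintro t ⟨E, hE, ψ, h1, h2⟩
    obtain ⟨ψ', h1', h2'⟩ := hT E ⟨t, ψ, h1, h2⟩
    refine ⟨E, ⟨hE, t, ψ, h1, h2⟩, ?_⟩
    have := lip hκ h1' h1 h2' h2
    rw [sub_self, abs_zero, mul_zero] at this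
    exact sub_eq_zero.1 (abs_nonpos_iff.1 this)
  have hlip : LipschitzOnWith (Real.toNNReal (1 / κ)) T S := by
    apply LipschitzOnWith.of_dist_le_mul
    rintro E ⟨_, h⟩ E' ⟨_, h'⟩
    obtain ⟨ψ, h1, h2⟩ := hT E h
    obtain ⟨ψ', h1', h2'⟩ := hT E' h'
    rw [Real.dist_eq, Real.dist_eq, Real.coe_toNNReal _ (by positivity)]
    exact lip hκ h1 h1' h2 h2'
  calc volume {t : ℝ | ∃ E ∈ A, ∃ ψ, IsEig (Function.update V m t) a b E ψ ∧ κ ≤ ψ m ^ 2}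
      ≤ volume (T '' S) := measure_mono hsub
    _ ≤ ENNReal.ofReal (1 / κ) * volume S := by
        have := hlip.hausdorffMeasure_image_le (d := 1) zero_le_one
        rw [hausdorffMeasure_real, ENNReal.rpow_one] at this
        exact this
    _ ≤ ENNReal.ofReal (1 / κ) * volume A := by
        gcongr
        intro E hE
        exact hE.1

end Pool.Agent.W641.LP
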