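import Pool.Agent.W525.MgA1.Stubs

/-!
# `ℂ[s,t]/(s^n - t^(n-1) - 1)` is a domain
-/

open Polynomial

namespace W525.MgA1.W641

theorem dom : S_DOM := by
  intro n hn
  obtain ⟨k, rfl⟩ : ∃ k, n = k + 2 := ⟨n - 2, by omega⟩
  set c : ℂ[X] := X ^ (k + 2) - 1 with hc
  set F : ℂ[X][X] := X ^ (k + 1) - C c with hF
  have hmon : F.Monic := monic_X_pow_sub_C _ (by omega)
  have hdeg : F.natDegree = k + 1 := natDegree_X_pow_sub_C
  have hdeg' : F.degree = ((k + 1 : ℕ) : WithBot ℕ) := by
    rw [degree_eq_natDegree hmon.ne_zero, hdeg]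
  have hprime : (Ideal.span {(X - C 1 : ℂ[X])}).IsPrime := by
    rw [Ideal.span_singleton_prime (X_sub_C_ne_zero 1)]
    exact prime_X_sub_C 1
  have hcoeff0 : F.coeff 0 = -c := by
    rw [hF, coeff_sub, coeff_C_zero, coeff_X_pow]
    simp
  have hirr : Irreducible F := by
    refine irreducible_of_eisenstein_criterion hprime ?_ ?_ ?_ ?_ hmon.isPrimitive
    · rw [hmon.leadingCoeff]
      intro h
      exact hprime.ne_top ((Ideal.eq_top_iff_one _).mpr h)
    · intro i hi
      rw [hdeg'] at hi
      have hi' : i < k + 1 := by exact_mod_cast hi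
      rcases Nat.eq_zero_or_pos i with rfl | h0
      · rw [hcoeff0, neg_mem_iff, Ideal.mem_span_singleton, dvd_iff_isRoot]
        simp [hc, IsRoot]
      · rw [hF, coeff_sub, coeff_X_pow, if_neg (by omega), coeff_C_of_ne_zero (by omega), sub_zero]
        exact Ideal.zero_mem _
    · rw [hdeg']
      exact_mod_cast Nat.succ_pos k
    · rw [hcoeff0, neg_mem_iff, Ideal.span_singleton_pow, Ideal.mem_span_singleton]
      rintro ⟨q, hq⟩
      have h1 : derivative c = (X - C 1) * (2 * q + (X - C 1) * derivative q) := by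
        rw [hq, sq, derivative_mul, derivative_mul, derivative_sub, derivative_X, derivative_C]
        ring
      have h2 := congrArg (eval 1) h1
      rw [hc] at h2
      simp at h2
      exact absurd h2 (by
        have : ((k : ℂ) + 2) ≠ 0 := by
          have : ((k + 2 : ℕ) : ℂ) ≠ 0 := by
            exact_mod_cast (Nat.succ_ne_zero (k + 1))
          push_cast at this
          exact this
        intro h3
        apply this
        linear_combination h3)
  have hF' : F = X ^ (k + 2 - 1) - C (X ^ (k + 2) - 1) := by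
    rw [hF, hc]
    rfl
  show IsDomain (AdjoinRoot (X ^ (k + 2 - 1) - C (X ^ (k + 2) - 1) : ℂ[X][X]))
  rw [← hF']
  exact AdjoinRoot.isDomain_of_prime hirr.prime

end W525.MgA1.W641
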