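import Pool.Agent.W525.MgA1.Stubs

/-!
# The Cech computation of `H^1` of the structure sheaf of a hyperelliptic curve
-/

open Polynomial

namespace W525.MgA1.W641

section decomp

variable {R : Type} [CommRing R] [Nontrivial R] (f : R[X])

theorem monic_F : (X ^ 2 - C f : R[X][X]).Monic := monic_X_pow_sub_C _ (by norm_num)

theorem deg_F : (X ^ 2 - C f : R[X][X]).degree = 2 := by
  exact_mod_cast degree_X_pow_sub_C (by norm_num : 0 < 2) f

/-- every element is `P(x) + Q(x) y` -/
theorem decomp (z : HRing f) : ∃ P Q : R[X], z = AdjoinRoot.of (X ^ 2 - C f : R[X][X]) P +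
    AdjoinRoot.of (X ^ 2 - C f : R[X][X]) Q * HRing.y f := by
  obtain ⟨p, rfl⟩ := AdjoinRoot.mk_surjective z
  set F : R[X][X] := X ^ 2 - C f with hF
  have h1 : AdjoinRoot.mk F p = AdjoinRoot.mk F (p %ₘ F) := by
    rw [AdjoinRoot.mk_eq_mk]
    refine ⟨p /ₘ F, ?_⟩
    have := modByMonic_add_div p F
    linear_combination (-1 : R[X][X]) * this
  have h2 : (p %ₘ F).degree ≤ 1 := by
    have h3 := degree_modByMonic_lt p (monic_F f)
    rw [deg_F f] at h3
    exact Order.le_of_lt_succ h3
  have h4 := eq_X_add_C_of_degree_le_one h2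
  refine ⟨(p %ₘ F).coeff 0, (p %ₘ F).coeff 1, ?_⟩
  rw [h1]
  conv_lhs => rw [h4]
  rw [map_add, map_mul, AdjoinRoot.mk_C, AdjoinRoot.mk_C, AdjoinRoot.mk_X, add_comm]

/-- uniqueness -/
theorem decomp_unique (P Q : R[X]) (h : AdjoinRoot.of (X ^ 2 - C f : R[X][X]) P +
    AdjoinRoot.of (X ^ 2 - C f : R[X][X]) Q * HRing.y f = 0) : P = 0 ∧ Q = 0 := by
  have h1 : AdjoinRoot.mk (X ^ 2 - C f : R[X][X]) (C Q * X + C P) = 0 := by
    rw [map_add, map_mul, AdjoinRoot.mk_C, AdjoinRoot.mk_C, AdjoinRoot.mk_X, add_comm]
    exact h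
  rw [AdjoinRoot.mk_eq_zero] at h1
  have h2 : (C Q * X + C P : R[X][X]) = 0 := by
    by_contra hne
    refine (monic_F f).not_dvd_of_degree_lt hne ?_ h1
    rw [deg_F f]
    exact lt_of_le_of_lt (degree_linear_le) (by norm_num)
  have h3 := congrArg (fun p : R[X][X] => p.coeff 0) h2
  have h4 := congrArg (fun p : R[X][X] => p.coeff 1) h2
  simp at h3 h4
  exact ⟨h3, h4⟩

end decomp

section main

variable {k : Type} [Field k] {C' : Type} [CommRing C'] [Algebra k C'] (f : k[X])
  (α : HRing f →ₐ[k] C')

theorem alpha_of (P : k[X]) : α (AdjoinRoot.of (X ^ 2 - C f : k[X][X]) P) =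
    aeval (α (HRing.x f)) P := by
  induction P using Polynomial.induction_on with
  | C a =>
    rw [aeval_C]
    exact α.commutes a
  | add p q hp hq => rw [map_add, map_add, map_add, hp, hq]
  | monomial n a h =>
    have e1 : (C a * X ^ (n + 1) : k[X]) = (C a * X ^ n) * X := by ring
    rw [e1, map_mul, map_mul, h, map_mul (aeval (α (HRing.x f))) (C a * X ^ n) X, aeval_X]

theorem gen : S_GEN := by
  intro k _ m hm f g C' _ _ α β hloc hab hy
  set a : C' := α (HRing.x f) with ha
  set b : C' := β (HRing.x g) with hb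
  set y : C' := α (HRing.y f) with hyd
  set v : C' := β (HRing.y g) with hvd
  have hba : b * a = 1 := by rw [mul_comm]; exact hab
  have hA : ∀ P : k[X], α (AdjoinRoot.of (X ^ 2 - C f : k[X][X]) P) = aeval a P :=
    fun P => alpha_of f α P
  have hB : ∀ P : k[X], β (AdjoinRoot.of (X ^ 2 - C g : k[X][X]) P) = aeval b P :=
    fun P => alpha_of g β P
  -- injectivity
  have hinj : Function.Injective α := by
    let _ := α.toRingHom.toAlgebra
    have h1 : Submonoid.powers (HRing.x f) ≤ nonZeroDivisors (HRing f) := by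
      rw [Submonoid.powers_le]
      rw [mem_nonZeroDivisors_iff_right]
      intro z hz
      obtain ⟨P, Q, rfl⟩ := decomp f z
      have h2 : AdjoinRoot.of (X ^ 2 - C f : k[X][X]) (P * X) +
          AdjoinRoot.of (X ^ 2 - C f : k[X][X]) (Q * X) * HRing.y f = 0 := by
        rw [map_mul, map_mul]
        linear_combination hz
      obtain ⟨h3, h4⟩ := decomp_unique f _ _ h2
      have h5 : P = 0 := by simpa [X_ne_zero] using h3
      have h6 : Q = 0 := by simpa [X_ne_zero] using h4
      rw [h5, h6]; simp
    exact IsLocalization.injective C' h1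
  have hsurj : ∀ c : C', ∃ (n : ℕ) (z : HRing f), c * a ^ n = α z := by
    let _ := α.toRingHom.toAlgebra
    intro c
    exact IsLocalization.Away.surj (HRing.x f) c
  have hpow : ∀ n : ℕ, b ^ n * a ^ n = 1 := fun n => by rw [← mul_pow, hba, one_pow]
  have hpow2 : ∀ i n : ℕ, i ≤ n → b ^ i * a ^ n = a ^ (n - i) := by
    intro i n hin
    obtain ⟨d, rfl⟩ := Nat.exists_eq_add_of_le hin
    rw [Nat.add_sub_cancel_left, pow_add, ← mul_assoc, hpow, one_mul]
  have hpow3 : ∀ i n : ℕ, i ≤ n → b ^ n * a ^ i = b ^ (n - i) := by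
    intro i n hin
    obtain ⟨d, rfl⟩ := Nat.exists_eq_add_of_le hin
    rw [Nat.add_sub_cancel_left, pow_add, mul_comm (b ^ i), mul_assoc, hpow, mul_one]
  set W0 : Submodule k C' := LinearMap.range α.toLinearMap ⊔ LinearMap.range β.toLinearMap with hW0
  set e : Fin (m - 1) → C' := fun i => b ^ (i.val + 1) * y with he
  have memA : ∀ z : HRing f, α z ∈ W0 := fun z => Submodule.mem_sup_left ⟨z, rfl⟩
  have memB : ∀ z : HRing g, β z ∈ W0 := fun z => Submodule.mem_sup_right ⟨z, rfl⟩
  -- spanning
  have hspan : ⊤ ≤ Submodule.span k (Set.range fun i => W0.mkQ (e i)) := by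
    have hr : (Set.range fun i => W0.mkQ (e i)) = W0.mkQ '' (Set.range e) := by
      rw [← Set.range_comp]; rfl
    rw [hr, ← Submodule.map_span]
    rintro q -
    obtain ⟨c, rfl⟩ := W0.mkQ_surjective q
    set W : Submodule k C' := W0 ⊔ Submodule.span k (Set.range e) with hW
    have key : c ∈ W → W0.mkQ c ∈ Submodule.map W0.mkQ (Submodule.span k (Set.range e)) := by
      intro hc
      obtain ⟨w1, hw1, w2, hw2, rfl⟩ := Submodule.mem_sup.mp hc
      rw [map_add]
      have : W0.mkQ w1 = 0 := by
        rw [Submodule.mkQ_apply, Submodule.Quotient.mk_eq_zero]; exact hw1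
      rw [this, zero_add]
      exact ⟨w2, hw2, rfl⟩
    apply key
    have m1 : ∀ (n i : ℕ), b ^ n * a ^ i ∈ W := by
      intro n i
      refine Submodule.mem_sup_left ?_
      rcases le_total n i with h | h
      · rw [hpow2 n i h]
        have := memA ((HRing.x f) ^ (i - n))
        rwa [map_pow] at this
      · rw [hpow3 i n h]
        have := memB ((HRing.x g) ^ (n - i))
        rwa [map_pow] at this
    have m2 : ∀ (n i : ℕ), b ^ n * a ^ i * y ∈ W := by
      intro n i
      rcases le_or_gt n i with h | h
      · rw [hpow2 n i h]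
        have := memA ((HRing.x f) ^ (i - n) * HRing.y f)
        rw [map_mul, map_pow] at this
        exact Submodule.mem_sup_left this
      · rw [hpow3 i n h.le]
        rcases le_or_gt m (n - i) with h1 | h1
        · have h2 : b ^ (n - i) * y = b ^ (n - i - m) * v := by
            obtain ⟨d, hd⟩ := Nat.exists_eq_add_of_le h1
            rw [hd, Nat.add_sub_cancel_left, hy, pow_add]
            have := hpow m
            linear_combination b ^ d * v * this
          rw [h2]
          have := memB ((HRing.x g) ^ (n - i - m) * HRing.y g)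
          rw [map_mul, map_pow] at this
          exact Submodule.mem_sup_left this
        · refine Submodule.mem_sup_right (Submodule.subset_span ⟨⟨n - i - 1, by omega⟩, ?_⟩)
          simp only [he]
          congr 2
          omega
    have m3 : ∀ (n : ℕ) (P : k[X]), b ^ n * aeval a P ∈ W := by
      intro n P
      rw [aeval_eq_sum_range, Finset.mul_sum]
      refine W.sum_mem fun i _ => ?_
      rw [mul_smul_comm]
      exact W.smul_mem _ (m1 n i)
    have m4 : ∀ (n : ℕ) (P : k[X]), b ^ n * aeval a P * y ∈ W := by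
      intro n P
      rw [aeval_eq_sum_range, Finset.mul_sum, Finset.sum_mul]
      refine W.sum_mem fun i _ => ?_
      rw [mul_smul_comm, smul_mul_assoc]
      exact W.smul_mem _ (m2 n i)
    obtain ⟨n, z, hz⟩ := hsurj c
    obtain ⟨P, Q, rfl⟩ := decomp f z
    rw [map_add, map_mul, hA, hA] at hz
    have h1 : c = b ^ n * aeval a P + b ^ n * aeval a Q * y := by
      have := hpow n
      calc c = c * (b ^ n * a ^ n) := by rw [this, mul_one]
        _ = b ^ n * (c * a ^ n) := by ring
        _ = _ := by rw [hz]; ring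
    rw [h1]
    exact W.add_mem (m3 n P) (m4 n Q)
  -- independence
  have hli : LinearIndependent k fun i => W0.mkQ (e i) := by
    rw [Fintype.linearIndependent_iff]
    intro lam hlam j
    have h1 : W0.mkQ (∑ i, lam i • e i) = 0 := by
      rw [map_sum]
      simp only [map_smul]
      exact hlam
    rw [Submodule.mkQ_apply, Submodule.Quotient.mk_eq_zero] at h1
    obtain ⟨_, ⟨z, rfl⟩, _, ⟨w, rfl⟩, hzw⟩ := Submodule.mem_sup.mp h1
    have hzw' : α z + β w = ∑ i, lam i • e i := hzw
    obtain ⟨P, Q, rfl⟩ := decomp f z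
    obtain ⟨S, T, rfl⟩ := decomp g w
    rw [map_add, map_mul, hA, hA, map_add, map_mul, hB, hB] at hzw'
    set N := m + S.natDegree + T.natDegree with hN
    have refl : ∀ (n : ℕ) (p : k[X]), p.natDegree ≤ n → a ^ n * aeval b p = aeval a (reflect n p) := by
      intro n p hp
      let _ : Invertible b := ⟨a, hab, hba⟩
      have h2 := eval₂_reflect_mul_pow (algebraMap k C') b n p hp
      have h3 : (⅟b : C') = a := rfl
      rw [h3] at h2
      rw [aeval_def, aeval_def, ← h2]
      have := hpow n
      linear_combination (eval₂ (algebraMap k C') a (reflect n p)) * this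
    have hR1 := refl N S (by omega)
    have hR2 := refl (N - m) T (by omega)
    have hyv : a ^ N * v = a ^ (N - m) * y := by
      rw [hy, ← mul_assoc, ← pow_add]
      congr 2
      omega
    have hE : ∀ i : Fin (m - 1), a ^ N * e i = aeval a (X ^ (N - (i.val + 1)) : k[X]) * y := by
      intro i
      rw [aeval_X_pow]
      simp only [he]
      rw [← mul_assoc, mul_comm (a ^ N), hpow2]
      have := i.2
      omega
    have hS : a ^ N * ∑ i, lam i • e i =
        aeval a (∑ i : Fin (m - 1), C (lam i) * X ^ (N - (i.val + 1)) : k[X]) * y := by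
      rw [map_sum, Finset.mul_sum, Finset.sum_mul]
      refine Finset.sum_congr rfl fun i _ => ?_
      rw [mul_smul_comm, hE, map_mul, aeval_C, Algebra.smul_def]
      ring
    have h4 : aeval a (X ^ N * P + reflect N S) + aeval a (X ^ N * Q + reflect (N - m) T -
        ∑ i : Fin (m - 1), C (lam i) * X ^ (N - (i.val + 1)) : k[X]) * y = 0 := by
      rw [map_add, map_mul, aeval_X_pow, map_sub, map_add, map_mul, aeval_X_pow]
      have h5 := congrArg (fun t => a ^ N * t) hzw'
      beta_reduce at h5
      rw [hS] at h5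
      have h6 : a ^ N * (aeval b T * v) = aeval a (reflect (N - m) T) * y := by
        calc a ^ N * (aeval b T * v) = aeval b T * (a ^ N * v) := by ring
          _ = aeval b T * (a ^ (N - m) * y) := by rw [hyv]
          _ = (a ^ (N - m) * aeval b T) * y := by ring
          _ = _ := by rw [hR2]
      linear_combination h5 - h6 - hR1
    rw [← hA, ← hA, hyd, ← map_mul, ← map_add] at h4
    have h5 := hinj (h4.trans (map_zero α).symm)
    have h6 := (decomp_unique f _ _ h5).2
    have h7 := congrArg (fun p : k[X] => p.coeff (N - (j.val + 1))) h6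
    have hj := j.2
    simp only [coeff_zero] at h7
    rw [coeff_sub, coeff_add, coeff_X_pow_mul', if_neg (by omega), coeff_reflect,
      revAt_eq_self_of_lt (by omega), coeff_eq_zero_of_natDegree_lt (by omega),
      finsetSum_coeff, Finset.sum_eq_single j] at h7
    · rw [coeff_C_mul, coeff_X_pow, if_pos rfl] at h7
      linear_combination -h7
    · intro i _ hij
      rw [coeff_C_mul, coeff_X_pow, if_neg, mul_zero]
      intro h8
      apply hij
      have hi := i.2
      apply Fin.ext
      omega
    · intro h8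
      exact absurd (Finset.mem_univ j) h8
  rw [Module.finrank_eq_card_basis (Module.Basis.mk hli hspan), Fintype.card_fin]

end main

end W525.MgA1.W641
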