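import Pool.Agent.W641.PrgL2

/-!
# From circuits over a gate set to all circuits
-/

set_option autoImplicit false
set_option maxHeartbeats 1000000

namespace Pool.Agent.W641.PRG

open Pool.Agent.H547R7 Pool.Agent.H547R6 Pool.Agent.NPC Pool.Agent.H424R2.PPAD
open Pool.Agent.NPC.W368P

/-! ### renaming of the inputs -/

theorem avail_rename {N M : ℕ} (σ : Fin N → Fin M) (l : List (BF N)) (a : BF N) (ha : Avail l a) :
    Avail (l.map (fun f (y : Fin M → Bool) => f (fun i => y (σ i)))) (fun y => a (fun i => y (σ i))) := by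
  rcases ha with ha | ⟨i, rfl⟩
  · exact Or.inl (List.mem_map.mpr ⟨a, ha, rfl⟩)
  · exact Or.inr ⟨σ i, rfl⟩

theorem gates_rename {B : Set BFun} {N M : ℕ} (σ : Fin N → Fin M) (l : List (BF N))
    (hl : Gates B N l) : Gates B M (l.map (fun f (y : Fin M → Bool) => f (fun i => y (σ i)))) := by
  induction hl with
  | nil => exact Gates.nil
  | gate l k f g hf hg h ih =>
    exact Gates.gate _ k f (fun j y => g j (fun i => y (σ i))) hf
      (fun j => avail_rename σ l _ (hg j)) ih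

theorem computes_rename {B : Set BFun} {N M s : ℕ} (σ : Fin N → Fin M) (f : BF N)
    (h : Computes B N s f) : Computes B M s (fun y => f (fun i => y (σ i))) := by
  obtain ⟨l, hl, hs, ha⟩ := h
  exact ⟨_, gates_rename σ l hl, by simpa using hs, avail_rename σ l f ha⟩

theorem computes_mono {B : Set BFun} {N s t : ℕ} (f : BF N) (hst : s ≤ t)
    (h : Computes B N s f) : Computes B N t f := by
  obtain ⟨l, hl, hs, ha⟩ := h
  exact ⟨l, hl, hs.trans hst, ha⟩

/-! ### lists of points -/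

theorem cp_map {α β : Type} (l : List α) (g : α → β) (p : β → Bool) :
    H547R7.cp (l.map g) p = H547R7.cp l (fun x => p (g x)) := by
  unfold Pool.Agent.H547R7.cp
  rw [List.countP_map, List.length_map]
  rfl

theorem cp_not {α : Type} (l : List α) (hl : l ≠ []) (p : α → Bool) :
    H547R7.cp l (fun x => !p x) = 1 - H547R7.cp l p := by
  unfold Pool.Agent.H547R7.cp
  have h1 : l.countP p + l.countP (fun x => !p x) = l.length := by
    have := List.length_eq_countP_add_countP (l := l) (p := p)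
    simp only [Bool.not_eq_true, Bool.decide_eq_false] at this
    exact this.symm
  have h2 : (l.length : ℝ) ≠ 0 := by
    have := List.length_pos_iff.mpr hl
    exact_mod_cast this.ne'
  field_simp
  have h3 : ((l.countP p : ℕ) : ℝ) + (l.countP (fun x => !p x) : ℕ) = l.length := by
    exact_mod_cast h1
  linarith

theorem pr_not {Ω : Type} [Fintype Ω] [Nonempty Ω] (p : Ω → Bool) :
    pr (fun x => !p x) = 1 - pr p := by
  unfold pr
  have h1 : (Finset.univ.filter fun x => p x = true).card +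
      (Finset.univ.filter fun x => (!p x) = true).card = Fintype.card Ω := by
    have := Finset.card_filter_add_card_filter_not (s := (Finset.univ : Finset Ω))
      (fun x => p x = true)
    rw [Finset.card_univ] at this
    rw [← this]
    congr 2
    ext x
    simp
  have h2 : (Fintype.card Ω : ℝ) ≠ 0 := by
    exact_mod_cast Fintype.card_ne_zero
  field_simp
  have h3 : ((Finset.univ.filter fun x => p x = true).card : ℝ) +
      (Finset.univ.filter fun x => (!p x) = true).card = Fintype.card Ω := by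
    exact_mod_cast h1
  linarith

theorem pr_false {Ω : Type} [Fintype Ω] : pr (fun _ : Ω => false) = 0 := by
  unfold pr; simp

theorem comp0_not {n q : ℕ} (C : BF n) (h : Comp0 n q C) : Comp0 n q (fun x => !C x) := by
  obtain ⟨l, s, hl, hs, ha⟩ := h
  exact ⟨_, s, AON.not _ _ _ hl ha, hs, avail_head _ _⟩

/-- the points given by a generator fool the test -/
theorem good_of (h1 : S_PRJ) (h2 : S_ALS) {B : Set BFun} {cG : ℕ}
    (hG : ∀ (n s : ℕ) (f : BF n), Computes MB n s f →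
      Computes B (n + 1) (cG * (s + 1)) (fun x => x 0 && f (fun i => x i.succ)))
    (e n M dM : ℕ) (Gf : List Bool → List Bool) (ε : ℝ) (hε : 0 ≤ ε) (hM1 : rr e n * n + 1 ≤ M)
    (hfool : ∀ C ∈ TB B M, |pr (fun s : Fin dM → Bool => C (vec M (Gf (List.ofFn s)))) - pr C| ≤ ε)
    (P : ℕ) (hP : cG * (P + 1) ≤ M) (T : BF (rr e n * n)) (hT : MC (rr e n * n) P T) :
    Good e n ((allS dM).map Gf) ε T := by
  have key : Computes B (rr e n * n + 1) M (fun x => x 0 && T (fun i => x i.succ)) →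
      Good e n ((allS dM).map Gf) ε T := by
    intro hc
    have hcM := computes_rename (Fin.castLE hM1) _ hc
    have h3 := hfool _ hcM
    rw [h1.1 (rr e n * n + 1) M hM1 (fun x => x 0 && T (fun i => x i.succ)), h1.2 (rr e n * n) T] at h3
    unfold Good
    rw [cp_map, h2.2.2]
    have e1 : (fun s : Fin dM → Bool => (fun y : Fin M → Bool =>
        (fun x : Fin (rr e n * n + 1) → Bool => x 0 && T (fun i => x i.succ)) fun i => y (Fin.castLE hM1 i))
          (vec M (Gf (List.ofFn s)))) =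
        fun s : Fin dM → Bool => ((Gf (List.ofFn s)).getD 0 false &&
          T (vecD e n (Gf (List.ofFn s)))) := by
      funext s
      have e2 : (fun i : Fin (rr e n * n) => vec M (Gf (List.ofFn s)) (Fin.castLE hM1 i.succ)) =
          vecD e n (Gf (List.ofFn s)) := by
        funext i
        simp only [vec, vecD, Fin.val_castLE, Fin.val_succ]
        rw [add_comm]
      show (vec M (Gf (List.ofFn s)) (Fin.castLE hM1 0) &&
        T (fun i : Fin (rr e n * n) => vec M (Gf (List.ofFn s)) (Fin.castLE hM1 i.succ))) = _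
      rw [e2]
      rfl
    rw [← e1]
    exact h3
  rcases hT with ⟨b, hb⟩ | hT
  · cases b with
    | false =>
      unfold Good
      have e1 : (fun y : List Bool => (y.getD 0 false && T (vecD e n y))) = fun _ => false := by
        funext y; rw [hb]; simp
      have e2 : T = fun _ => false := funext hb
      rw [e1, e2, pr_false]
      have : H547R7.cp ((allS dM).map Gf) (fun _ => false) = 0 := by
        unfold Pool.Agent.H547R7.cp
        have : ((allS dM).map Gf).countP (fun _ => false) = 0 := by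
          rw [List.countP_eq_zero]; simp
        rw [this]; simp
      rw [this]; simpa using hε
    | true =>
      apply key
      refine ⟨[], Gates.nil, by simp, Or.inr ⟨0, ?_⟩⟩
      funext x
      rw [hb]; simp
  · exact key (computes_mono _ hP (hG _ P T hT))

/-! ### the new list of points -/

theorem mem_dL {e n : ℕ} {ys : List (List Bool)} (hy : ∀ y ∈ ys, 1 + rr e n * n ≤ y.length)
    {x : List Bool} (hx : x ∈ dL e n ys) : x.length = n := by
  unfold dL at hx
  obtain ⟨y, hys, hx⟩ := List.mem_flatMap.mp hx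
  split_ifs at hx with hp
  · have hx := List.mem_of_mem_take hx
    unfold mbL at hx
    obtain ⟨i, hi, rfl⟩ := List.mem_map.mp hx
    rw [List.mem_filter, List.mem_range] at hi
    have h1 := hy y hys
    have h2 : n * (i + 1) ≤ rr e n * n := by
      rw [mul_comm]
      exact Nat.mul_le_mul_right _ hi.1
    unfold blkL
    rw [List.length_take, List.length_drop]
    have h3 : n * (i + 1) = n * i + n := by ring
    omega
  · simp at hx

theorem length_dL (e n : ℕ) (ys : List (List Bool)) : (dL e n ys).length ≤ ys.length * kk e n := by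
  unfold dL
  rw [List.length_flatMap]
  induction ys with
  | nil => simp
  | cons y ys ih =>
    rw [List.map_cons, List.sum_cons, List.length_cons, add_mul, one_mul, add_comm]
    refine Nat.add_le_add ih ?_
    split_ifs with h
    · rw [List.length_take]
      exact min_le_left _ _
    · simp

theorem le_sq_add (x : ℝ) (hx : 0 ≤ x) : x ≤ (x + 2) ^ 2 := by nlinarith

theorem t_L1A (h1 : S_PRJ) (h2 : S_ALS) (h3 : S_MOD) (h4 : S_GAD) (h5 : S_COR) (h6 : S_CPX)
    (h7 : S_L1P) : S_L1A := by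
  intro B hB ε hε hε6 hgen
  obtain ⟨cG, hcG⟩ := h4 B hB
  obtain ⟨d, G, hd, hG, c, m₀, H⟩ := hgen
  -- constants
  set η : ℝ := 1 / 6 - ε with hη
  have hη0 : 0 < η := by rw [hη]; linarith
  have hη6 : η ≤ 1 / 6 := by rw [hη]; linarith
  obtain ⟨e, he⟩ := exists_nat_ge (5 / η + 10)
  have h5η : 0 < 5 / η := by positivity
  have he10 : (10 : ℝ) ≤ e := by linarith
  have he8 : 8 ≤ e := by
    have : (8 : ℝ) ≤ e := by linarith
    exact_mod_cast this
  have heη : 5 + 10 * η ≤ η * e := by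
    have h8 : (5 / η + 10) * η = 5 + 10 * η := by field_simp
    rw [← h8, mul_comm η]
    exact mul_le_mul_of_nonneg_right he hη0.le
  have hu1 : 1 / (8 * (e : ℝ)) ≤ η / 2 := by
    rw [div_le_iff₀ (by positivity)]
    have h8 : η / 2 * (8 * (e : ℝ)) = 4 * (η * e) := by ring
    rw [h8]
    linarith
  have hu0 : 0 < 1 / (8 * (e : ℝ)) := by positivity
  have hq1 : 5 / ((e : ℝ) - 2) ≤ η := by
    rw [div_le_iff₀ (by linarith)]
    have h8 : η * ((e : ℝ) - 2) = η * e - 2 * η := by ring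
    rw [h8]
    linarith
  set u : ℝ := ε + 1 / (8 * (e : ℝ)) with hu
  have hu2 : u ≤ 1 / 6 - η / 2 := by rw [hu]; linarith
  have hu3 : 0 ≤ u := by rw [hu]; linarith
  have hq2 : u / (1 / 2 - ε - 1 / (8 * (e : ℝ))) ≤ 1 / 2 - 3 * η / 2 := by
    have : 1 / 2 - ε - 1 / (8 * (e : ℝ)) = 1 / 2 - u := by rw [hu]; ring
    rw [this, div_le_iff₀ (by linarith)]
    have h8 : (1 / 2 - 3 * η / 2) * (1 / 2 - u) = 1 / 4 - 3 * η / 4 - u / 2 + 3 / 2 * (η * u) := by
      ring
    have h9 : 0 ≤ η * u := mul_nonneg hη0.le hu3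
    rw [h8]
    linarith
  obtain ⟨A, hA⟩ : ∃ A, A = 6 * c + 3 := ⟨_, rfl⟩
  obtain ⟨K1, hK1⟩ : ∃ K1, K1 = 2 * e ^ 3 := ⟨_, rfl⟩
  obtain ⟨n₁, hn₁⟩ := exists_nat_ge (4 * (K1 : ℝ) / η)
  obtain ⟨K2, hK2⟩ : ∃ K2, K2 = cG * (12 * K1 + 4 * K1 * (K1 + 1) + 2) := ⟨_, rfl⟩
  refine ⟨1 / 2 - η / 4, by linarith, fun n => A * (Nat.log 2 n + 2), gen1 e c 6 d G, ?_,
    h7 e c 6 d G hd hG, 3 * A, m₀ + n₁ + K1 + K2 + 4 + 2 ^ (3 * A + 4), ?_⟩
  · refine PTime.of_poly (Pool.Agent.NPC.Poly.mul (Pool.Agent.NPC.Poly.const A) (Pool.Agent.NPC.Poly.add (poly_log (Poly.length Poly.id))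
      (Pool.Agent.NPC.Poly.const 2)))
  intro n hn
  have hp2 : 0 < 2 ^ (3 * A + 4) := by positivity
  have hn2 : 4 ≤ n := by omega
  have hlog := log_small (3 * A) n (by omega)
  have hlog1 : 1 ≤ Nat.log 2 n := Nat.le_log_of_pow_le (by norm_num) (by omega)
  have hd' : A * (Nat.log 2 n + 2) ≤ 3 * A * Nat.log 2 n := by
    calc A * (Nat.log 2 n + 2) ≤ A * (3 * Nat.log 2 n) := Nat.mul_le_mul_left _ (by omega)
      _ = 3 * A * Nat.log 2 n := by ring
  refine ⟨hd', lt_of_le_of_lt hd' hlog, ?_⟩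
  -- the parameter M
  set M := (n + 2) ^ 6 with hM
  have hMn : n + 2 ≤ M := Nat.le_self_pow (by norm_num) _
  obtain ⟨g1, -, g3, g4⟩ := H M (by omega)
  have hrr : rr e n ≤ K1 * (n + 2) ^ 2 := by
    unfold rr
    rw [hK1]
    exact Nat.mul_le_mul_left _ (Nat.pow_le_pow_left (by omega) 2)
  have hpow : ∀ i j : ℕ, i ≤ j → (n + 2) ^ i ≤ (n + 2) ^ j := fun i j hij =>
    Nat.pow_le_pow_right (by omega) hij
  have hN : rr e n * n + 1 ≤ M := by
    calc rr e n * n + 1 ≤ K1 * (n + 2) ^ 2 * (n + 2) + (n + 2) ^ 3 := by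
          refine Nat.add_le_add (Nat.mul_le_mul hrr (by omega)) (Nat.one_le_pow _ _ (by omega))
      _ = (K1 + 1) * (n + 2) ^ 3 := by ring
      _ ≤ (n + 2) * (n + 2) ^ 3 := Nat.mul_le_mul_right _ (by omega)
      _ = (n + 2) ^ 4 := by ring
      _ ≤ M := hpow 4 6 (by norm_num)
  set P := 2 * (rr e n * (4 * (n + 1) ^ 3 + 2 * n) + 2 * rr e n * (rr e n + 1)) + 1 with hPdef
  have hP : cG * (P + 1) ≤ M := by
    have a1 : 4 * (n + 1) ^ 3 + 2 * n ≤ 6 * (n + 2) ^ 3 := by
      have b1 : (n + 1) ^ 3 ≤ (n + 2) ^ 3 := Nat.pow_le_pow_left (by omega) 3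
      have b2 : n ≤ (n + 2) ^ 3 := le_trans (by omega) (Nat.le_self_pow (n := 3) (by norm_num) _)
      omega
    have a2 : rr e n + 1 ≤ (K1 + 1) * (n + 2) ^ 2 := by
      have h8 : 1 ≤ (n + 2) ^ 2 := Nat.one_le_pow _ _ (by omega)
      calc rr e n + 1 ≤ K1 * (n + 2) ^ 2 + (n + 2) ^ 2 := Nat.add_le_add hrr h8
        _ = (K1 + 1) * (n + 2) ^ 2 := by ring
    have a3 : rr e n * (4 * (n + 1) ^ 3 + 2 * n) ≤ 6 * K1 * (n + 2) ^ 5 := by
      calc rr e n * (4 * (n + 1) ^ 3 + 2 * n) ≤ K1 * (n + 2) ^ 2 * (6 * (n + 2) ^ 3) :=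
            Nat.mul_le_mul hrr a1
        _ = 6 * K1 * (n + 2) ^ 5 := by ring
    have a4 : 2 * rr e n * (rr e n + 1) ≤ 2 * K1 * (K1 + 1) * (n + 2) ^ 5 := by
      calc 2 * rr e n * (rr e n + 1) ≤ 2 * (K1 * (n + 2) ^ 2) * ((K1 + 1) * (n + 2) ^ 2) :=
            Nat.mul_le_mul (Nat.mul_le_mul_left _ hrr) a2
        _ = 2 * K1 * (K1 + 1) * (n + 2) ^ 4 := by ring
        _ ≤ 2 * K1 * (K1 + 1) * (n + 2) ^ 5 := Nat.mul_le_mul_left _ (hpow 4 5 (by norm_num))
    have a5 : P + 1 ≤ (12 * K1 + 4 * K1 * (K1 + 1) + 2) * (n + 2) ^ 5 := by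
      have b1 : 1 ≤ (n + 2) ^ 5 := Nat.one_le_pow _ _ (by omega)
      calc P + 1 ≤ 2 * (6 * K1 * (n + 2) ^ 5 + 2 * K1 * (K1 + 1) * (n + 2) ^ 5) + 2 := by
            rw [hPdef]; omega
        _ ≤ 2 * (6 * K1 * (n + 2) ^ 5 + 2 * K1 * (K1 + 1) * (n + 2) ^ 5) + 2 * (n + 2) ^ 5 := by
            omega
        _ = (12 * K1 + 4 * K1 * (K1 + 1) + 2) * (n + 2) ^ 5 := by ring
    calc cG * (P + 1) ≤ cG * ((12 * K1 + 4 * K1 * (K1 + 1) + 2) * (n + 2) ^ 5) :=
          Nat.mul_le_mul_left _ a5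
      _ = K2 * (n + 2) ^ 5 := by rw [hK2]; ring
      _ ≤ (n + 2) * (n + 2) ^ 5 := Nat.mul_le_mul_right _ (by omega)
      _ = M := by rw [hM]; ring
  -- the points
  set ys := (allS (d M)).map (G M) with hys
  have hys0 : ys ≠ [] := by
    rw [hys]
    intro h
    rw [List.map_eq_nil_iff] at h
    have := h2.1 (d M)
    rw [h] at this
    simp at this
    exact absurd this.symm (by positivity)
  have hysl : ∀ y ∈ ys, 1 + rr e n * n ≤ y.length := by
    intro y hy
    obtain ⟨s, hs, rfl⟩ := List.mem_map.mp hy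
    rw [g3 s (h2.2.1 _ s hs)]
    omega
  have hn1 : 1 ≤ n := by omega
  have hgood : ∀ T : BF (rr e n * n), MC (rr e n * n) P T → Good e n ys ε T := fun T hT =>
    good_of h1 h2 hcG e n M (d M) (G M) ε hε hN g4 P hP T hT
  set D := dL e n ys with hD
  -- the error of the points
  have hcore : ∀ C : BF n, Comp0 n n C → D ≠ [] ∧
      H547R7.cp D (fun x => C (vec n x)) ≤ pr C + (1 / 2 - η / 2) := by
    intro C hC
    have c0 := h6 e n C 0 hn1 hC
    have := h5 e n ys ε C he8 hn1 hys0 hysl (by rw [← hu]; linarith) (hgood _ c0.1)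
      (hgood _ c0.2.1) (fun θ => hgood _ (h6 e n C θ hn1 hC).2.2)
    refine ⟨this.1, this.2.trans ?_⟩
    linarith
  have hD0 : D ≠ [] := by
    have hav : Comp0 n n (fun x : Fin n → Bool => x ⟨0, hn1⟩) :=
      ⟨[], 0, AON.nil, by omega, Or.inr ⟨_, rfl⟩⟩
    exact (hcore _ hav).1
  have hgenD : ∀ s : List Bool, gen1 e c 6 d G n s =
      D.getD (valB s % D.length) (List.replicate n false) := by
    intro s
    have g1' : d ((n + 2) ^ 6) ≤ c * Nat.log 2 ((n + 2) ^ 6) := g1
    simp only [gen1]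
    rw [if_pos g1']
    rw [if_neg (show ¬ dL e n ((allS (d ((n + 2) ^ 6))).map (G ((n + 2) ^ 6))) = [] from hD0)]
  refine ⟨?_, ?_⟩
  · intro s _
    rw [hgenD]
    rw [List.getD_eq_getElem?_getD]
    rcases hq : D[valB s % D.length]? with _ | x
    · simp
    · simp only [Option.getD_some]
      exact mem_dL hysl (List.mem_of_getElem? hq)
  intro C hC
  have hC' : Comp0 n n C := by
    have : Comp0 n (n ^ 1) C := hC
    rwa [pow_one] at this
  have k1 := (hcore C hC').2
  have k2 := (hcore (fun x => !C x) (comp0_not C hC')).2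
  rw [cp_not D hD0 (fun x => C (vec n x)), pr_not] at k2
  have k3 := h3 (List Bool) (List.replicate n false) D (fun x => C (vec n x))
    (A * (Nat.log 2 n + 2)) hD0
  -- length of D
  have hlenD : (D.length : ℝ) / 2 ^ (A * (Nat.log 2 n + 2)) ≤ η / 4 := by
    have b1 : D.length ≤ 2 ^ (d M) * kk e n := by
      have := length_dL e n ys
      rwa [hys, List.length_map, h2.1] at this
    have b2 : kk e n ≤ K1 * (n + 2) := by
      unfold kk
      rw [hK1]
      refine (Nat.sub_le _ _).trans (Nat.mul_le_mul_left _ (by omega))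
    have b3 : 2 ^ d M ≤ (n + 2) ^ (6 * c) := by
      have hM0 : M ≠ 0 := by omega
      calc 2 ^ d M ≤ 2 ^ (c * Nat.log 2 M) := Nat.pow_le_pow_right (by norm_num) g1
        _ = (2 ^ Nat.log 2 M) ^ c := by rw [← pow_mul, mul_comm]
        _ ≤ M ^ c := Nat.pow_le_pow_left (Nat.pow_log_le_self 2 hM0) c
        _ = (n + 2) ^ (6 * c) := by rw [hM, ← pow_mul]
    have b4 : D.length ≤ K1 * (n + 2) ^ (6 * c + 1) := by
      calc D.length ≤ 2 ^ (d M) * kk e n := b1
        _ ≤ (n + 2) ^ (6 * c) * (K1 * (n + 2)) := Nat.mul_le_mul b3 b2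
        _ = K1 * (n + 2) ^ (6 * c + 1) := by ring
    have b5 : n + 2 ≤ 2 ^ (Nat.log 2 n + 2) := by
      have := Nat.lt_pow_succ_log_self (b := 2) (by norm_num) n
      rw [pow_succ] at this ⊢
      omega
    have b6 : (n + 2) ^ A ≤ 2 ^ (A * (Nat.log 2 n + 2)) := by
      rw [mul_comm, pow_mul]
      exact Nat.pow_le_pow_left b5 A
    have b7 : ((n : ℝ) + 2) ^ A ≤ 2 ^ (A * (Nat.log 2 n + 2)) := by exact_mod_cast b6
    have b8 : (D.length : ℝ) ≤ K1 * ((n : ℝ) + 2) ^ (6 * c + 1) := by exact_mod_cast b4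
    have b9 : 4 * (K1 : ℝ) / η ≤ n := hn₁.trans (by
      have : n₁ ≤ n := by omega
      exact_mod_cast this)
    rw [div_le_iff₀ hη0] at b9
    rw [div_le_iff₀ (by positivity)]
    have b10 : ((n : ℝ) + 2) ^ A = ((n : ℝ) + 2) ^ (6 * c + 1) * ((n : ℝ) + 2) ^ 2 := by
      rw [hA, ← pow_add]
    have b11 : (0 : ℝ) < ((n : ℝ) + 2) ^ (6 * c + 1) := by positivity
    calc (D.length : ℝ) ≤ K1 * ((n : ℝ) + 2) ^ (6 * c + 1) := b8
      _ ≤ (η / 4 * ((n : ℝ) + 2) ^ 2) * ((n : ℝ) + 2) ^ (6 * c + 1) := by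
          refine mul_le_mul_of_nonneg_right ?_ b11.le
          have hn0 : (0 : ℝ) ≤ n := Nat.cast_nonneg n
          have hn3 : (n : ℝ) ≤ ((n : ℝ) + 2) ^ 2 := le_sq_add _ hn0
          have hn4 : η / 4 * n ≤ η / 4 * ((n : ℝ) + 2) ^ 2 :=
            mul_le_mul_of_nonneg_left hn3 (by positivity)
          linarith
      _ = η / 4 * ((n : ℝ) + 2) ^ A := by rw [b10]; ring
      _ ≤ η / 4 * 2 ^ (A * (Nat.log 2 n + 2)) := mul_le_mul_of_nonneg_left b7 (by positivity)
  have e1 : pr (fun s : Fin (A * (Nat.log 2 n + 2)) → Bool =>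
      C (vec n (gen1 e c 6 d G n (List.ofFn s)))) =
      pr (fun s : Fin (A * (Nat.log 2 n + 2)) → Bool => (fun x => C (vec n x))
        (D.getD (valB (List.ofFn s) % D.length) (List.replicate n false))) := by
    congr 1
    funext s
    rw [hgenD]
  show |pr (fun s : Fin (A * (Nat.log 2 n + 2)) → Bool =>
      C (vec n (gen1 e c 6 d G n (List.ofFn s)))) - pr C| ≤ 1 / 2 - η / 4
  rw [e1]
  have k4 := k3.trans hlenD
  rw [abs_le] at k4 ⊢
  constructor <;> linarith [k4.1, k4.2]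

end Pool.Agent.W641.PRG
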