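import Pool.Agent.W641.PrgOrg
import Pool.Agent.W368.PrgL1p

/-!
# The sum of two copies of a generator: error reduction
-/

set_option autoImplicit false

namespace Pool.Agent.W641.PRG

open Pool.Agent.H547R7 Pool.Agent.H547R6 Pool.Agent.NPC Pool.Agent.H424R2.PPAD
open Pool.Agent.NPC.W368P

/-! ### circuits -/

theorem avail_subst {n N : ℕ} (l : List (BF n)) (L : List (BF N)) (G : Fin n → BF N)
    (hG : ∀ i, Avail L (G i)) (a : BF n) (ha : Avail l a) :
    Avail (l.map (fun f x => f (fun i => G i x)) ++ L) (fun x => a (fun i => G i x)) := by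
  rcases ha with ha | ⟨i, rfl⟩
  · exact Or.inl (List.mem_append_left _ (List.mem_map.mpr ⟨a, ha, rfl⟩))
  · exact avail_append _ _ _ (hG i)

/-- substitution of available functions into a circuit -/
theorem aon_subst {n N : ℕ} (t : ℕ) (L : List (BF N)) (hL : AON N t L) (G : Fin n → BF N)
    (hG : ∀ i, Avail L (G i)) : ∀ (s : ℕ) (l : List (BF n)), AON n s l →
    AON N (s + t) (l.map (fun f x => f (fun i => G i x)) ++ L) := by
  intro s l h
  induction h with
  | nil => simpa using hL
  | not s l a h ha ih =>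
    exact AON.not _ _ _ ih (avail_subst l L G hG a ha)
  | and s l a b h ha hb ih =>
    have := AON.and _ _ _ _ ih (avail_subst l L G hG a ha) (avail_subst l L G hG b hb)
    rw [show s + 1 + t = s + t + 1 by ring]
    exact this
  | or s l a b h ha hb ih =>
    have := AON.or _ _ _ _ ih (avail_subst l L G hG a ha) (avail_subst l L G hG b hb)
    rw [show s + 1 + t = s + t + 1 by ring]
    exact this

/-- substitution of available functions into a monotone circuit -/
theorem mb_subst {n N : ℕ} (t : ℕ) (L : List (BF N)) (hL : AON N t L) (G : Fin n → BF N)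
    (hG : ∀ i, Avail L (G i)) : ∀ (l : List (BF n)), Gates MB n l →
    AON N (l.length + t) (l.map (fun f x => f (fun i => G i x)) ++ L) := by
  intro l h
  induction h with
  | nil => simpa using hL
  | gate l k f g hf hg h ih =>
    have hav : ∀ j, Avail (l.map (fun f x => f (fun i => G i x)) ++ L)
        (fun x => g j (fun i => G i x)) := fun j => avail_subst l L G hG _ (hg j)
    rw [List.length_cons, show l.length + 1 + t = l.length + t + 1 by ring]
    rcases hf with hf | hf
    · cases hf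
      exact AON.and _ _ _ _ ih (hav 0) (hav 1)
    · cases hf
      exact AON.or _ _ _ _ ih (hav 0) (hav 1)

/-- the negations of the inputs are free -/
theorem aon_nots (n : ℕ) : ∀ J : List (Fin n), AON n 0 (J.map fun j (y : Fin n → Bool) => !y j) := by
  intro J
  induction J with
  | nil => exact AON.nil
  | cons j J ih => exact AON.not 0 _ _ ih (Or.inr ⟨j, rfl⟩)

theorem comp0_const (n : ℕ) (hn : 1 ≤ n) (b : Bool) : Comp0 n 1 (fun _ => b) := by
  have hx : Avail ([] : List (BF n)) (fun x : Fin n → Bool => x ⟨0, hn⟩) := Or.inr ⟨_, rfl⟩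
  have h1 := AON.not 0 _ _ AON.nil hx
  have hx1 := avail_cons (fun x : Fin n → Bool => !x ⟨0, hn⟩) [] _ hx
  cases b with
  | true =>
    refine ⟨_, 1, AON.or 0 _ _ _ h1 hx1 (avail_head _ _), le_refl _, ?_⟩
    refine Or.inl (List.mem_cons.mpr (Or.inl ?_))
    funext x
    cases x ⟨0, hn⟩ <;> rfl
  | false =>
    refine ⟨_, 1, AON.and 0 _ _ _ h1 hx1 (avail_head _ _), le_refl _, ?_⟩
    refine Or.inl (List.mem_cons.mpr (Or.inl ?_))
    funext x
    cases x ⟨0, hn⟩ <;> rfl

/-- `T` shifted copies of a circuit -/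
theorem copies {n q : ℕ} (C : BF n) (hC : Comp0 n q C) : ∀ (T : ℕ) (us : Fin T → Fin n → Bool),
    ∃ L s', AON n s' L ∧ s' ≤ T * q ∧ (∀ j : Fin n, Avail L (fun y => !y j)) ∧
      ∀ i, Avail L (fun y => C (vx (us i) y)) := by
  obtain ⟨l0, s0, hl0, hs0, hC0⟩ := hC
  intro T
  induction T with
  | zero =>
    intro us
    refine ⟨_, 0, aon_nots n (List.finRange n), by simp, ?_, fun i => i.elim0⟩
    intro j
    exact Or.inl (List.mem_map.mpr ⟨j, List.mem_finRange j, rfl⟩)
  | succ T ih =>
    intro us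
    obtain ⟨L, s', hL, hs', hn, hc⟩ := ih (fun i => us i.castSucc)
    have hG : ∀ j, Avail L ((fun j (y : Fin n → Bool) => xor (us (Fin.last T) j) (y j)) j) := by
      intro j
      rcases hb : us (Fin.last T) j with _ | _
      · exact Or.inr ⟨j, by funext y; simp [hb]⟩
      · have := hn j
        have e : (fun y : Fin n → Bool => xor (us (Fin.last T) j) (y j)) = fun y => !y j := by
          funext y; simp [hb]
        show Avail L (fun y : Fin n → Bool => xor (us (Fin.last T) j) (y j))
        rw [e]; exact this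
    refine ⟨_, s0 + s', aon_subst s' L hL _ hG s0 l0 hl0, by nlinarith, ?_, ?_⟩
    · intro j
      exact avail_append _ _ _ (hn j)
    · intro i
      refine Fin.lastCases ?_ (fun i => ?_) i
      · exact avail_subst l0 L _ hG C hC0
      · exact avail_append _ _ _ (hc i)

/-- thresholds of shifted copies -/
theorem comp0_thr (ht : S_THR) {n q : ℕ} (hn : 1 ≤ n) (C : BF n) (hC : Comp0 n q C) (T : ℕ)
    (us : Fin T → Fin n → Bool) (θ : ℕ) :
    Comp0 n (T * q + 2 * T * (T + 1) + 1) (fun y => decide (θ ≤ (Finset.univ.filter fun i =>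
      C (vx (us i) y) = true).card)) := by
  obtain ⟨L, s', hL, hs', -, hc⟩ := copies C hC T us
  obtain ⟨l', hl', hlen, hm⟩ := ht T T [] (fun i x => x i) Gates.nil
    (fun i => Or.inr (Or.inr ⟨i, rfl⟩)) θ
  rcases hm with ⟨b, hb⟩ | hm
  · obtain ⟨l1, s1, hl1, hs1, h1⟩ := comp0_const n hn b
    refine ⟨l1, s1, hl1, by omega, ?_⟩
    have e : (fun y : Fin n → Bool => decide (θ ≤ (Finset.univ.filter fun i =>
      C (vx (us i) y) = true).card)) = fun _ => b := by
      funext y
      exact hb (fun i => C (vx (us i) y))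
    rw [e]
    exact h1
  · have := mb_subst s' L hL (fun i y => C (vx (us i) y)) hc _ hl'
    refine ⟨_, _, this, ?_, ?_⟩
    · simp only [List.append_nil] at hlen ⊢
      omega
    · exact avail_subst (l' ++ []) L _ hc _ hm

/-! ### probabilities -/

theorem pr_equiv {Ω Ω' : Type} [Fintype Ω] [Fintype Ω'] (e : Ω ≃ Ω') (p : Ω' → Bool) :
    pr (fun w => p (e w)) = pr p := by
  unfold pr
  rw [Fintype.card_congr e]
  congr 2
  refine Finset.card_bij (fun w _ => e w) ?_ ?_ ?_
  · intro w hw
    simpa using hw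
  · intro a _ b _ h
    exact e.injective h
  · intro b hb
    exact ⟨e.symm b, by simpa using hb, by simp⟩

theorem vx_vx {n : ℕ} (x y : Fin n → Bool) : vx (vx x y) y = x := by
  funext i
  simp [vx]

theorem vx_comm {n : ℕ} (x y : Fin n → Bool) : vx x y = vx y x := by
  funext i
  simp [vx, Bool.xor_comm]

theorem pr_shift {n : ℕ} (C : BF n) (y : Fin n → Bool) : pr (fun x => C (vx x y)) = pr C :=
  pr_equiv (⟨fun x => vx x y, fun x => vx x y, fun x => vx_vx x y, fun x => vx_vx x y⟩ :
    (Fin n → Bool) ≃ (Fin n → Bool)) C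

/-! ### the new generator -/

/-- the sum of two copies -/
def gen2 (d : ℕ → ℕ) (G : ℕ → List Bool → List Bool) (m : ℕ) (s : List Bool) : List Bool :=
  List.zipWith xor (G m (s.take (d m))) (G m (s.drop (d m)))

theorem ptime_gen2 (d : ℕ → ℕ) (G : ℕ → List Bool → List Bool)
    (hd : PTime (fun u : List Bool => d u.length))
    (hG : PTime (fun p : List Bool × List Bool => G p.1.length p.2)) :
    PTime (fun p : List Bool × List Bool => gen2 d G p.1.length p.2) := by
  apply PTime.of_poly
  have hd' := hd.toPoly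
  have hG' := hG.toPoly
  have hdp : Poly (fun p : List Bool × List Bool => d p.1.length) :=
    hd'.comp (Poly.fst Poly.id)
  have h1 : Poly (fun p : List Bool × List Bool => G p.1.length (p.2.take (d p.1.length))) :=
    hG'.comp (f := fun p : List Bool × List Bool => (p.1, p.2.take (d p.1.length)))
      (Poly.pair (Poly.fst Poly.id) (poly_take (Poly.snd Poly.id) hdp))
  have h2 : Poly (fun p : List Bool × List Bool => G p.1.length (p.2.drop (d p.1.length))) :=
    hG'.comp (f := fun p : List Bool × List Bool => (p.1, p.2.drop (d p.1.length)))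
      (Poly.pair (Poly.fst Poly.id) (poly_drop (Poly.snd Poly.id) hdp))
  refine (Pool.Agent.NPC.Poly.map (F := fun _ (q : Bool × Bool) => xor q.1 q.2) (Poly.zip h1 h2)
    (Poly.xor (Poly.fst (Poly.snd Poly.id)) (Poly.snd (Poly.snd Poly.id)))).congr fun p => ?_
  unfold gen2
  rw [List.map_zip_eq_zipWith]
  rfl

theorem vec_gen2 (d : ℕ → ℕ) (G : ℕ → List Bool → List Bool) (m : ℕ)
    (hl : ∀ s : List Bool, s.length = d m → (G m s).length = m) (a b : Fin (d m) → Bool) :
    vec m (gen2 d G m (List.ofFn (Fin.append a b))) =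
      vx (vec m (G m (List.ofFn a))) (vec m (G m (List.ofFn b))) := by
  have h1 : (List.ofFn (Fin.append a b)).take (d m) = List.ofFn a := by
    rw [List.ofFn_fin_append, List.take_left' (by simp)]
  have h2 : (List.ofFn (Fin.append a b)).drop (d m) = List.ofFn b := by
    rw [List.ofFn_fin_append, List.drop_left' (by simp)]
  have l1 := hl (List.ofFn a) (by simp)
  have l2 := hl (List.ofFn b) (by simp)
  funext i
  simp only [vec, gen2, vx, h1, h2]
  have hi : i.val < (List.zipWith xor (G m (List.ofFn a)) (G m (List.ofFn b))).length := by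
    rw [List.length_zipWith, l1, l2]; simp
  rw [List.getD_eq_getElem _ _ hi, List.getD_eq_getElem _ _ (by rw [l1]; exact i.2),
    List.getD_eq_getElem _ _ (by rw [l2]; exact i.2), List.getElem_zipWith]

theorem log_small (c : ℕ) (m : ℕ) (hm : 2 ^ (c + 4) ≤ m) : c * Nat.log 2 m < m := by
  have hm0 : m ≠ 0 := by
    have : 0 < 2 ^ (c + 4) := by positivity
    omega
  have hL : c + 4 ≤ Nat.log 2 m := Nat.le_log_of_pow_le (by norm_num) hm
  have h1 : 2 ^ Nat.log 2 m ≤ m := Nat.pow_log_le_self 2 hm0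
  have h2 : ∀ L : ℕ, 4 ≤ L → L * L ≤ 2 ^ L := by
    intro L hL
    induction L, hL using Nat.le_induction with
    | base => norm_num
    | succ L hL ih =>
      rw [pow_succ]
      nlinarith
  have h3 := h2 (Nat.log 2 m) (by omega)
  nlinarith

theorem t_L2 (hs : S_SAM) (hx : S_XOR) (h0 : S_L0) (ht : S_THR) : S_L2 := by
  intro ε δ hε hε1 hδ hδ1 hgen
  obtain ⟨d, G, hd, hG, c, m₀, H⟩ := h0 4 ε (by norm_num) hgen
  obtain ⟨K, hK⟩ := exists_nat_ge (12 / δ ^ 2)
  have hδ2 : (0 : ℝ) < δ ^ 2 := by positivity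
  have hK0 : 1 ≤ K := by
    have : (0 : ℝ) < 12 / δ ^ 2 := by positivity
    have h : (0 : ℝ) < K := this.trans_le hK
    exact_mod_cast h
  refine ⟨fun m => d m + d m, gen2 d G, ?_, ptime_gen2 d G hd hG, 2 * c,
    m₀ + (K + 4 * K ^ 2 + 1) + 2 ^ (2 * c + 4), ?_⟩
  · exact PTime.of_poly (Poly.add hd.toPoly hd.toPoly)
  intro m hm
  have hp2 : 0 < 2 ^ (2 * c + 4) := by positivity
  have hKp : 0 ≤ K ^ 2 := Nat.zero_le _
  obtain ⟨h1, h2, h3, h4⟩ := H m (by omega)
  have hlog := log_small (2 * c) m (by omega)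
  refine ⟨by nlinarith, by nlinarith, ?_, ?_⟩
  · intro s hsl
    simp only [gen2, List.length_zipWith]
    rw [h3 _ (by simp [hsl]), h3 _ (by simp [hsl]), min_self]
  intro C hC
  have hm1 : 1 ≤ m := by omega
  have hC' : Comp0 m m C := by
    have : Comp0 m (m ^ 1) C := hC
    rwa [pow_one] at this
  -- the product space
  have e1 : pr (fun s : Fin (d m + d m) → Bool => C (vec m (gen2 d G m (List.ofFn s)))) =
      pr (fun w : (Fin (d m) → Bool) × (Fin (d m) → Bool) =>
        C (vx (vec m (G m (List.ofFn w.1))) (vec m (G m (List.ofFn w.2))))) := by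
    rw [← pr_equiv (Fin.appendEquiv (d m) (d m))]
    congr 1
    funext w
    rw [← vec_gen2 d G m h3]
    rfl
  show |pr (fun s : Fin (d m + d m) → Bool => C (vec m (gen2 d G m (List.ofFn s)))) - pr C| ≤ _
  rw [e1]
  -- sampling
  have hT0 : 0 < K * m := by positivity
  obtain ⟨s, hsam⟩ := hs (Fin (d m) → Bool) (Fin m → Bool)
    (fun y w => C (vx (vec m (G m (List.ofFn w))) y)) m (K * m) δ hδ hδ1 (by simp) (by
      have h5 : (12 : ℝ) ≤ K * δ ^ 2 := by
        rw [div_le_iff₀ hδ2] at hK
        exact hK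
      have h6 : (1 : ℝ) ≤ m := by exact_mod_cast hm1
      push_cast
      nlinarith)
  have hsize : ∀ θ : ℕ, Comp0 m (m ^ 4) (fun y => decide (θ ≤ (Finset.univ.filter fun i =>
      C (vx (vec m (G m (List.ofFn (s i)))) y) = true).card)) := by
    intro θ
    obtain ⟨l, q, hl, hq, ha⟩ := comp0_thr ht hm1 C hC' (K * m)
      (fun i => vec m (G m (List.ofFn (s i)))) θ
    refine ⟨l, q, hl, hq.trans ?_, ha⟩
    have hKm : K + 4 * K ^ 2 + 1 ≤ m := by
      have : 0 < 2 ^ (2 * c + 4) := by positivity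
      omega
    have h7 : 1 ≤ K * m := hT0
    have h8 : 2 * (K * m) * (K * m + 1) ≤ 4 * K ^ 2 * m ^ 2 := by nlinarith
    have h9 : 1 ≤ m ^ 2 := Nat.one_le_pow _ _ hm1
    have h10 : m ≤ m ^ 2 := by nlinarith
    calc K * m * m + 2 * (K * m) * (K * m + 1) + 1 ≤ K * m ^ 2 + 4 * K ^ 2 * m ^ 2 + m ^ 2 := by
          nlinarith
      _ = (K + 4 * K ^ 2 + 1) * m ^ 2 := by ring
      _ ≤ m ^ 2 * m ^ 2 := Nat.mul_le_mul_right _ (hKm.trans h10)
      _ = m ^ 4 := by ring
  refine hx (Fin (d m) → Bool) m (fun w => vec m (G m (List.ofFn w))) C (K * m) s ε δ hT0 hε hε1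
    hδ.le hsam ?_ ?_
  · intro θ
    have h11 := h4 (fun y => decide (θ ≤ (Finset.univ.filter fun i =>
      C (vx (vec m (G m (List.ofFn (s i)))) y) = true).card)) (hsize θ)
    exact h11
  · intro y
    have hsh : Comp0 m (m ^ 4) (fun x => C (vx x y)) := by
      obtain ⟨L, q, hL, hq, -, ha⟩ := copies C hC' 1 (fun _ => y)
      refine ⟨L, q, hL, hq.trans ?_, ?_⟩
      · rw [one_mul]
        exact Nat.le_self_pow (by norm_num) m
      · have := ha 0
        have e : (fun x => C (vx x y)) = fun x => C (vx y x) := by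
          funext x; rw [vx_comm]
        rw [e]; exact this
    have h12 := h4 (fun x => C (vx x y)) hsh
    rw [pr_shift] at h12
    exact h12

end Pool.Agent.W641.PRG
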