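import Pool.Agent.H547R7.Stm

/-!
# Finite gate sets are simulated by AND, OR and NOT gates with a constant factor
-/

set_option autoImplicit false

namespace Pool.Agent.W641.PRG

open Pool.Agent.H547R7 Pool.Agent.H547R6 Pool.Agent.NPC Pool.Agent.H424R2.PPAD

theorem avail_append {n : ℕ} (l' l : List (BF n)) (f : BF n) (h : Avail l f) :
    Avail (l' ++ l) f := by
  rcases h with h | h
  · exact Or.inl (List.mem_append_right _ h)
  · exact Or.inr h

theorem avail_cons {n : ℕ} (a : BF n) (l : List (BF n)) (f : BF n) (h : Avail l f) :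
    Avail (a :: l) f := by
  rcases h with h | h
  · exact Or.inl (List.mem_cons_of_mem _ h)
  · exact Or.inr h

theorem avail_head {n : ℕ} (a : BF n) (l : List (BF n)) : Avail (a :: l) a :=
  Or.inl (List.mem_cons_self ..)

theorem shannon : ∀ (k : ℕ) (f : (Fin k → Bool) → Bool), ∃ c : ℕ, ∀ (n s : ℕ) (l : List (BF n))
    (g : Fin k → BF n), 1 ≤ n → AON n s l → (∀ j, Avail l (g j)) →
    ∃ l' s', s' ≤ s + c ∧ AON n s' (l' ++ l) ∧ Avail (l' ++ l) (fun x => f fun j => g j x) := by
  intro k
  induction k with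
  | zero =>
    intro f
    refine ⟨1, ?_⟩
    intro n s l g hn hl _
    have hx : Avail l (fun x : Fin n → Bool => x ⟨0, hn⟩) := Or.inr ⟨_, rfl⟩
    have h1 := AON.not s l _ hl hx
    have hx1 := avail_cons (fun x : Fin n → Bool => !x ⟨0, hn⟩) l _ hx
    by_cases hb : f (fun j => j.elim0) = true
    · refine ⟨[_, _], s + 1, le_refl _, AON.or s _ _ _ h1 hx1 (avail_head _ _), ?_⟩
      have : (fun x : Fin n → Bool => f fun j => g j x) =
          (fun x : Fin n → Bool => x ⟨0, hn⟩ || !x ⟨0, hn⟩) := by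
        funext x
        have e : (fun j => g j x) = (fun j : Fin 0 => j.elim0) := by funext j; exact j.elim0
        rw [e, hb]; cases x ⟨0, hn⟩ <;> rfl
      rw [this]
      exact avail_head _ _
    · refine ⟨[_, _], s + 1, le_refl _, AON.and s _ _ _ h1 hx1 (avail_head _ _), ?_⟩
      have : (fun x : Fin n → Bool => f fun j => g j x) =
          (fun x : Fin n → Bool => x ⟨0, hn⟩ && !x ⟨0, hn⟩) := by
        funext x
        have e : (fun j => g j x) = (fun j : Fin 0 => j.elim0) := by funext j; exact j.elim0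
        rw [e]
        have hb' : f (fun j : Fin 0 => j.elim0) = false := by simpa using hb
        rw [hb']; cases x ⟨0, hn⟩ <;> rfl
      rw [this]
      exact avail_head _ _
  | succ k ih =>
    intro f
    obtain ⟨c1, h1⟩ := ih (fun y => f (Fin.snoc (α := fun _ => Bool) y true))
    obtain ⟨c0, h0⟩ := ih (fun y => f (Fin.snoc (α := fun _ => Bool) y false))
    refine ⟨c1 + c0 + 3, ?_⟩
    intro n s l g hn hl hg
    obtain ⟨l1, s1, hs1, ha1, hv1⟩ := h1 n s l (fun j => g j.castSucc) hn hl
      (fun j => hg _)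
    obtain ⟨l0, s0, hs0, ha0, hv0⟩ := h0 n s1 (l1 ++ l) (fun j => g j.castSucc) hn ha1
      (fun j => avail_append _ _ _ (hg _))
    set L := l0 ++ (l1 ++ l) with hL
    have hvl : Avail L (g (Fin.last k)) :=
      avail_append _ _ _ (avail_append _ _ _ (hg _))
    have hv1' : Avail L (fun x => f (Fin.snoc (α := fun _ => Bool) (fun j : Fin k => g j.castSucc x) true)) :=
      avail_append _ _ _ hv1
    have hv0' : Avail L (fun x => f (Fin.snoc (α := fun _ => Bool) (fun j : Fin k => g j.castSucc x) false)) :=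
      hv0
    -- and
    have k1 := AON.and s0 L _ _ ha0 hvl hv1'
    have k2 := AON.not _ _ _ k1 (avail_cons _ _ _ hvl)
    have k3 := AON.and _ _ _ _ k2 (avail_head _ _) (avail_cons _ _ _ (avail_cons _ _ _ hv0'))
    have k4 := AON.or _ _ _ _ k3 (avail_cons _ _ _ (avail_cons _ _ _ (avail_head _ _)))
      (avail_head _ _)
    rw [hL, ← List.append_assoc] at k4
    refine ⟨_ :: _ :: _ :: _ :: (l0 ++ l1), s0 + 1 + 1 + 1, by omega, k4, ?_⟩
    · refine Or.inl ?_
      refine List.mem_cons.mpr (Or.inl ?_)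
      funext x
      have e : ∀ b : Bool, g (Fin.last k) x = b → (fun j => g j x) =
          (Fin.snoc (α := fun _ => Bool) (fun j : Fin k => g j.castSucc x) b) := by
        intro b hb
        funext j
        refine Fin.lastCases ?_ (fun j => ?_) j
        · rw [Fin.snoc_last, hb]
        · rw [Fin.snoc_castSucc]
      rcases hb : g (Fin.last k) x with _ | _
      · simp [e _ hb]
      · simp [e _ hb]

theorem t_ORG : S_ORG := by
  intro B hB
  have hc : ∀ f : BFun, ∃ c : ℕ, ∀ (n s : ℕ) (l : List (BF n))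
      (g : Fin f.1 → BF n), 1 ≤ n → AON n s l → (∀ j, Avail l (g j)) →
      ∃ l' s', s' ≤ s + c ∧ AON n s' (l' ++ l) ∧ Avail (l' ++ l) (fun x => f.2 fun j => g j x) :=
    fun f => shannon f.1 f.2
  choose cf hcf using hc
  obtain ⟨c, hc⟩ : ∃ c : ℕ, ∀ f ∈ B, cf f ≤ c := by
    obtain ⟨c, hc⟩ := (hB.image cf).bddAbove
    exact ⟨c, fun f hf => hc ⟨f, hf, rfl⟩⟩
  refine ⟨c, ?_⟩
  intro n s C hn hC
  obtain ⟨l, hl, hls, hCl⟩ := hC
  have key : ∃ l' s', AON n s' l' ∧ s' ≤ c * l.length ∧ ∀ a ∈ l, Avail l' a := by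
    clear hls hCl
    induction hl with
    | nil => exact ⟨[], 0, AON.nil, by simp, by simp⟩
    | gate l k f g hf hg hl ih =>
      obtain ⟨l', s', hA, hs', hv⟩ := ih
      have hg' : ∀ j, Avail l' (g j) := by
        intro j
        rcases hg j with h | h
        · exact hv _ h
        · exact Or.inr h
      obtain ⟨l'', s'', hs'', hA'', hv''⟩ := hcf ⟨k, f⟩ n s' l' g hn hA hg'
      refine ⟨l'' ++ l', s'', hA'', ?_, ?_⟩
      · have := hc _ hf
        simp only [List.length_cons]
        nlinarith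
      · intro a ha
        rcases List.mem_cons.mp ha with rfl | ha
        · exact hv''
        · exact avail_append _ _ _ (hv a ha)
  obtain ⟨l', s', hA, hs', hv⟩ := key
  refine ⟨l', s', hA, hs'.trans (Nat.mul_le_mul_left _ hls), ?_⟩
  rcases hCl with h | h
  · exact hv _ h
  · exact Or.inr h

end Pool.Agent.W641.PRG
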