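import Pool.Agent.W979.TE.Defs

set_option autoImplicit false

namespace Pool.Agent.W641.TE

open Pool.Agent.W979.TE MvPolynomial

variable {F ι : Type} [Field F]

lemma sub_C_mem (x : ι → F) (p : MvPolynomial ι F) : p - C (eval x p) ∈ pt x := by
  induction p using MvPolynomial.induction_on with
  | C a => simp
  | add p q hp hq =>
    have : p + q - C (eval x (p + q)) = (p - C (eval x p)) + (q - C (eval x q)) := by
      simp only [map_add]; ring
    rw [this]; exact Ideal.add_mem _ hp hq
  | mul_X p i hp =>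
    have : p * X i - C (eval x (p * X i)) =
        X i * (p - C (eval x p)) + C (eval x p) * (X i - C (x i)) := by
      simp only [map_mul, eval_X]; ring
    rw [this]
    exact Ideal.add_mem _ (Ideal.mul_mem_left _ _ hp)
      (Ideal.mul_mem_left _ _ (Ideal.subset_span ⟨i, rfl⟩))

lemma pt_eq_ker (x : ι → F) : pt x = RingHom.ker (eval x) := by
  apply le_antisymm
  · rw [pt, Ideal.span_le]
    rintro _ ⟨i, rfl⟩
    simp [RingHom.mem_ker]
  · intro p hp
    have h := sub_C_mem x p
    rw [RingHom.mem_ker] at hp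
    rwa [hp, C_0, sub_zero] at h

lemma mem_pt {x : ι → F} {p : MvPolynomial ι F} : p ∈ pt x ↔ eval x p = 0 := by
  rw [pt_eq_ker, RingHom.mem_ker]

lemma pt_inj : Function.Injective (pt : (ι → F) → Ideal (MvPolynomial ι F)) := by
  intro x y h
  funext i
  have : (X i - C (x i) : MvPolynomial ι F) ∈ pt y := by
    rw [← h]; exact Ideal.subset_span ⟨i, rfl⟩
  rw [mem_pt] at this
  simp only [map_sub, eval_X, eval_C] at this
  linear_combination -this

instance pt_prime (x : ι → F) : (pt x).IsPrime := by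
  rw [pt_eq_ker]; exact RingHom.ker_isPrime _

/-- key claim -/
lemma key [Fintype ι] (I : Ideal (MvPolynomial ι F)) (x : ι → F) (N : ℕ)
    (hI : I ≤ pt x) (hN : pt x ^ N ≤ I ⊔ pt x ^ (N + 1)) :
    pt x ∈ I.minimalPrimes := by
  refine ⟨⟨pt_prime x, hI⟩, ?_⟩
  rintro P ⟨hP, hIP⟩ hPx
  have h1 : pt x ^ N ≤ P ⊔ pt x * pt x ^ N := by
    refine hN.trans (sup_le_sup hIP ?_)
    rw [pow_succ, mul_comm]
  -- image in quotient
  set D := MvPolynomial ι F ⧸ P with hD
  have : IsDomain D := Ideal.Quotient.isDomain P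
  set M : Ideal D := (pt x).map (Ideal.Quotient.mk P) with hM
  have h2 : M ^ N ≤ M • M ^ N := by
    have := Ideal.map_mono (f := Ideal.Quotient.mk P) h1
    rw [Ideal.map_sup, Ideal.map_quotient_self, bot_sup_eq, Ideal.map_mul, Ideal.map_pow] at this
    simpa [smul_eq_mul] using this
  have : IsNoetherianRing D := inferInstance
  obtain ⟨r, hr, hr0⟩ := Submodule.exists_sub_one_mem_and_smul_eq_zero_of_fg_of_le_smul M (M ^ N)
    (IsNoetherian.noetherian _) h2
  have hMtop : M ≠ ⊤ := by
    rw [hM]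
    intro h
    have h3 : (Ideal.comap (Ideal.Quotient.mk P) ((pt x).map (Ideal.Quotient.mk P))) = pt x := by
      rw [Ideal.comap_map_of_surjective _ Ideal.Quotient.mk_surjective]
      rw [← RingHom.ker_eq_comap_bot, Ideal.mk_ker, sup_eq_left]
      exact hPx
    rw [h, Ideal.comap_top] at h3
    exact (pt_prime x).ne_top h3.symm
  have hr1 : r ≠ 0 := by
    rintro rfl
    apply hMtop
    rw [Ideal.eq_top_iff_one]
    have := M.neg_mem hr
    rw [zero_sub, neg_neg] at this
    exact this
  have hMN : M ^ N = ⊥ := by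
    rw [eq_bot_iff]
    intro m hm
    have := hr0 m hm
    rw [smul_eq_mul] at this
    rcases mul_eq_zero.1 this with h | h
    · exact absurd h hr1
    · simpa using h
  have hM0 : M = ⊥ := by
    rw [eq_bot_iff]
    intro m hm
    have h4 : m ^ N ∈ M ^ N := Ideal.pow_mem_pow hm N
    rw [hMN, Ideal.mem_bot] at h4
    rw [Ideal.mem_bot]
    exact eq_zero_of_pow_eq_zero h4
  intro p hp
  have h5 : Ideal.Quotient.mk P p ∈ M := Ideal.mem_map_of_mem _ hp
  rw [hM0, Ideal.mem_bot] at h5
  exact Ideal.Quotient.eq_zero_iff_mem.1 h5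

/-- certified isolated zeros are finite in number -/
theorem t_FIN : S_FIN := by
  intro F ι κ _ _ _ N G
  have hfin := Ideal.finite_minimalPrimes_of_isNoetherianRing (MvPolynomial ι F)
    (Ideal.span (Set.range G))
  refine Set.Finite.of_finite_image (f := pt) (hfin.subset ?_) pt_inj.injOn
  rintro _ ⟨x, ⟨hx, hc⟩, rfl⟩
  refine key _ x N ?_ hc
  rw [Ideal.span_le]
  rintro _ ⟨j, rfl⟩
  exact mem_pt.2 (hx j)

end Pool.Agent.W641.TE
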